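import Pool.Agent.Lib.MP_4a593f_gt.Q4.First

/-! Task Geo: traces.

`X1_symm`, `X1_trace` (`tr X1 = 2 ∑|N_i|²`), `X1_sq_pos` (`tr(X1²) ≥ (tr X1)²/n > 0`),
`X1_mul_nonneg`: `tr(X1 N X1 P) = ∑_ij tr(N_i²P_j²) = ∑_ij hs(N_iP_j)`.
`geo`: `0 ≤ (1/2)∑_ij hs(N_iP_j + P_jN_i) = tr(X1 N X1 P) + ∑_ij tr(N_iP_jN_iP_j)`, and with
`g(L,M) = ⟨L,M⟩² - (1/2)tr(LMLM)`, which is a 4-form in `L` for fixed `M` (`four_wedge`, `G = A = M`) and
symmetric: `∑_ij g(N_i,P_j) = ∑_ij g(P_i,P_j) = ∑_ij g(N_i,N_j) = tau N` (`Bal.bal` twice); and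
`⟨N_i,P_j⟩ = 0` (hypothesis). -/

open scoped BigOperators

namespace HopfQ4

open HopfBig HopfN2

variable {n m : ℕ} {N P : Fin m → Mat n}

private theorem sq_transpose {A : Mat n} (hA : Skew A) : (A * A).transpose = A * A := by
  rw [Matrix.transpose_mul, hA.transpose, neg_mul_neg]

private theorem hs_trace (A : Mat n) : hs A = (A.transpose * A).trace := by
  rw [← two_ip_self, ip_eq_trace]
  ring

private theorem hs_diag {A : Mat n} (h : hs A = 0) (i : Fin n) : A i i = 0 := by
  have h1 : ∀ i j, A i j ^ 2 ≤ hs A := by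
    intro i j
    have h2 : A i j ^ 2 ≤ ∑ j, A i j ^ 2 :=
      Finset.single_le_sum (f := fun j => A i j ^ 2) (fun j _ => sq_nonneg (A i j))
        (Finset.mem_univ j)
    have h3 : ∑ j, A i j ^ 2 ≤ hs A :=
      Finset.single_le_sum (f := fun i => ∑ j, A i j ^ 2)
        (fun i _ => Finset.sum_nonneg fun j _ => sq_nonneg (A i j)) (Finset.mem_univ i)
    exact h2.trans h3
  have h4 := h1 i i
  rw [h] at h4
  have h5 : A i i ^ 2 = 0 := le_antisymm h4 (sq_nonneg _)
  exact pow_eq_zero_iff (two_ne_zero) |>.1 h5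

theorem X1_symm (hs : ∀ i, Skew (N i)) : (X1 N).transpose = X1 N := by
  unfold X1
  rw [Matrix.transpose_neg, Matrix.transpose_sum]
  congr 1
  exact Finset.sum_congr rfl fun i _ => sq_transpose (hs i)

theorem X1_trace (hs : ∀ i, Skew (N i)) : (X1 N).trace = 2 * ∑ i, ip (N i) (N i) := by
  unfold X1
  rw [Matrix.trace_neg, Matrix.trace_sum, Finset.mul_sum, ← Finset.sum_neg_distrib]
  refine Finset.sum_congr rfl fun i _ => ?_
  rw [ip_eq_trace, (hs i).transpose, neg_mul, Matrix.trace_neg]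
  ring

theorem X1_sq_pos (hs : ∀ i, Skew (N i)) (h1 : 0 < ∑ i, ip (N i) (N i)) :
    0 < (X1 N * X1 N).trace := by
  have e1 : (X1 N * X1 N).trace = HopfBig.hs (X1 N) := by
    rw [hs_trace, X1_symm hs]
  have h2 : 0 ≤ HopfBig.hs (X1 N) := hs_nonneg _
  rw [e1]
  rcases h2.lt_or_eq with h3 | h3
  · exact h3
  · exfalso
    have h4 := fun i => hs_diag h3.symm i
    have h8 : (X1 N).trace = 0 := by
      unfold Matrix.trace
      exact Finset.sum_eq_zero fun i _ => h4 i
    rw [X1_trace hs] at h8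
    linarith

private theorem X1_mul_trace (N P : Fin m → Mat n) :
    (X1 N * X1 P).trace = ∑ i, ∑ j, (N i * N i * (P j * P j)).trace := by
  unfold X1
  rw [neg_mul_neg, Finset.sum_mul_sum, Matrix.trace_sum]
  refine Finset.sum_congr rfl fun i _ => ?_
  rw [Matrix.trace_sum]

theorem X1_mul_nonneg (hN : ∀ i, Skew (N i)) (hP : ∀ j, Skew (P j)) :
    0 ≤ (X1 N * X1 P).trace := by
  rw [X1_mul_trace]
  refine Finset.sum_nonneg fun i _ => Finset.sum_nonneg fun j _ => ?_
  have h1 : (N i * N i * (P j * P j)).trace = hs (P j * N i) := by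
    rw [hs_trace, Matrix.transpose_mul, (hN i).transpose, (hP j).transpose, neg_mul_neg,
      Matrix.mul_assoc, Matrix.trace_mul_comm]
    simp only [Matrix.mul_assoc]
  rw [h1]
  exact hs_nonneg _

theorem geo (h : Bal N P) (ho : ∀ i j, ip (N i) (P j) = 0) :
    2 * tau N ≤ (X1 N * X1 P).trace := by
  have h1 : ∀ i, ∑ j, (-(1 / 2) * (N i * P j * N i * P j).trace) =
      ∑ j, (ip (N i) (N j) ^ 2 - (1 / 2) * (N i * N j * N i * N j).trace) := by
    intro i
    have h2 := h.bal _ (four_wedge (h.skN i) (h.skN i))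
    have e : ∀ L : Mat n, ∑ x, (N i * L * N i * L) x x = (N i * L * N i * L).trace := fun L => rfl
    simp only [e] at h2
    rw [Finset.sum_congr rfl fun j _ => show (ip (N i) (N j) ^ 2 -
      (1 / 2) * (N i * N j * N i * N j).trace) = ip (N i) (N j) * ip (N i) (N j) -
      (1 / 2) * (N i * N j * N i * N j).trace by rw [sq], h2]
    refine Finset.sum_congr rfl fun j _ => ?_
    rw [ho i j]
    ring
  have h2 : tau N = -(1 / 2) * ∑ i, ∑ j, (N i * P j * N i * P j).trace := by
    unfold tau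
    rw [Finset.mul_sum]
    refine Finset.sum_congr rfl fun i _ => ?_
    rw [← h1 i, Finset.mul_sum]
  have h3 : ∀ i j, 0 ≤ (N i * P j * N i * P j).trace + (N i * N i * (P j * P j)).trace := by
    intro i j
    have h4 := hs_nonneg (N i * P j + P j * N i)
    have h5 : hs (N i * P j + P j * N i) =
        2 * ((N i * P j * N i * P j).trace + (N i * N i * (P j * P j)).trace) := by
      rw [hs_trace, Matrix.transpose_add, Matrix.transpose_mul, Matrix.transpose_mul,
        (h.skN i).transpose, (h.skP j).transpose, neg_mul_neg, neg_mul_neg, add_mul, mul_add,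
        mul_add, Matrix.trace_add, Matrix.trace_add, Matrix.trace_add]
      have e1 : (P j * N i * (N i * P j)).trace = (N i * N i * (P j * P j)).trace := by
        rw [Matrix.mul_assoc, Matrix.trace_mul_comm]
        simp only [Matrix.mul_assoc]
      have e2 : (P j * N i * (P j * N i)).trace = (N i * P j * N i * P j).trace := by
        rw [Matrix.mul_assoc, Matrix.trace_mul_comm]
        simp only [Matrix.mul_assoc]
      have e3 : (N i * P j * (N i * P j)).trace = (N i * P j * N i * P j).trace := by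
        simp only [Matrix.mul_assoc]
      have e4 : (N i * P j * (P j * N i)).trace = (N i * N i * (P j * P j)).trace := by
        rw [← Matrix.mul_assoc, Matrix.trace_mul_comm]
        simp only [Matrix.mul_assoc]
      rw [e1, e2, e3, e4]
      ring
    linarith
  have h6 : 0 ≤ ∑ i, ∑ j, ((N i * P j * N i * P j).trace + (N i * N i * (P j * P j)).trace) :=
    Finset.sum_nonneg fun i _ => Finset.sum_nonneg fun j _ => h3 i j
  simp only [Finset.sum_add_distrib] at h6
  rw [X1_mul_trace, h2]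
  linarith

end HopfQ4
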