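import Pool.Agent.Lib.MP_4a593f_gt.Q4.Hf1

/-! Tasks Hf1 (bal_bilin, G_B, G_A), Hf2 (hform, hform_sum): the test vectors `hop L ψ`.

`bal_bilin`: polarise `four_form` (Big/G5; it needs unit vectors, scale), with
`⟨wdg χ, wdg η⟩ + ⟨ctr χ, ctr η⟩ = (1/2)(⟨hop χ, hop η⟩ + ⟨hopB χ, hopB η⟩)`.
`G_B`, `G_A` (write `A = hop L`, `B = hopB r`, `S = Ss (ac r L)`, `A' = hop r`, `ρ' = rho (br r L)`):
`BA = AB + S`, `A` skew-adjoint, `B`, `S` self-adjoint: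
`‖BAψ‖² + ⟨BA²ψ, Bψ⟩ = ⟨BAψ, BAψ - ABψ⟩ + ⟨SAψ, Bψ⟩ = ⟨ABψ + Sψ, Sψ⟩ + ⟨ASψ, Bψ⟩ + ⟨[S,A]ψ, Bψ⟩
= ‖Sψ‖² + ⟨[S,A]ψ, Bψ⟩`; similarly `A'A = AA' + ρ'` and
`‖A'Aψ‖² + ⟨A'A²ψ, A'ψ⟩ = ‖ρ'ψ‖² + ⟨[ρ',A]ψ, A'ψ⟩`.
`hform`: by `crit_bilin` + `bal_bilin` the form `b(χ,η) = μ⟨χ,η⟩ + (1/2)∑_N(⟨hop χ,hop η⟩ +
⟨hopB χ,hopB η⟩) - (1/2)∑_P(...)` (`μ = (c-1)∑|N|² + (1+ε)∑|P|²`) satisfies `b(ψ,·) = 0`,
`b(χ,χ) = Hf c ε N P χ ≥ 0`.  Take `0 ≤ b(Aψ,Aψ) + b(A²ψ,ψ)`; the `μ`-terms cancel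
(`⟨A²ψ,ψ⟩ = -‖Aψ‖²`), the rest is `(1/2)∑(G_B + G_A)`, and
`⟨hopB X ψ, hopB Y ψ⟩ = kf ψ X Y` (`inner_hopB_hopB`),
`ac (ac r L) L + br (br r L) L = 2 ac (L*L) r`. -/

open scoped BigOperators

namespace HopfQ4

open HopfBig HopfN2

variable {n m p : ℕ} {c ε : ℝ} {N P : Fin m → Mat n} {ψ : Fk n}

private theorem Hf2_hop_add (A B : Mat n) (f : Fk n) : hop (A + B) f = hop A f + hop B f := by
  simp only [hop, map_add, LinearMap.sub_apply, LinearMap.add_apply]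
  abel

private theorem Hf2_hop_smul (t : ℝ) (A : Mat n) (f : Fk n) : hop (t • A) f = t • hop A f := by
  simp only [hop, map_smul, LinearMap.sub_apply, LinearMap.smul_apply, smul_sub]

private theorem Hf2_kf_add (ψ : Fk n) (A B M : Mat n) : kf ψ (A + B) M = kf ψ A M + kf ψ B M := by
  unfold kf
  rw [Hf2_hop_add, inner_add_left]

private theorem Hf2_kf_smul (ψ : Fk n) (t : ℝ) (A M : Mat n) : kf ψ (t • A) M = t * kf ψ A M := by
  unfold kf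
  rw [Hf2_hop_smul, real_inner_smul_left]

private theorem Hf2_kf_neg (ψ : Fk n) (A M : Mat n) : kf ψ (-A) M = -kf ψ A M := by
  rw [← neg_one_smul ℝ A, Hf2_kf_smul]
  ring

private theorem Hf2_mat (r L : Mat n) :
    ac (ac r L) L + br (br r L) L = (2 : ℝ) • ac (L * L) r := by
  unfold ac br
  rw [two_smul]
  noncomm_ring

/-- one member of the family -/
private theorem Hf2_one (hd : Deg p ψ) {L r : Mat n} (hL : Skew L) (hr : Skew r) :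
    (inner ℝ (hop r (hop L ψ)) (hop r (hop L ψ)) +
      inner ℝ (hopB r (hop L ψ)) (hopB r (hop L ψ))) +
    (inner ℝ (hop r (hop L (hop L ψ))) (hop r ψ) +
      inner ℝ (hopB r (hop L (hop L ψ))) (hopB r ψ)) =
    (‖Ss (ac r L) ψ‖ ^ 2 + ‖rho (br r L) ψ‖ ^ 2) + 2 * kf ψ (ac (L * L) r) r := by
  have h1 := G_B hL hr ψ
  have h2 := G_A hL hr ψ
  rw [inner_hopB_hopB hd] at h1
  have h3 : (inner ℝ (hop (br (br r L) L) ψ) (hop r ψ) : ℝ) = kf ψ (br (br r L) L) r := rfl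
  rw [h3] at h2
  have h4 : kf ψ (ac (ac r L) L) r + kf ψ (br (br r L) L) r = 2 * kf ψ (ac (L * L) r) r := by
    rw [← Hf2_kf_add, Hf2_mat, Hf2_kf_smul]
  rw [real_inner_self_eq_norm_sq, real_inner_self_eq_norm_sq]
  linarith

private theorem Hf2_sum (hd : Deg p ψ) {L : Mat n} (hL : Skew L) (hN : ∀ i, Skew (N i)) :
    ∑ i, ((1 / 2) * (inner ℝ (hop (N i) (hop L ψ)) (hop (N i) (hop L ψ)) +
      inner ℝ (hopB (N i) (hop L ψ)) (hopB (N i) (hop L ψ)))) +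
    ∑ i, ((1 / 2) * (inner ℝ (hop (N i) (hop L (hop L ψ))) (hop (N i) ψ) +
      inner ℝ (hopB (N i) (hop L (hop L ψ))) (hopB (N i) ψ))) =
    (1 / 2) * ∑ i, (‖Ss (ac (N i) L) ψ‖ ^ 2 + ‖rho (br (N i) L) ψ‖ ^ 2) + KK ψ (L * L) N := by
  unfold KK
  rw [← Finset.sum_add_distrib, Finset.mul_sum, ← Finset.sum_add_distrib]
  refine Finset.sum_congr rfl fun i _ => ?_
  have h := Hf2_one hd hL (hN i)
  linarith

theorem hform (h : Crit c ε N P p ψ) {L : Mat n} (hL : Skew L) :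
    0 ≤ (1 / 2) * ∑ i, (‖Ss (ac (N i) L) ψ‖ ^ 2 + ‖rho (br (N i) L) ψ‖ ^ 2)
      - (1 / 2) * ∑ j, (‖Ss (ac (P j) L) ψ‖ ^ 2 + ‖rho (br (P j) L) ψ‖ ^ 2)
      + KK ψ (L * L) N - KK ψ (L * L) P := by
  have hN := Hf2_sum (N := N) h.deg hL h.bal.skN
  have hP := Hf2_sum (N := P) h.deg hL h.bal.skP
  have h0 := h.nonneg N P h.bal (hop L ψ)
  have h1 := crit_bilin h (hop L (hop L ψ))
  have b1 := bal_bilin h.bal (hop L ψ) (hop L ψ)
  have b2 := bal_bilin h.bal (hop L (hop L ψ)) ψ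
  have hsk : (inner ℝ (hop L (hop L ψ)) ψ : ℝ) = -inner ℝ (hop L ψ) (hop L ψ) := hop_skew L _ _
  have hc : (inner ℝ ψ (hop L (hop L ψ)) : ℝ) = -inner ℝ (hop L ψ) (hop L ψ) := by
    rw [real_inner_comm, hsk]
  unfold Hf at h0
  rw [hc] at h1
  rw [hsk] at b2
  simp only [Finset.sum_sub_distrib, Finset.sum_add_distrib, ← Finset.sum_mul] at b1 b2
  have e1 : ∀ K : Fin m → Mat n, ∑ i, inner ℝ (rho (K i) ψ) (rho (K i) (hop L (hop L ψ))) =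
      ∑ i, inner ℝ (rho (K i) (hop L (hop L ψ))) (rho (K i) ψ) := fun K =>
    Finset.sum_congr rfl fun i _ => real_inner_comm _ _
  have e2 : ∀ K : Fin m → Mat n, ∑ i, inner ℝ (rho (K i) (hop L ψ)) (rho (K i) (hop L ψ)) =
      ∑ i, ‖rho (K i) (hop L ψ)‖ ^ 2 := fun K =>
    Finset.sum_congr rfl fun i _ => real_inner_self_eq_norm_sq _
  rw [e1, e1] at h1
  rw [e2, e2] at b1
  rw [← real_inner_self_eq_norm_sq (hop L ψ)] at h0
  nlinarith [hN, hP, h0, h1, b1, b2]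

private theorem Hf2_KK_neg (ψ : Fk n) (S : Mat n) (N : Fin m → Mat n) :
    KK ψ (-S) N = -KK ψ S N := by
  unfold KK
  rw [← Finset.sum_neg_distrib]
  refine Finset.sum_congr rfl fun i _ => ?_
  rw [← Hf2_kf_neg]
  congr 1
  unfold ac
  noncomm_ring

private theorem Hf2_kf_sum {ι : Type*} (s : Finset ι) (ψ : Fk n) (F : ι → Mat n) (M : Mat n) :
    kf ψ (∑ i ∈ s, F i) M = ∑ i ∈ s, kf ψ (F i) M := by
  classical
  induction s using Finset.induction_on with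
  | empty =>
    have h : kf ψ (0 : Mat n) M = 0 := by
      have h1 := Hf2_kf_smul ψ 0 (0 : Mat n) M
      rw [zero_smul, zero_mul] at h1
      exact h1
    simpa using h
  | insert a s ha ih => rw [Finset.sum_insert ha, Finset.sum_insert ha, Hf2_kf_add, ih]

private theorem Hf2_KK_sum (ψ : Fk n) (N K : Fin m → Mat n) :
    ∑ i, KK ψ (N i * N i) K = -KK ψ (X1 N) K := by
  rw [← Hf2_KK_neg]
  have h : -X1 N = ∑ i, N i * N i := by unfold X1; rw [neg_neg]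
  rw [h]
  unfold KK
  rw [Finset.sum_comm]
  refine Finset.sum_congr rfl fun j _ => ?_
  rw [← Hf2_kf_sum]
  congr 1
  unfold ac
  rw [Finset.sum_mul, Finset.mul_sum, ← Finset.sum_add_distrib]

private theorem Hf2_X1_symm (hN : ∀ i, Skew (N i)) : (X1 N).transpose = X1 N := by
  unfold X1
  rw [Matrix.transpose_neg, Matrix.transpose_sum]
  congr 1
  refine Finset.sum_congr rfl fun i _ => ?_
  rw [Matrix.transpose_mul, (hN i).transpose]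
  noncomm_ring

private theorem Hf2_SS_comm (ψ : Fk n) (N P : Fin m → Mat n) : SS ψ P N = SS ψ N P := by
  unfold SS
  rw [Finset.sum_comm]
  refine Finset.sum_congr rfl fun i _ => Finset.sum_congr rfl fun j _ => ?_
  have h : ac (P j) (N i) = ac (N i) (P j) := by unfold ac; rw [add_comm]
  rw [h]

private theorem Hf2_QQ_comm (ψ : Fk n) (N P : Fin m → Mat n) : QQ ψ P N = QQ ψ N P := by
  unfold QQ
  rw [Finset.sum_comm]
  refine Finset.sum_congr rfl fun i _ => Finset.sum_congr rfl fun j _ => ?_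
  rw [br_neg_comm, map_neg, LinearMap.neg_apply, norm_neg]

/-- sum of `hform` over `L = N_i`, with `crit_marg` for `S = X1 N` -/
theorem hform_sum (h : Crit c ε N P p ψ) :
    0 ≤ SS ψ N N + QQ ψ N N - SS ψ N P - QQ ψ N P +
      2 * ((c - 1) * (X1 N * X1 N).trace + (1 + ε) * (X1 N * X1 P).trace) := by
  have h1 : 0 ≤ ∑ k, ((1 / 2) * ∑ i, (‖Ss (ac (N i) (N k)) ψ‖ ^ 2 + ‖rho (br (N i) (N k)) ψ‖ ^ 2)
      - (1 / 2) * ∑ j, (‖Ss (ac (P j) (N k)) ψ‖ ^ 2 + ‖rho (br (P j) (N k)) ψ‖ ^ 2)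
      + KK ψ (N k * N k) N - KK ψ (N k * N k) P) :=
    Finset.sum_nonneg fun k _ => hform h (h.bal.skN k)
  have h2 := crit_marg h (Hf2_X1_symm h.bal.skN)
  have e : ∀ K : Fin m → Mat n,
      ∑ k, (1 / 2) * ∑ i, (‖Ss (ac (K i) (N k)) ψ‖ ^ 2 + ‖rho (br (K i) (N k)) ψ‖ ^ 2) =
      (1 / 2) * (SS ψ K N + QQ ψ K N) := by
    intro K
    rw [← Finset.mul_sum, Finset.sum_comm]
    unfold SS QQ
    simp only [Finset.sum_add_distrib]
  rw [Finset.sum_sub_distrib, Finset.sum_add_distrib, Finset.sum_sub_distrib, e N, e P,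
    Hf2_KK_sum, Hf2_KK_sum, Hf2_SS_comm ψ N P, Hf2_QQ_comm ψ N P] at h1
  linarith

end HopfQ4
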