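import Pool.Agent.Lib.MP_4a593f_gt.Q4.Star2

/-! Tasks Star1 (bianchi, lW), Star2 (normW), Star3 (star0): the vectors `W_a = ∑_i ∑_b (N_i)_ab lq_b (hop N_i ψ) - ∑_j ∑_b (P_j)_ab lq_b (hop P_j ψ)`.

Write `∑_r r ω_r ⊗ ω_r` for `∑ N_i ⊗ N_i - ∑ P_j ⊗ P_j` (a Bianchi tensor).
`lW` (`S` symmetric): `lcontr` with `A = S`, `B = ω`: `tr(Sω) = 0`, skew part of `Sω` is
`(1/2)(Sω+ωS)`; `⟨ψ, ρ_T hop ω ψ⟩ = 0` (`inner_rho_hop`), `hop_skew`.
`normW`: `lcontr` with `A = ω`, `B = ω'`: `ωᵀω' = -ωω'`, trace `2⟨ω,ω'⟩`, skew part `-(1/2)[ω,ω']`;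
`inner_hop3`; so `∑_a ‖W_a‖² = ∑_{rr'} r r' (2⟨ω,ω'⟩ kf(ω,ω') - ⟨hop ω ψ, ρ_{[ω,ω']} hop ω' ψ⟩)`.  Then
`ρ_M hop ω' = hop ω' ρ_M + hop [M,ω']` (`hop_lie1`); the first part, antisymmetrised in `(ω,ω')`, gives
`-(1/2)∑ r r' ‖ρ_{[ω,ω']}ψ‖²` (`hop_lie2`).  Left: `∑ r r'(2⟨ω,ω'⟩ kf(ω,ω') - kf(ω,[[ω,ω'],ω']))`, and
`[[ω,ω'],ω'] = ωω'² - 2ω'ωω' + ω'²ω`, with `∑ r' ω'² = -(X1 N - X1 P)` and, by `bianchi`,
`∑ r' ω' ω ω' = -∑ r' ⟨ω,ω'⟩ ω'`.
`bianchi`: `R_abcd = ∑ r ω_ab ω_cd` satisfies the first Bianchi identity (test `Bal.bal` with the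
4-forms `t = ` antisymmetrisation of `e_a⊗e_b⊗e_c⊗e_d`, or `four_wedge` polarised).
`star0`: Cauchy-Schwarz `0 ≤ ∑_a ‖W_a + ∑_b C_ab lq_b ψ‖²` with `∑_a ‖∑_b C_ab lq_b ψ‖² = tr C²`
(`lcontr`), `∑_a ⟨∑_b C_ab lq_b ψ, W_a⟩ = KK ψ C N - KK ψ C P = -tr C²` (`crit_marg`), and
`KK ψ R1 N - KK ψ R1 P = -tr(R1 C)`. -/

open scoped BigOperators

namespace HopfQ4

open HopfBig HopfN2

variable {n m p : ℕ} {c ε : ℝ} {N P : Fin m → Mat n} {ψ : Fk n}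

private theorem star3_X1 {N : Fin m → Mat n} (hs : ∀ i, Skew (N i)) :
    (X1 N).transpose = X1 N := by
  unfold X1
  rw [Matrix.transpose_neg, Matrix.transpose_sum]
  congr 1
  refine Finset.sum_congr rfl fun i _ => ?_
  rw [Matrix.transpose_mul, (hs i).transpose]
  simp

theorem star0 (h : Crit c ε N P p ψ) (C : Mat n) (hC : C = (c - 1) • X1 N + (1 + ε) • X1 P) :
    (C * C).trace + ((X1 N - X1 P) * C).trace +
      ((1 / 2) * QQ ψ N N - QQ ψ N P + (1 / 2) * QQ ψ P P) ≤ 0 := by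
  have hN := star3_X1 h.bal.skN
  have hP := star3_X1 h.bal.skP
  have hCs : C.transpose = C := by
    rw [hC, Matrix.transpose_add, Matrix.transpose_smul, Matrix.transpose_smul, hN, hP]
  have hRs : (X1 N - X1 P).transpose = X1 N - X1 P := by
    rw [Matrix.transpose_sub, hN, hP]
  -- Cauchy-Schwarz
  have h0 : 0 ≤ ∑ a, ‖Wv N P ψ a + ∑ b, C a b • lq b ψ‖ ^ 2 :=
    Finset.sum_nonneg fun a _ => sq_nonneg _
  have hexp : ∑ a, ‖Wv N P ψ a + ∑ b, C a b • lq b ψ‖ ^ 2 =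
      ∑ a, ‖Wv N P ψ a‖ ^ 2 + 2 * ∑ a, inner ℝ (∑ b, C a b • lq b ψ) (Wv N P ψ a) +
        ∑ a, inner ℝ (∑ b, C a b • lq b ψ) (∑ b, C a b • lq b ψ) := by
    rw [Finset.mul_sum, ← Finset.sum_add_distrib, ← Finset.sum_add_distrib]
    refine Finset.sum_congr rfl fun a _ => ?_
    rw [norm_add_sq_real, real_inner_self_eq_norm_sq, real_inner_comm]
  have h1 := lW h.bal h.deg hCs
  have h2 := lcontr C C ψ ψ
  have h3 := normW h.bal h.deg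
  have h4 := crit_marg h hCs
  have h5 := crit_marg h hRs
  have hz : C.transpose * C - (C.transpose * C).transpose = 0 := by
    rw [Matrix.transpose_mul, Matrix.transpose_transpose, sub_self]
  have hh0 : (hop (0 : Mat n)) ψ = 0 := by
    unfold hop
    rw [map_zero, map_zero, sub_self, LinearMap.zero_apply]
  rw [hz, smul_zero, map_zero, hh0, LinearMap.zero_apply, sub_self,
    inner_zero_right, mul_zero, sub_zero, real_inner_self_eq_norm_sq, h.norm, one_pow, mul_one,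
    hCs] at h2
  have h6 : (c - 1) * (C * X1 N).trace + (1 + ε) * (C * X1 P).trace = (C * C).trace := by
    conv_rhs => rw [hC, mul_add, ← hC, Matrix.mul_smul, Matrix.mul_smul, Matrix.trace_add,
      Matrix.trace_smul, Matrix.trace_smul, smul_eq_mul, smul_eq_mul]
  have h7 : (c - 1) * ((X1 N - X1 P) * X1 N).trace + (1 + ε) * ((X1 N - X1 P) * X1 P).trace =
      ((X1 N - X1 P) * C).trace := by
    rw [hC, mul_add, Matrix.mul_smul, Matrix.mul_smul, Matrix.trace_add,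
      Matrix.trace_smul, Matrix.trace_smul, smul_eq_mul, smul_eq_mul]
  rw [hexp, h1, h2] at h0
  rw [h6] at h4
  rw [h7] at h5
  linarith

end HopfQ4
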