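import Pool.Agent.Lib.MP_4a593f_gt.Q4.Defs

/-! `tau N ≤ (∑ |N_i|²)²`. -/

open scoped BigOperators

namespace HopfQ4

open HopfBig

variable {n m : ℕ}

/-- the 4-form `L ∧ L` -/
private def w (L : Mat n) (a b c d : Fin n) : ℝ :=
  L a b * L c d - L a c * L b d + L a d * L b c

private def S4 (f : Fin n → Fin n → Fin n → Fin n → ℝ) : ℝ := ∑ a, ∑ b, ∑ c, ∑ d, f a b c d

private theorem S12 (f : Fin n → Fin n → Fin n → Fin n → ℝ) :
    S4 (fun a b c d => f b a c d) = S4 f := by
  unfold S4; exact Finset.sum_comm

private theorem S23 (f : Fin n → Fin n → Fin n → Fin n → ℝ) :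
    S4 (fun a b c d => f a c b d) = S4 f := by
  unfold S4; exact Finset.sum_congr rfl fun a _ => Finset.sum_comm

private theorem S34 (f : Fin n → Fin n → Fin n → Fin n → ℝ) :
    S4 (fun a b c d => f a b d c) = S4 f := by
  unfold S4
  exact Finset.sum_congr rfl fun a _ => Finset.sum_congr rfl fun b _ => Finset.sum_comm

private theorem S_add (f g : Fin n → Fin n → Fin n → Fin n → ℝ) :
    S4 (fun a b c d => f a b c d + g a b c d) = S4 f + S4 g := by
  simp only [S4, Finset.sum_add_distrib]

private theorem S_neg (f : Fin n → Fin n → Fin n → Fin n → ℝ) :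
    S4 (fun a b c d => -f a b c d) = -S4 f := by
  simp only [S4, Finset.sum_neg_distrib]

private theorem S_congr {f g : Fin n → Fin n → Fin n → Fin n → ℝ}
    (h : ∀ a b c d, f a b c d = g a b c d) : S4 f = S4 g := by
  have : f = g := by funext a b c d; exact h a b c d
  rw [this]

/-- `tr (L M L M)` as a sum -/
private def T (L M : Mat n) : ℝ := S4 fun a b c d => L a b * L c d * (M b c * M d a)

private theorem tr4 (L M : Mat n) : (L * M * L * M).trace = T L M := by
  have h1 : (L * M * L * M).trace =
      ∑ a, ∑ d, ∑ c, ∑ b, L a b * L c d * (M b c * M d a) := by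
    simp only [Matrix.trace, Matrix.diag, Matrix.mul_apply, Finset.sum_mul]
    refine Finset.sum_congr rfl fun a _ => Finset.sum_congr rfl fun d _ =>
      Finset.sum_congr rfl fun c _ => Finset.sum_congr rfl fun b _ => by ring
  rw [h1]
  have h2 : ∑ a, ∑ d, ∑ c, ∑ b, L a b * L c d * (M b c * M d a) =
      S4 (fun a d c b => L a b * L c d * (M b c * M d a)) := rfl
  rw [h2, ← S23 (fun a d c b => L a b * L c d * (M b c * M d a)),
    ← S34 (fun a c d b => L a b * L c d * (M b c * M d a)),
    ← S23 (fun a c b d => L a b * L c d * (M b c * M d a))]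
  rfl

private theorem t0 (L M : Mat n) :
    S4 (fun a b c d => L a b * L c d * (M a b * M c d)) = 4 * ip L M ^ 2 := by
  unfold S4 ip
  have : ∑ a, ∑ b, ∑ c, ∑ d, L a b * L c d * (M a b * M c d) =
      (∑ a, ∑ b, L a b * M a b) * ∑ c, ∑ d, L c d * M c d := by
    rw [Finset.sum_mul]
    refine Finset.sum_congr rfl fun a _ => ?_
    rw [Finset.sum_mul]
    refine Finset.sum_congr rfl fun b _ => ?_
    rw [Finset.mul_sum]
    refine Finset.sum_congr rfl fun c _ => ?_
    rw [Finset.mul_sum]
    exact Finset.sum_congr rfl fun d _ => by ring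
  rw [this]; ring

/-- `⟨L∧L, M∧M⟩ = 12 (⟨L,M⟩² - tr(LMLM)/2)` -/
private theorem ww {L M : Mat n} (hL : Skew L) (hM : Skew M) :
    S4 (fun a b c d => w L a b c d * w M a b c d) =
      12 * (ip L M ^ 2 - (1 / 2) * (L * M * L * M).trace) := by
  rw [tr4]
  have e0 := t0 L M
  -- the nine terms
  have b1 : S4 (fun a b c d => L a c * L b d * (M a c * M b d)) =
      S4 (fun a b c d => L a b * L c d * (M a b * M c d)) :=
    S23 (fun a b c d => L a b * L c d * (M a b * M c d))
  have b2 : S4 (fun a b c d => L a d * L b c * (M a d * M b c)) =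
      S4 (fun a b c d => L a c * L b d * (M a c * M b d)) :=
    S34 (fun a b c d => L a c * L b d * (M a c * M b d))
  -- L_ab L_cd M_ac M_bd = T
  have c1 : S4 (fun a b c d => L a b * L c d * (M a c * M b d)) = T L M := by
    have h := S34 (fun a b c d => L a b * L c d * (M b c * M d a))
    unfold T
    rw [← h]
    refine S_congr fun a b c d => ?_
    rw [hL c d, hM a c]; ring
  have c2 : S4 (fun a b c d => L a b * L c d * (M a d * M b c)) = -T L M := by
    unfold T
    rw [← S_neg]
    refine S_congr fun a b c d => ?_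
    rw [hM a d]; ring
  have c3 : S4 (fun a b c d => L a c * L b d * (M a b * M c d)) = T L M := by
    rw [← c1]
    exact S23 (fun a b c d => L a b * L c d * (M a c * M b d))
  have c4 : S4 (fun a b c d => L a c * L b d * (M a d * M b c)) = T L M := by
    have h : S4 (fun a b c d => L a c * L b d * (M a d * M b c)) =
        S4 (fun a b c d => L a b * L c d * (M a d * M c b)) :=
      S23 (fun a b c d => L a b * L c d * (M a d * M c b))
    rw [h, ← neg_neg (T L M), ← c2, ← S_neg]
    refine S_congr fun a b c d => ?_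
    rw [hM b c]; ring
  have c5 : S4 (fun a b c d => L a d * L b c * (M a b * M c d)) = -T L M := by
    rw [← c3]
    have h : S4 (fun a b c d => L a d * L b c * (M a b * M c d)) =
        S4 (fun a b c d => L a c * L b d * (M a b * M d c)) :=
      S34 (fun a b c d => L a c * L b d * (M a b * M d c))
    rw [h, ← S_neg]
    refine S_congr fun a b c d => ?_
    rw [hM c d]; ring
  have c6 : S4 (fun a b c d => L a d * L b c * (M a c * M b d)) = T L M := by
    have h : S4 (fun a b c d => L a d * L b c * (M a c * M b d)) =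
        S4 (fun a b c d => L a c * L b d * (M a d * M b c)) :=
      S34 (fun a b c d => L a c * L b d * (M a d * M b c))
    rw [h, c4]
  have key : S4 (fun a b c d => w L a b c d * w M a b c d) =
      S4 (fun a b c d => L a b * L c d * (M a b * M c d)) +
      S4 (fun a b c d => L a c * L b d * (M a c * M b d)) +
      S4 (fun a b c d => L a d * L b c * (M a d * M b c)) -
      S4 (fun a b c d => L a b * L c d * (M a c * M b d)) +
      S4 (fun a b c d => L a b * L c d * (M a d * M b c)) -
      S4 (fun a b c d => L a c * L b d * (M a b * M c d)) -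
      S4 (fun a b c d => L a c * L b d * (M a d * M b c)) +
      S4 (fun a b c d => L a d * L b c * (M a b * M c d)) -
      S4 (fun a b c d => L a d * L b c * (M a c * M b d)) := by
    simp only [sub_eq_add_neg, ← S_neg, ← S_add]
    refine S_congr fun a b c d => ?_
    simp only [w]
    ring
  rw [key, b2, b1, e0, c1, c2, c3, c4, c5, c6]
  ring

private theorem g_self {L : Mat n} (hL : Skew L) :
    ip L L ^ 2 - (1 / 2) * (L * L * L * L).trace ≤ ip L L ^ 2 := by
  have h : 0 ≤ (L * L * L * L).trace := by
    have h1 : (L * L * L * L).trace = ∑ i, ∑ j, (L * L) i j ^ 2 := by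
      rw [Matrix.mul_assoc (L * L) L L]
      simp only [Matrix.trace, Matrix.diag]
      refine Finset.sum_congr rfl fun i _ => ?_
      rw [Matrix.mul_apply]
      refine Finset.sum_congr rfl fun j _ => ?_
      have h2 : (L * L) j i = (L * L) i j := by
        simp only [Matrix.mul_apply]
        refine Finset.sum_congr rfl fun k _ => ?_
        rw [hL k j, hL i k]; ring
      rw [h2]; ring
    rw [h1]; positivity
  linarith

private theorem S4_cs (f g : Fin n → Fin n → Fin n → Fin n → ℝ) :
    S4 (fun a b c d => f a b c d * g a b c d) ^ 2 ≤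
      S4 (fun a b c d => f a b c d ^ 2) * S4 (fun a b c d => g a b c d ^ 2) := by
  have e : ∀ h : Fin n → Fin n → Fin n → Fin n → ℝ, S4 h =
      ∑ x : Fin n × Fin n × Fin n × Fin n, h x.1 x.2.1 x.2.2.1 x.2.2.2 := by
    intro h
    unfold S4
    simp only [Fintype.sum_prod_type]
  rw [e, e, e]
  exact Finset.sum_mul_sq_le_sq_mul_sq _ _ _

private theorem g_le {L M : Mat n} (hL : Skew L) (hM : Skew M) :
    ip L M ^ 2 - (1 / 2) * (L * M * L * M).trace ≤ ip L L * ip M M := by
  have h1 := S4_cs (w L) (w M)
  have h2 : ∀ K : Mat n, S4 (fun a b c d => w K a b c d ^ 2) =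
      S4 (fun a b c d => w K a b c d * w K a b c d) := fun K => S_congr fun a b c d => by ring
  rw [h2, h2, ww hL hM, ww hL hL, ww hM hM] at h1
  set x := ip L M ^ 2 - (1 / 2) * (L * M * L * M).trace
  have h3 := g_self hL
  have h4 := g_self hM
  have h5 : 0 ≤ S4 (fun a b c d => w L a b c d * w L a b c d) := by
    unfold S4
    exact Finset.sum_nonneg fun a _ => Finset.sum_nonneg fun b _ => Finset.sum_nonneg fun c _ =>
      Finset.sum_nonneg fun d _ => mul_self_nonneg _
  rw [ww hL hL] at h5
  have h6 : 0 ≤ S4 (fun a b c d => w M a b c d * w M a b c d) := by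
    unfold S4
    exact Finset.sum_nonneg fun a _ => Finset.sum_nonneg fun b _ => Finset.sum_nonneg fun c _ =>
      Finset.sum_nonneg fun d _ => mul_self_nonneg _
  rw [ww hM hM] at h6
  have hi : ∀ K : Mat n, 0 ≤ ip K K := fun K => ip_self_nonneg K
  have h7 : x ^ 2 ≤ (ip L L * ip M M) ^ 2 := by
    have h8 : x ^ 2 ≤ (ip L L ^ 2 - (1 / 2) * (L * L * L * L).trace) *
        (ip M M ^ 2 - (1 / 2) * (M * M * M * M).trace) := by nlinarith
    have h9 : (ip L L ^ 2 - (1 / 2) * (L * L * L * L).trace) *
        (ip M M ^ 2 - (1 / 2) * (M * M * M * M).trace) ≤ ip L L ^ 2 * ip M M ^ 2 :=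
      mul_le_mul h3 h4 (by linarith) (by positivity)
    calc x ^ 2 ≤ _ := h8
      _ ≤ _ := h9
      _ = _ := by ring
  exact (le_abs_self x).trans (abs_le_of_sq_le_sq h7 (mul_nonneg (hi L) (hi M)))

theorem tau_le {N : Fin m → Mat n} (hs : ∀ i, Skew (N i)) :
    tau N ≤ (∑ i, ip (N i) (N i)) ^ 2 := by
  unfold tau
  rw [sq, Finset.sum_mul]
  refine Finset.sum_le_sum fun i _ => ?_
  rw [Finset.mul_sum]
  exact Finset.sum_le_sum fun j _ => g_le (hs i) (hs j)

end HopfQ4
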