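import Pool.Agent.Lib.MP_4a593f_gt.Q4.Up1

/-! Tasks Up1 (Uprime), Up2 (L7, trXs, trbr, Eineq): the upper bound for `SS ψ N N` (no maximality needed).

`Uprime`.  With `E_M = rho M` (all matrices `M`): `Ss (ac L M) = E_{LM} + E_{ML} + 2⟨L,M⟩`,
`rho (br L M) = E_{LM} - E_{ML}` (`L, M` skew, `⟨L,M⟩ = -(1/2) tr(LM)`), so
`‖Ss(ac L M)ψ‖² - ‖rho(br L M)ψ‖² = 4⟨E_{LM}ψ, E_{ML}ψ⟩ + 4⟨L,M⟩⟨(E_{LM}+E_{ML})ψ,ψ⟩ + 4⟨L,M⟩²`.
CAR: `⟨c†_a c_b ψ, c†_c c_d ψ⟩ = δ_ac ⟨c_b ψ, c_d ψ⟩ - ⟨c_c c_b ψ, c_a c_d ψ⟩` (`c = an`, `c† = cr`), so with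
`X_{ab,cd} = ∑_i (N_i)_ab (N_i)_cd`
`∑_ij ⟨E_{N_iN_j}ψ, E_{N_jN_i}ψ⟩ = ∑ X_{ae,fd} X_{eb,af} ⟨c_b ψ, c_d ψ⟩ + ∑_{e,f} ‖v_ef‖²`,
`v_ef = ∑_{a,d} X_{ae,fd} c_a c_d ψ = -v_fe = -ctr (Xs N (e_e∧e_f)) ψ`.  The first term is
`∑_ij ⟨E_{N_iN_jN_iN_j}ψ,ψ⟩`.  Moreover `⟨wdg L ψ, wdg L ψ⟩ = ⟨ctr L ψ, ctr L ψ⟩ + |L|²‖ψ‖² +
⟨E_{L²}ψ,ψ⟩`, so `2‖ctr L ψ‖² = kf ψ L L - |L|² - ⟨E_{L²}ψ,ψ⟩`, and
`(1/2)∑_{e,f} (Xs N (e_e∧e_f))² = ∑_kl (N_kN_lN_kN_l + 2⟨N_k,N_l⟩N_kN_l)`
(as `(1/2)∑_{ef} E_ef M E_ef = Mᵀ - tr M`), so all one-body terms cancel.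
Traces: `(1/2)∑_{ef}|Xs N (e_e∧e_f)|² = tau + tX2`.
`L7`: for a 4-form `t`: both sums reduce to `± 2 ∑ t_abcd X_{ae,cf} X_{be,df}`.
`trbr`: `|[L,M]|² = tr(L²M²) - tr(LMLM)`.
`Eineq`: `SS = QQ + 4 ∑_e kf(X^♯e) - 4 tau`; by `L7` for `f = qf + kf - ip` (`four_kf`),
`∑_e kf(X^♯e) = trbr/2 + (tau+tX2) - QQ/2 - (1/2)∑kf(br) - ∑_e qf(X^♯e)`; drop `kf ≥ 0`, `qf ≥ 0`.
All identities were checked numerically. -/

open scoped BigOperators

namespace HopfQ4

open HopfBig HopfN2

variable {n m p : ℕ} {N : Fin m → Mat n} {ψ : Fk n}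

private def X4 (N : Fin m → Mat n) (a b c d : Fin n) : ℝ := ∑ i, N i a b * N i c d

private def G4 (N : Fin m → Mat n) (a b c d : Fin n) : ℝ :=
  ∑ e, ∑ f, X4 N a e c f * X4 N b e d f

private def S4 (t : Fin n → Fin n → Fin n → Fin n → ℝ) (M M' : Mat n) : ℝ :=
  ∑ a, ∑ b, ∑ c, ∑ d, t a b c d * M a b * M' c d

private theorem S4_sub_left (t : Fin n → Fin n → Fin n → Fin n → ℝ) (A B C : Mat n) :
    S4 t (A - B) C = S4 t A C - S4 t B C := by
  unfold S4
  simp only [← Finset.sum_sub_distrib]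
  refine Finset.sum_congr rfl fun a _ => Finset.sum_congr rfl fun b _ =>
    Finset.sum_congr rfl fun c _ => Finset.sum_congr rfl fun d _ => ?_
  rw [Matrix.sub_apply]; ring

private theorem S4_sub_right (t : Fin n → Fin n → Fin n → Fin n → ℝ) (A B C : Mat n) :
    S4 t A (B - C) = S4 t A B - S4 t A C := by
  unfold S4
  simp only [← Finset.sum_sub_distrib]
  refine Finset.sum_congr rfl fun a _ => Finset.sum_congr rfl fun b _ =>
    Finset.sum_congr rfl fun c _ => Finset.sum_congr rfl fun d _ => ?_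
  rw [Matrix.sub_apply]; ring

private theorem S4_left {t : Fin n → Fin n → Fin n → Fin n → ℝ} (ht : Alt4 t) (M M' : Mat n) :
    S4 t M.transpose M' = -S4 t M M' := by
  unfold S4
  rw [Finset.sum_comm]
  simp only [← Finset.sum_neg_distrib]
  refine Finset.sum_congr rfl fun a _ => Finset.sum_congr rfl fun b _ =>
    Finset.sum_congr rfl fun c _ => Finset.sum_congr rfl fun d _ => ?_
  rw [Matrix.transpose_apply, ht.1 a b c d]; ring

private theorem S4_right {t : Fin n → Fin n → Fin n → Fin n → ℝ} (ht : Alt4 t) (M M' : Mat n) :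
    S4 t M M'.transpose = -S4 t M M' := by
  unfold S4
  simp only [← Finset.sum_neg_distrib]
  refine Finset.sum_congr rfl fun a _ => Finset.sum_congr rfl fun b _ => ?_
  rw [Finset.sum_comm]
  refine Finset.sum_congr rfl fun c _ => Finset.sum_congr rfl fun d _ => ?_
  rw [Matrix.transpose_apply, ht.2.2 a b c d]; ring

private theorem S4_skew {t : Fin n → Fin n → Fin n → Fin n → ℝ} (ht : Alt4 t) (M : Mat n) :
    S4 t (M - M.transpose) (M - M.transpose) = 4 * S4 t M M := by
  rw [S4_sub_left, S4_sub_right, S4_sub_right, S4_left ht, S4_right ht, S4_left ht, S4_right ht]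
  ring

private theorem mul_eab_mul (A B : Mat n) (e f a b : Fin n) :
    (A * eab e f * B) a b = A a e * B f b - A a f * B e b := by
  have h1 : A * eab e f = Matrix.of fun a q =>
      A a e * (Pi.single f (1 : ℝ) : Fin n → ℝ) q - A a f * (Pi.single e (1 : ℝ) : Fin n → ℝ) q := by
    ext x y
    rw [Matrix.mul_apply]
    simp only [eab, wd, Matrix.of_apply, mul_sub, Finset.sum_sub_distrib]
    have h2 : ∀ (g : Fin n) (z : ℝ), ∑ j, A x j * ((Pi.single g (1 : ℝ) : Fin n → ℝ) j * z) =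
        A x g * z := by
      intro g z
      rw [Finset.sum_eq_single g]
      · simp
      · intro j _ hj
        simp [hj]
      · intro h; exact absurd (Finset.mem_univ g) h
    have h2' : ∀ (g : Fin n) (z : ℝ), ∑ j, A x j * (z * (Pi.single g (1 : ℝ) : Fin n → ℝ) j) =
        A x g * z := by
      intro g z
      rw [← h2 g z]
      exact Finset.sum_congr rfl fun j _ => by ring
    rw [h2, h2']
  rw [h1, Matrix.mul_apply]
  simp only [Matrix.of_apply, sub_mul, Finset.sum_sub_distrib]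
  have h3 : ∀ (g : Fin n) (z : ℝ), ∑ j, z * (Pi.single g (1 : ℝ) : Fin n → ℝ) j * B j b =
      z * B g b := by
    intro g z
    rw [Finset.sum_eq_single g]
    · simp
    · intro j _ hj
      simp [hj]
    · intro h; exact absurd (Finset.mem_univ g) h
  rw [h3, h3]

private theorem Xs_eab (hs : ∀ i, Skew (N i)) (e f a b : Fin n) :
    Xs N (eab e f) a b = X4 N a f b e - X4 N a e b f := by
  unfold Xs X4
  rw [Matrix.sum_apply, ← Finset.sum_sub_distrib]
  refine Finset.sum_congr rfl fun k _ => ?_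
  rw [mul_eab_mul, hs k b f, hs k b e]
  ring

private theorem X4_symm (N : Fin m → Mat n) (a b c d : Fin n) : X4 N a b c d = X4 N c d a b := by
  unfold X4
  exact Finset.sum_congr rfl fun i _ => mul_comm _ _

private theorem skew_Xs (hs : ∀ i, Skew (N i)) {L : Mat n} (hL : Skew L) : Skew (Xs N L) := by
  apply skew_of_transpose
  unfold Xs
  rw [Matrix.transpose_sum, ← Finset.sum_neg_distrib]
  refine Finset.sum_congr rfl fun k _ => ?_
  rw [Matrix.transpose_mul, Matrix.transpose_mul, (hs k).transpose, hL.transpose]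
  simp [mul_assoc]

private theorem skew_eab (a b : Fin n) : Skew (eab a b) := Skew.wd _ _

private theorem br_sum (hs : ∀ i, Skew (N i)) {t : Fin n → Fin n → Fin n → Fin n → ℝ}
    (ht : Alt4 t) :
    ∑ i, ∑ j, S4 t (br (N i) (N j)) (br (N i) (N j)) =
      4 * ∑ a, ∑ b, ∑ c, ∑ d, t a b c d * G4 N a b c d := by
  have h1 : ∀ i j, S4 t (br (N i) (N j)) (br (N i) (N j)) = 4 * S4 t (N i * N j) (N i * N j) := by
    intro i j
    have : br (N i) (N j) = N i * N j - (N i * N j).transpose := by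
      unfold br
      rw [Matrix.transpose_mul, (hs i).transpose, (hs j).transpose]
      simp
    rw [this, S4_skew ht]
  simp only [h1, ← Finset.mul_sum]
  congr 1
  unfold S4
  have hG : ∀ a b c d, G4 N a b c d = ∑ i, ∑ j, (N i * N j) a b * (N i * N j) c d := by
    intro a b c d
    unfold G4 X4
    have h2 : ∀ i j, (N i * N j) a b * (N i * N j) c d =
        ∑ e, ∑ f, (N i a e * N i c f) * (N j b e * N j d f) := by
      intro i j
      rw [Matrix.mul_apply, Matrix.mul_apply, Finset.sum_mul_sum]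
      refine Finset.sum_congr rfl fun e _ => Finset.sum_congr rfl fun f _ => ?_
      rw [hs j b e, hs j d f]; ring
    simp only [h2]
    simp only [Finset.sum_mul_sum]
    calc ∑ e, ∑ f, ∑ i, ∑ j, N i a e * N i c f * (N j b e * N j d f)
        = ∑ e, ∑ i, ∑ f, ∑ j, N i a e * N i c f * (N j b e * N j d f) :=
          Finset.sum_congr rfl fun e _ => Finset.sum_comm
      _ = ∑ i, ∑ e, ∑ f, ∑ j, N i a e * N i c f * (N j b e * N j d f) := Finset.sum_comm
      _ = ∑ i, ∑ e, ∑ j, ∑ f, N i a e * N i c f * (N j b e * N j d f) :=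
          Finset.sum_congr rfl fun i _ => Finset.sum_congr rfl fun e _ => Finset.sum_comm
      _ = ∑ i, ∑ j, ∑ e, ∑ f, N i a e * N i c f * (N j b e * N j d f) :=
          Finset.sum_congr rfl fun i _ => Finset.sum_comm
  simp only [hG, Finset.mul_sum]
  calc ∑ i, ∑ j, ∑ a, ∑ b, ∑ c, ∑ d, t a b c d * (N i * N j) a b * (N i * N j) c d
      = ∑ i, ∑ a, ∑ j, ∑ b, ∑ c, ∑ d, t a b c d * (N i * N j) a b * (N i * N j) c d :=
        Finset.sum_congr rfl fun i _ => Finset.sum_comm
    _ = ∑ a, ∑ i, ∑ j, ∑ b, ∑ c, ∑ d, t a b c d * (N i * N j) a b * (N i * N j) c d :=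
        Finset.sum_comm
    _ = ∑ a, ∑ b, ∑ c, ∑ d, ∑ i, ∑ j, t a b c d * ((N i * N j) a b * (N i * N j) c d) := by
        refine Finset.sum_congr rfl fun a _ => ?_
        calc ∑ i, ∑ j, ∑ b, ∑ c, ∑ d, t a b c d * (N i * N j) a b * (N i * N j) c d
            = ∑ i, ∑ b, ∑ j, ∑ c, ∑ d, t a b c d * (N i * N j) a b * (N i * N j) c d :=
              Finset.sum_congr rfl fun i _ => Finset.sum_comm
          _ = ∑ b, ∑ i, ∑ j, ∑ c, ∑ d, t a b c d * (N i * N j) a b * (N i * N j) c d :=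
              Finset.sum_comm
          _ = _ := by
              refine Finset.sum_congr rfl fun b _ => ?_
              calc ∑ i, ∑ j, ∑ c, ∑ d, t a b c d * (N i * N j) a b * (N i * N j) c d
                  = ∑ i, ∑ c, ∑ j, ∑ d, t a b c d * (N i * N j) a b * (N i * N j) c d :=
                    Finset.sum_congr rfl fun i _ => Finset.sum_comm
                _ = ∑ c, ∑ i, ∑ j, ∑ d, t a b c d * (N i * N j) a b * (N i * N j) c d :=
                    Finset.sum_comm
                _ = _ := by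
                    refine Finset.sum_congr rfl fun c _ => ?_
                    calc ∑ i, ∑ j, ∑ d, t a b c d * (N i * N j) a b * (N i * N j) c d
                        = ∑ i, ∑ d, ∑ j, t a b c d * (N i * N j) a b * (N i * N j) c d :=
                          Finset.sum_congr rfl fun i _ => Finset.sum_comm
                      _ = ∑ d, ∑ i, ∑ j, t a b c d * (N i * N j) a b * (N i * N j) c d :=
                          Finset.sum_comm
                      _ = _ := by
                          refine Finset.sum_congr rfl fun d _ => Finset.sum_congr rfl fun i _ =>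
                            Finset.sum_congr rfl fun j _ => ?_
                          ring

private theorem Xs_sum (hs : ∀ i, Skew (N i)) {t : Fin n → Fin n → Fin n → Fin n → ℝ}
    (ht : Alt4 t) :
    ∑ e, ∑ f, S4 t (Xs N (eab e f)) (Xs N (eab e f)) =
      4 * ∑ a, ∑ b, ∑ c, ∑ d, t a b c d * G4 N a c b d := by
  have h1 : ∀ e f, S4 t (Xs N (eab e f)) (Xs N (eab e f)) =
      4 * ∑ a, ∑ b, ∑ c, ∑ d, t a b c d * (X4 N a f b e * X4 N c f d e) := by
    intro e f
    have : Xs N (eab e f) = (Matrix.of fun a b => X4 N a f b e) -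
        (Matrix.of fun a b => X4 N a f b e : Mat n).transpose := by
      ext a b
      rw [Xs_eab hs, Matrix.sub_apply, Matrix.transpose_apply, Matrix.of_apply, Matrix.of_apply,
        X4_symm N b f a e]
    rw [this, S4_skew ht]
    unfold S4
    congr 1
    refine Finset.sum_congr rfl fun a _ => Finset.sum_congr rfl fun b _ =>
      Finset.sum_congr rfl fun c _ => Finset.sum_congr rfl fun d _ => ?_
    rw [Matrix.of_apply, Matrix.of_apply]; ring
  simp only [h1, ← Finset.mul_sum]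
  congr 1
  unfold G4
  simp only [Finset.mul_sum]
  rw [Finset.sum_comm]
  calc ∑ f, ∑ e, ∑ a, ∑ b, ∑ c, ∑ d, t a b c d * (X4 N a f b e * X4 N c f d e)
      = ∑ f, ∑ a, ∑ e, ∑ b, ∑ c, ∑ d, t a b c d * (X4 N a f b e * X4 N c f d e) :=
        Finset.sum_congr rfl fun i _ => Finset.sum_comm
    _ = ∑ a, ∑ f, ∑ e, ∑ b, ∑ c, ∑ d, t a b c d * (X4 N a f b e * X4 N c f d e) :=
        Finset.sum_comm
    _ = ∑ a, ∑ b, ∑ c, ∑ d, ∑ f, ∑ e, t a b c d * (X4 N a f b e * X4 N c f d e) := by
        refine Finset.sum_congr rfl fun a _ => ?_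
        calc ∑ f, ∑ e, ∑ b, ∑ c, ∑ d, t a b c d * (X4 N a f b e * X4 N c f d e)
            = ∑ f, ∑ b, ∑ e, ∑ c, ∑ d, t a b c d * (X4 N a f b e * X4 N c f d e) :=
              Finset.sum_congr rfl fun i _ => Finset.sum_comm
          _ = ∑ b, ∑ f, ∑ e, ∑ c, ∑ d, t a b c d * (X4 N a f b e * X4 N c f d e) :=
              Finset.sum_comm
          _ = _ := by
              refine Finset.sum_congr rfl fun b _ => ?_
              calc ∑ f, ∑ e, ∑ c, ∑ d, t a b c d * (X4 N a f b e * X4 N c f d e)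
                  = ∑ f, ∑ c, ∑ e, ∑ d, t a b c d * (X4 N a f b e * X4 N c f d e) :=
                    Finset.sum_congr rfl fun i _ => Finset.sum_comm
                _ = ∑ c, ∑ f, ∑ e, ∑ d, t a b c d * (X4 N a f b e * X4 N c f d e) :=
                    Finset.sum_comm
                _ = _ := by
                    refine Finset.sum_congr rfl fun c _ => ?_
                    calc ∑ f, ∑ e, ∑ d, t a b c d * (X4 N a f b e * X4 N c f d e)
                        = ∑ f, ∑ d, ∑ e, t a b c d * (X4 N a f b e * X4 N c f d e) :=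
                          Finset.sum_congr rfl fun i _ => Finset.sum_comm
                      _ = ∑ d, ∑ f, ∑ e, t a b c d * (X4 N a f b e * X4 N c f d e) :=
                          Finset.sum_comm

theorem L7 (hs : ∀ i, Skew (N i)) {f : Mat n → ℝ} (hf : Four f) :
    (1 / 2) * ∑ i, ∑ j, f (br (N i) (N j)) + (1 / 2) * ∑ a, ∑ b, f (Xs N (eab a b)) = 0 := by
  obtain ⟨t, ht, hft⟩ := hf
  have hS : ∀ L : Mat n, Skew L → f L = S4 t L L := hft
  have e1 : ∑ i, ∑ j, f (br (N i) (N j)) =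
      ∑ i, ∑ j, S4 t (br (N i) (N j)) (br (N i) (N j)) :=
    Finset.sum_congr rfl fun i _ => Finset.sum_congr rfl fun j _ => hS _ ((hs i).br (hs j))
  have e2 : ∑ a, ∑ b, f (Xs N (eab a b)) =
      ∑ a, ∑ b, S4 t (Xs N (eab a b)) (Xs N (eab a b)) :=
    Finset.sum_congr rfl fun i _ => Finset.sum_congr rfl fun j _ =>
      hS _ (skew_Xs hs (skew_eab _ _))
  rw [e1, e2, br_sum hs ht, Xs_sum hs ht]
  have e3 : ∑ a, ∑ b, ∑ c, ∑ d, t a b c d * G4 N a c b d =
      -∑ a, ∑ b, ∑ c, ∑ d, t a b c d * G4 N a b c d := by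
    simp only [← Finset.sum_neg_distrib]
    refine Finset.sum_congr rfl fun a _ => ?_
    rw [Finset.sum_comm]
    refine Finset.sum_congr rfl fun b _ => Finset.sum_congr rfl fun c _ =>
      Finset.sum_congr rfl fun d _ => ?_
    rw [ht.2.1 a b c d]; ring
  rw [e3]; ring

private theorem ip_skew {A B : Mat n} (hB : Skew B) : ip A B = -(1 / 2) * (A * B).trace := by
  unfold ip Matrix.trace
  simp only [Matrix.diag_apply, Matrix.mul_apply]
  rw [neg_mul, ← mul_neg, ← Finset.sum_neg_distrib]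
  congr 1
  refine Finset.sum_congr rfl fun i _ => ?_
  rw [← Finset.sum_neg_distrib]
  refine Finset.sum_congr rfl fun j _ => ?_
  rw [hB i j]; ring

private theorem trXs_pair (hs : ∀ i, Skew (N i)) (k l : Fin m) :
    ∑ a, ∑ b, ∑ p, ∑ q, (N k p b * N k q a - N k p a * N k q b) *
        (N l p b * N l q a - N l p a * N l q b) =
      8 * ip (N k) (N l) ^ 2 - 2 * (N k * N l * N k * N l).trace := by
  have h1 : ∀ a b : Fin n, ∑ p, ∑ q, (N k p b * N k q a - N k p a * N k q b) *
        (N l p b * N l q a - N l p a * N l q b) =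
      (∑ p, N k p b * N l p b) * (∑ q, N k q a * N l q a) +
        (∑ p, N k p a * N l p a) * (∑ q, N k q b * N l q b) -
        (∑ p, N k p b * N l p a) * (∑ q, N k q a * N l q b) -
        (∑ p, N k p a * N l p b) * (∑ q, N k q b * N l q a) := by
    intro a b
    rw [Finset.sum_mul_sum, Finset.sum_mul_sum, Finset.sum_mul_sum, Finset.sum_mul_sum,
      ← Finset.sum_add_distrib, ← Finset.sum_sub_distrib, ← Finset.sum_sub_distrib]
    refine Finset.sum_congr rfl fun p _ => ?_
    rw [← Finset.sum_add_distrib, ← Finset.sum_sub_distrib, ← Finset.sum_sub_distrib]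
    refine Finset.sum_congr rfl fun q _ => ?_
    ring
  simp only [h1]
  have h2 : ∀ a b : Fin n, ∑ p, N k p a * N l p b = -(N k * N l) a b := by
    intro a b
    rw [Matrix.mul_apply, ← Finset.sum_neg_distrib]
    refine Finset.sum_congr rfl fun p _ => ?_
    rw [hs k a p]; ring
  simp only [h2]
  have h3 : ∑ a, ∑ b, (-(N k * N l) b b * -(N k * N l) a a) = (N k * N l).trace ^ 2 := by
    unfold Matrix.trace
    rw [sq, Finset.sum_mul_sum]
    refine Finset.sum_congr rfl fun a _ => Finset.sum_congr rfl fun b _ => ?_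
    rw [Matrix.diag_apply, Matrix.diag_apply]; ring
  have h3' : ∑ a, ∑ b, (-(N k * N l) a a * -(N k * N l) b b) = (N k * N l).trace ^ 2 := by
    rw [← h3]
    refine Finset.sum_congr rfl fun a _ => Finset.sum_congr rfl fun b _ => ?_
    ring
  have h4 : ∑ a, ∑ b, (-(N k * N l) b a * -(N k * N l) a b) =
      (N k * N l * N k * N l).trace := by
    have : N k * N l * N k * N l = (N k * N l) * (N k * N l) := by
      simp only [mul_assoc]
    rw [this]
    unfold Matrix.trace
    refine Finset.sum_congr rfl fun a _ => ?_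
    rw [Matrix.diag_apply, Matrix.mul_apply (M := N k * N l) (N := N k * N l)]
    refine Finset.sum_congr rfl fun b _ => ?_
    ring
  have h4' : ∑ a, ∑ b, (-(N k * N l) a b * -(N k * N l) b a) =
      (N k * N l * N k * N l).trace := by
    rw [← h4]
    refine Finset.sum_congr rfl fun a _ => Finset.sum_congr rfl fun b _ => ?_
    ring
  simp only [Finset.sum_sub_distrib, Finset.sum_add_distrib]
  rw [h3, h3', h4, h4', ip_skew (hs l)]
  ring

theorem trXs (hs : ∀ i, Skew (N i)) :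
    (1 / 2) * ∑ a, ∑ b, ip (Xs N (eab a b)) (Xs N (eab a b)) = tau N + tX2 N := by
  have h1 : ∀ a b, ip (Xs N (eab a b)) (Xs N (eab a b)) =
      (1 / 2) * ∑ k, ∑ l, ∑ p, ∑ q, (N k p b * N k q a - N k p a * N k q b) *
        (N l p b * N l q a - N l p a * N l q b) := by
    intro a b
    unfold ip
    congr 1
    have h2 : ∀ p q, Xs N (eab a b) p q = ∑ k, (N k p b * N k q a - N k p a * N k q b) := by
      intro p q
      rw [Xs_eab hs]
      unfold X4
      rw [← Finset.sum_sub_distrib]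
    simp only [h2, Finset.sum_mul_sum]
    calc ∑ p, ∑ q, ∑ k, ∑ l, (N k p b * N k q a - N k p a * N k q b) *
          (N l p b * N l q a - N l p a * N l q b)
        = ∑ p, ∑ k, ∑ q, ∑ l, (N k p b * N k q a - N k p a * N k q b) *
          (N l p b * N l q a - N l p a * N l q b) :=
          Finset.sum_congr rfl fun p _ => Finset.sum_comm
      _ = ∑ k, ∑ p, ∑ q, ∑ l, (N k p b * N k q a - N k p a * N k q b) *
          (N l p b * N l q a - N l p a * N l q b) := Finset.sum_comm
      _ = ∑ k, ∑ p, ∑ l, ∑ q, (N k p b * N k q a - N k p a * N k q b) *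
          (N l p b * N l q a - N l p a * N l q b) :=
          Finset.sum_congr rfl fun k _ => Finset.sum_congr rfl fun p _ => Finset.sum_comm
      _ = ∑ k, ∑ l, ∑ p, ∑ q, (N k p b * N k q a - N k p a * N k q b) *
          (N l p b * N l q a - N l p a * N l q b) :=
          Finset.sum_congr rfl fun k _ => Finset.sum_comm
  simp only [h1, ← Finset.mul_sum]
  have h3 : ∑ a, ∑ b, ∑ k, ∑ l, ∑ p, ∑ q, (N k p b * N k q a - N k p a * N k q b) *
        (N l p b * N l q a - N l p a * N l q b) =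
      ∑ k, ∑ l, (8 * ip (N k) (N l) ^ 2 - 2 * (N k * N l * N k * N l).trace) := by
    calc ∑ a, ∑ b, ∑ k, ∑ l, ∑ p, ∑ q, (N k p b * N k q a - N k p a * N k q b) *
          (N l p b * N l q a - N l p a * N l q b)
        = ∑ a, ∑ k, ∑ b, ∑ l, ∑ p, ∑ q, (N k p b * N k q a - N k p a * N k q b) *
          (N l p b * N l q a - N l p a * N l q b) :=
          Finset.sum_congr rfl fun a _ => Finset.sum_comm
      _ = ∑ k, ∑ a, ∑ b, ∑ l, ∑ p, ∑ q, (N k p b * N k q a - N k p a * N k q b) *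
          (N l p b * N l q a - N l p a * N l q b) := Finset.sum_comm
      _ = ∑ k, ∑ a, ∑ l, ∑ b, ∑ p, ∑ q, (N k p b * N k q a - N k p a * N k q b) *
          (N l p b * N l q a - N l p a * N l q b) :=
          Finset.sum_congr rfl fun k _ => Finset.sum_congr rfl fun a _ => Finset.sum_comm
      _ = ∑ k, ∑ l, ∑ a, ∑ b, ∑ p, ∑ q, (N k p b * N k q a - N k p a * N k q b) *
          (N l p b * N l q a - N l p a * N l q b) :=
          Finset.sum_congr rfl fun k _ => Finset.sum_comm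
      _ = _ := Finset.sum_congr rfl fun k _ => Finset.sum_congr rfl fun l _ => trXs_pair hs k l
  rw [h3]
  unfold tau tX2
  rw [← Finset.sum_add_distrib, Finset.mul_sum, Finset.mul_sum]
  refine Finset.sum_congr rfl fun k _ => ?_
  rw [← Finset.sum_add_distrib, Finset.mul_sum, Finset.mul_sum]
  refine Finset.sum_congr rfl fun l _ => ?_
  ring

theorem trbr (hs : ∀ i, Skew (N i)) :
    (1 / 2) * ∑ i, ∑ j, ip (br (N i) (N j)) (br (N i) (N j)) =
      (1 / 2) * (X1 N * X1 N).trace + tau N - tX2 N := by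
  have h1 : ∀ i j, ip (br (N i) (N j)) (br (N i) (N j)) =
      (N i * N i * (N j * N j)).trace - (N i * N j * N i * N j).trace := by
    intro i j
    rw [ip_skew ((hs i).br (hs j))]
    unfold br
    have e1 : (N i * N j * (N j * N i)).trace = (N i * N i * (N j * N j)).trace := by
      rw [← mul_assoc, Matrix.trace_mul_comm, ← mul_assoc, ← mul_assoc, ← mul_assoc]
    have e2 : (N j * N i * (N i * N j)).trace = (N i * N i * (N j * N j)).trace := by
      rw [Matrix.trace_mul_comm, ← e1]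
    have e3 : (N i * N j * (N i * N j)).trace = (N i * N j * N i * N j).trace := by
      rw [← mul_assoc]
    have e4 : (N j * N i * (N j * N i)).trace = (N i * N j * N i * N j).trace := by
      rw [mul_assoc, Matrix.trace_mul_comm, ← mul_assoc]
    rw [sub_mul, mul_sub, mul_sub, Matrix.trace_sub, Matrix.trace_sub, Matrix.trace_sub, e1, e2,
      e3, e4]
    ring
  simp only [h1]
  have h2 : (X1 N * X1 N).trace = ∑ i, ∑ j, (N i * N i * (N j * N j)).trace := by
    unfold X1
    rw [neg_mul_neg, Finset.sum_mul_sum, Matrix.trace_sum]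
    exact Finset.sum_congr rfl fun i _ => Matrix.trace_sum _ _
  rw [h2]
  unfold tau tX2
  simp only [Finset.mul_sum, ← Finset.sum_add_distrib, ← Finset.sum_sub_distrib]
  refine Finset.sum_congr rfl fun i _ => Finset.sum_congr rfl fun j _ => ?_
  ring

theorem Eineq (hs : ∀ i, Skew (N i)) (hd : Deg p ψ) (hψ : ‖ψ‖ = 1) :
    SS ψ N N + (1 / 2) * QQ ψ N N ≤ 2 * (X1 N * X1 N).trace + 4 * tau N := by
  have h1 := Uprime hs hd hψ
  have h2 := L7 hs (four_kf hd hψ)
  have h3 := trXs hs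
  have h4 := trbr hs
  simp only [Finset.sum_sub_distrib, Finset.sum_add_distrib] at h2
  have hQ : ∑ i, ∑ j, qf ψ (br (N i) (N j)) (br (N i) (N j)) = QQ ψ N N := by
    unfold QQ qf
    exact Finset.sum_congr rfl fun i _ => Finset.sum_congr rfl fun j _ =>
      real_inner_self_eq_norm_sq _
  have hQ0 : 0 ≤ QQ ψ N N :=
    Finset.sum_nonneg fun i _ => Finset.sum_nonneg fun j _ => sq_nonneg _
  have hk : 0 ≤ ∑ i, ∑ j, kf ψ (br (N i) (N j)) (br (N i) (N j)) :=
    Finset.sum_nonneg fun i _ => Finset.sum_nonneg fun j _ => real_inner_self_nonneg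
  have hq : 0 ≤ ∑ a, ∑ b, qf ψ (Xs N (eab a b)) (Xs N (eab a b)) :=
    Finset.sum_nonneg fun i _ => Finset.sum_nonneg fun j _ => real_inner_self_nonneg
  rw [hQ] at h2
  linarith

end HopfQ4
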