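import Pool.Agent.Lib.MP_4a593f_gt.Q4.Ex
import Pool.Agent.Lib.MP_4a593f_gt.Q4.Hf2
import Pool.Agent.Lib.MP_4a593f_gt.Q4.Star3
import Pool.Agent.Lib.MP_4a593f_gt.Q4.Up2
import Pool.Agent.Lib.MP_4a593f_gt.Q4.Geo
import Pool.Agent.Lib.MP_4a593f_gt.Q4.Tau

/-! Combination, with a constant `C ≥ 3` depending on `n`:
`n (4 - C) ≤ 2 C (C - 3)` (for instance `C = 4`). -/

open scoped BigOperators

namespace HopfQ4

open HopfBig HopfN2

variable {n m : ℕ}

private theorem trace_sq_le (A : Mat n) (hA : A.transpose = A) :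
    A.trace ^ 2 ≤ n * (A * A).trace := by
  have h1 : (∑ i, ∑ j, A i j ^ 2) = (A * A).trace := by
    simp only [Matrix.trace, Matrix.diag, Matrix.mul_apply]
    refine Finset.sum_congr rfl fun i _ => Finset.sum_congr rfl fun j _ => ?_
    have : A j i = A i j := by
      have := congrFun (congrFun hA i) j
      simpa [Matrix.transpose_apply] using this
    rw [this]; ring
  have h2 : A.trace ^ 2 ≤ n * ∑ i, A i i ^ 2 := by
    have h := sq_sum_le_card_mul_sum_sq (s := Finset.univ) (f := fun i : Fin n => A i i)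
    simpa [Matrix.trace, Matrix.diag] using h
  have h3 : ∑ i, A i i ^ 2 ≤ ∑ i, ∑ j, A i j ^ 2 :=
    Finset.sum_le_sum fun i _ => Finset.single_le_sum (f := fun j => A i j ^ 2)
      (fun j _ => sq_nonneg _) (Finset.mem_univ i)
  rw [← h1]
  exact h2.trans (mul_le_mul_of_nonneg_left h3 (Nat.cast_nonneg n))

private theorem arith {n c C ε a1 a2 a3 τ S Q SP QP QPP : ℝ} (hn : 1 ≤ n) (hC3 : 3 ≤ C)
    (hCn : n * (4 - C) ≤ 2 * C * (C - 3)) (hc : C ≤ c) (hε : 0 < ε) (ha2 : 0 ≤ a2) (ha3 : 0 ≤ a3)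
    (h1n : 4 ≤ n * a1)
    (hSP : 0 ≤ SP) (hQPP : 0 ≤ QPP) (hgeo : 2 * τ ≤ a2) (hτ : τ ≤ 1)
    (hform : 0 ≤ S + Q - SP - QP + 2 * ((c - 1) * a1 + (1 + ε) * a2))
    (hstar : ((c - 1) * ((c - 1) * a1 + (1 + ε) * a2) + (1 + ε) * ((c - 1) * a2 + (1 + ε) * a3)) +
      (((c - 1) * a1 + (1 + ε) * a2) - ((c - 1) * a2 + (1 + ε) * a3)) +
      ((1 / 2) * Q - QP + (1 / 2) * QPP) ≤ 0)
    (hE : S + (1 / 2) * Q ≤ 2 * a1 + 4 * τ) : False := by
  have ha1 : 0 < a1 := by
    by_contra hcon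
    push Not at hcon
    nlinarith
  have key : c * (c - 3) * a1 + ((c - 2) * a2 - 4 * τ) + ε * (2 * c - 3) * a2 +
      ε * (1 + ε) * a3 ≤ 0 := by nlinarith
  have h3 : 0 ≤ ε * (1 + ε) * a3 := by positivity
  have h4 : 0 ≤ ε * (2 * c - 3) * a2 := by
    have : 0 ≤ 2 * c - 3 := by linarith
    positivity
  have hc3 : 3 ≤ c := by linarith
  have hcc : 0 ≤ c * (c - 3) * a1 := by
    have : 0 ≤ c - 3 := by linarith
    positivity
  -- `C > 3`
  have hC3' : 3 < C := by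
    rcases hC3.lt_or_eq with h | h
    · exact h
    · rw [← h] at hCn; nlinarith
  have hpos : 0 < c * (c - 3) * a1 := by
    have : 0 < c - 3 := by linarith
    positivity
  rcases le_or_gt 4 c with h5 | h5
  · have : 0 ≤ (c - 2) * a2 - 4 * τ := by nlinarith
    linarith
  rcases le_or_gt τ 0 with h6 | h6
  · have : 0 ≤ (c - 2) * a2 - 4 * τ := by nlinarith
    linarith
  -- `c < 4`, `τ > 0`
  have ha2' : 0 < a2 := by linarith
  have h7 : -(2 * (4 - c)) ≤ (c - 2) * a2 - 4 * τ := by nlinarith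
  have h8 : 0 < ε * (2 * c - 3) * a2 := by
    have : 0 < 2 * c - 3 := by linarith
    positivity
  have h9 : c * (c - 3) * a1 < 2 * (4 - c) := by linarith
  have h10 : 4 * (c * (c - 3)) ≤ n * (c * (c - 3) * a1) := by
    have : 0 ≤ c * (c - 3) := by nlinarith
    nlinarith
  have h11 : n * (c * (c - 3) * a1) < n * (2 * (4 - c)) :=
    mul_lt_mul_of_pos_left h9 (by linarith)
  have h12 : n * (4 - c) ≤ n * (4 - C) := mul_le_mul_of_nonneg_left (by linarith) (by linarith)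
  have h13 : 2 * C * (C - 3) ≤ 2 * c * (c - 3) := by nlinarith
  nlinarith

theorem mainC {C : ℝ} (hC3 : 3 ≤ C) (hCn : (n : ℝ) * (4 - C) ≤ 2 * C * (C - 3))
    {N P : Fin m → Mat n} (h : Bal N P) {ψ : Fk n} (hψ : ‖ψ‖ = 1) :
    ∑ i, ‖rho (N i) ψ‖ ^ 2 - ∑ j, ‖rho (P j) ψ‖ ^ 2 ≤ C * ∑ i, ip (N i) (N i) := by
  by_contra hcon
  push Not at hcon
  obtain ⟨c, ε, N, P, p, ψ, hc, hε, hcr⟩ := exists_crit (by linarith) h hψ hcon
  have hsN := hcr.bal.skN
  have hsP := hcr.bal.skP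
  have hn : 1 ≤ (n : ℝ) := by
    rcases Nat.eq_zero_or_pos n with h0 | h0
    · exfalso
      subst h0
      have := hcr.trN
      simp [ip] at this
    · exact_mod_cast h0
  have hXN := X1_symm hsN
  have hXP := X1_symm hsP
  have htr := X1_trace hsN
  rw [hcr.trN] at htr
  have h1 := trace_sq_le (X1 N) hXN
  rw [htr] at h1
  have hcomm : (X1 P * X1 N).trace = (X1 N * X1 P).trace := Matrix.trace_mul_comm _ _
  have ho := crit_orth hcr (by linarith) hε
  have hst := star0 hcr ((c - 1) • X1 N + (1 + ε) • X1 P) rfl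
  have e1 : (((c - 1) • X1 N + (1 + ε) • X1 P) * ((c - 1) • X1 N + (1 + ε) • X1 P)).trace =
      (c - 1) * ((c - 1) * (X1 N * X1 N).trace + (1 + ε) * (X1 N * X1 P).trace) +
      (1 + ε) * ((c - 1) * (X1 N * X1 P).trace + (1 + ε) * (X1 P * X1 P).trace) := by
    simp only [Matrix.add_mul, Matrix.mul_add, Matrix.smul_mul, Matrix.mul_smul, Matrix.trace_add,
      Matrix.trace_smul, smul_eq_mul, hcomm]
  have e2 : ((X1 N - X1 P) * ((c - 1) • X1 N + (1 + ε) • X1 P)).trace =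
      ((c - 1) * (X1 N * X1 N).trace + (1 + ε) * (X1 N * X1 P).trace) -
      ((c - 1) * (X1 N * X1 P).trace + (1 + ε) * (X1 P * X1 P).trace) := by
    simp only [Matrix.sub_mul, Matrix.mul_add, Matrix.mul_smul, Matrix.trace_add,
      Matrix.trace_sub, Matrix.trace_smul, smul_eq_mul, hcomm]
    ring
  rw [e1, e2] at hst
  have hτ := tau_le hsN
  rw [hcr.trN] at hτ
  exact arith hn hC3 hCn hc hε (X1_mul_nonneg hsN hsP) (X1_mul_nonneg hsP hsP)
    (by linarith)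
    (show 0 ≤ SS ψ N P from Finset.sum_nonneg fun i _ => Finset.sum_nonneg fun j _ => sq_nonneg _)
    (show 0 ≤ QQ ψ P P from Finset.sum_nonneg fun i _ => Finset.sum_nonneg fun j _ => sq_nonneg _)
    (geo hcr.bal ho) (by linarith) (hform_sum hcr) hst (Eineq hsN hcr.deg hcr.norm)

end HopfQ4
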