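import Pool.Agent.Lib.MP_4a593f_gt.Q4.Defs

/-! Task Cl: commutators of `hopB`, `hop`, `Ss`.

`wdg L` and `ctr L` are adjoint to each other, `rho S` is symmetric for symmetric `S`.
`hopB_hop`: `[hopB L, hop M] = [ctr L, wdg M] + [ctr M, wdg L]` and
`[ctr L, wdg M] = ⟨L,M⟩ + (1/2) ρ_{LM+ML} + (1/2)(±) ρ_{[L,M]}` (the last part cancels), where
`⟨L,M⟩ = -(1/2) tr (LM)`.  For symmetric `S`: `[ρ_S, wdg L] = wdg (SL+LS)`,
`[ρ_S, ctr L] = -ctr (SL+LS)`.
All identities were checked numerically.  Compare `N2/Q1.lean` (`hop_lie1`, `hop_lie2`): the private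
lemmas there (Leibniz rule `Q1S_leibniz`, CAR) can be copied. -/

open scoped BigOperators

namespace HopfQ4

open HopfBig HopfN2

variable {n : ℕ}

private theorem Cl_wdg_apply (L : Mat n) (f : Fk n) :
    wdg L f = (1 / 2 : ℝ) • ∑ a, ∑ b, L a b • cr a (cr b f) := by
  simp only [wdg, LinearMap.coe_mk, AddHom.coe_mk, LinearMap.smul_apply,
    LinearMap.sum_apply, LinearMap.comp_apply]

private theorem Cl_ctr_apply (L : Mat n) (f : Fk n) :
    ctr L f = (1 / 2 : ℝ) • ∑ a, ∑ b, L a b • an b (an a f) := by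
  simp only [ctr, LinearMap.coe_mk, AddHom.coe_mk, LinearMap.smul_apply,
    LinearMap.sum_apply, LinearMap.comp_apply]

private theorem Cl_adj (L : Mat n) (f g : Fk n) :
    inner ℝ (wdg L f) g = inner ℝ f (ctr L g) := by
  rw [Cl_wdg_apply, Cl_ctr_apply]
  simp only [sum_inner, inner_sum, real_inner_smul_left, real_inner_smul_right]
  refine congrArg _ ?_
  refine Finset.sum_congr rfl fun a _ => Finset.sum_congr rfl fun b _ => ?_
  rw [inner_cr, inner_cr]

section alg

variable {A : Type*} [Ring A] [Algebra ℝ A]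

/-- `∑ M_ab u_a v_b` -/
private noncomputable def ClS (M : Mat n) (u v : Fin n → A) : A := ∑ a, ∑ b, M a b • (u a * v b)

private theorem ClS_add (M N : Mat n) (u v : Fin n → A) :
    ClS (M + N) u v = ClS M u v + ClS N u v := by
  unfold ClS
  simp only [Matrix.add_apply, add_smul, Finset.sum_add_distrib]

private theorem ClS_neg (M : Mat n) (u v : Fin n → A) :
    ClS (-M) u v = -ClS M u v := by
  unfold ClS
  simp only [Matrix.neg_apply, neg_smul, Finset.sum_neg_distrib]

private theorem ClS_sub (M N : Mat n) (u v : Fin n → A) :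
    ClS (M - N) u v = ClS M u v - ClS N u v := by
  rw [sub_eq_add_neg, ClS_add, ClS_neg, ← sub_eq_add_neg]

/-- Leibniz rule -/
private theorem ClS_leibniz (X : A) (L M : Mat n) (u v u' v' : Fin n → A)
    (hu : ∀ a, X * u a - u a * X = ∑ d, L d a • u' d)
    (hv : ∀ b, X * v b - v b * X = ∑ d, L d b • v' d) :
    X * ClS M u v - ClS M u v * X = ClS (L * M) u' v + ClS (M * L.transpose) u v' := by
  have h1 : X * ClS M u v - ClS M u v * X =
      ∑ a, ∑ b, M a b • ((X * u a - u a * X) * v b + u a * (X * v b - v b * X)) := by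
    unfold ClS
    simp only [Finset.mul_sum, Finset.sum_mul, ← Finset.sum_sub_distrib]
    refine Finset.sum_congr rfl fun a _ => Finset.sum_congr rfl fun b _ => ?_
    rw [mul_smul_comm, smul_mul_assoc, ← smul_sub]
    congr 1
    noncomm_ring
  rw [h1]
  simp only [hu, hv, smul_add, Finset.sum_add_distrib]
  congr 1
  · unfold ClS
    simp only [Finset.sum_mul, Finset.smul_sum, smul_mul_assoc, smul_smul, Matrix.mul_apply,
      Finset.sum_smul]
    have e1 : ∑ a, ∑ b, ∑ d, (M a b * L d a) • (u' d * v b) =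
        ∑ a, ∑ d, ∑ b, (M a b * L d a) • (u' d * v b) :=
      Finset.sum_congr rfl fun a _ => Finset.sum_comm
    rw [e1, Finset.sum_comm]
    refine Finset.sum_congr rfl fun d _ => ?_
    rw [Finset.sum_comm]
    refine Finset.sum_congr rfl fun b _ => Finset.sum_congr rfl fun a _ => ?_
    rw [mul_comm]
  · unfold ClS
    simp only [Finset.mul_sum, Finset.smul_sum, mul_smul_comm, smul_smul, Matrix.mul_apply,
      Finset.sum_smul, Matrix.transpose_apply]
    refine Finset.sum_congr rfl fun a _ => ?_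
    rw [Finset.sum_comm]

private theorem ClS_anti (M : Mat n) (u v : Fin n → A) (h : ∀ a b, u a * v b = -(v b * u a)) :
    ClS M u v = -ClS M.transpose v u := by
  unfold ClS
  rw [Finset.sum_comm, ← Finset.sum_neg_distrib]
  refine Finset.sum_congr rfl fun a _ => ?_
  rw [← Finset.sum_neg_distrib]
  refine Finset.sum_congr rfl fun b _ => ?_
  rw [h, smul_neg, Matrix.transpose_apply]

private theorem ClS_car (M : Mat n) (u v : Fin n → A)
    (h : ∀ a b, u a * v b = (if a = b then 1 else 0) - v b * u a) :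
    ClS M u v = M.trace • (1 : A) - ClS M.transpose v u := by
  have h1 : ClS M u v = ∑ a, ∑ b, M a b • (if a = b then (1 : A) else 0) -
      ∑ a, ∑ b, M a b • (v b * u a) := by
    unfold ClS
    simp only [← Finset.sum_sub_distrib]
    refine Finset.sum_congr rfl fun a _ => Finset.sum_congr rfl fun b _ => ?_
    rw [h, smul_sub]
  rw [h1]
  congr 1
  · simp only [smul_ite, smul_zero, Finset.sum_ite_eq, Finset.mem_univ, if_true]
    rw [← Finset.sum_smul]
    rfl
  · unfold ClS
    rw [Finset.sum_comm]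
    rfl

end alg

/-- operators as a ring -/
private noncomputable def Clc (a : Fin n) : Module.End ℝ (Fk n) := an a
private noncomputable def Cld (a : Fin n) : Module.End ℝ (Fk n) := cr a

private theorem Cl_cc (a b : Fin n) : Clc a * Clc b = -(Clc b * Clc a) :=
  LinearMap.ext fun f => an_an a b f

private theorem Cl_dd (a b : Fin n) : Cld a * Cld b = -(Cld b * Cld a) :=
  LinearMap.ext fun f => cr_cr a b f

private theorem Cl_cd (a b : Fin n) :
    Clc a * Cld b = (if a = b then 1 else 0) - Cld b * Clc a := by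
  refine LinearMap.ext fun f => ?_
  have h := an_cr a b f
  change an a (cr b f) = _
  rw [h]
  by_cases hab : a = b
  · rw [if_pos hab, if_pos hab]
    rfl
  · rw [if_neg hab, if_neg hab]
    rfl

private theorem Cl_rho (L : Mat n) : (rho L : Module.End ℝ (Fk n)) = ClS L Cld Clc := rfl
private theorem Cl_wdg (L : Mat n) :
    (wdg L : Module.End ℝ (Fk n)) = (1 / 2 : ℝ) • ClS L Cld Cld := rfl
private theorem Cl_ctr (L : Mat n) :
    (ctr L : Module.End ℝ (Fk n)) = (1 / 2 : ℝ) • ClS L.transpose Clc Clc := by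
  have h : (ctr L : Module.End ℝ (Fk n)) =
    (1 / 2 : ℝ) • ∑ a, ∑ b, L a b • (Clc b * Clc a) := rfl
  rw [h, Finset.sum_comm]
  rfl

private theorem Cl_skew_tr {L : Mat n} (hL : Skew L) : L.transpose = -L := by
  ext i j
  rw [Matrix.transpose_apply, Matrix.neg_apply, hL i j]

/-- `[∑ L_ab u_a v_b, w_c]` -/
private theorem Cl_comm {A : Type*} [Ring A] [Algebra ℝ A] (L : Mat n) (u v : Fin n → A)
    (w : A) (α β : Fin n → ℝ) (hu : ∀ a, u a * w = α a • (1 : A) - w * u a)
    (hv : ∀ a, v a * w = β a • (1 : A) - w * v a) :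
    ClS L u v * w - w * ClS L u v = ∑ a, (∑ b, L a b * β b) • u a -
      ∑ b, (∑ a, L a b * α a) • v b := by
  have h1 : ClS L u v * w - w * ClS L u v =
      ∑ a, ∑ b, ((L a b * β b) • u a - (L a b * α a) • v b) := by
    unfold ClS
    simp only [Finset.mul_sum, Finset.sum_mul, ← Finset.sum_sub_distrib]
    refine Finset.sum_congr rfl fun a _ => Finset.sum_congr rfl fun b _ => ?_
    rw [mul_smul_comm, smul_mul_assoc, ← smul_sub, mul_smul, mul_smul, ← smul_sub]
    congr 1
    have e1 : u a * v b * w = u a * (β b • (1 : A) - w * v b) := by rw [mul_assoc, hv]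
    have e2 : u a * (w * v b) = (α a • (1 : A) - w * u a) * v b := by rw [← mul_assoc, hu]
    rw [e1, mul_sub, e2, sub_mul, mul_smul_comm, smul_mul_assoc, mul_one, one_mul, mul_assoc]
    abel
  rw [h1]
  simp only [Finset.sum_sub_distrib, ← Finset.sum_smul]
  rw [Finset.sum_comm (f := fun a b => (L a b * α a) • v b)]
  simp only [← Finset.sum_smul]

private theorem Cl_ite (a b : Fin n) :
    (if a = b then (1 : Module.End ℝ (Fk n)) else 0) =
      (if a = b then (1 : ℝ) else 0) • (1 : Module.End ℝ (Fk n)) := by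
  split_ifs
  · rw [one_smul]
  · rw [zero_smul]

private theorem Cl_r1 (c a : Fin n) :
    Cld a * Cld c = (0 : ℝ) • (1 : Module.End ℝ (Fk n)) - Cld c * Cld a := by
  rw [zero_smul, zero_sub, Cl_dd]

private theorem Cl_r2 (c a : Fin n) :
    Clc a * Clc c = (0 : ℝ) • (1 : Module.End ℝ (Fk n)) - Clc c * Clc a := by
  rw [zero_smul, zero_sub, Cl_cc]

private theorem Cl_r3 (c a : Fin n) :
    Clc a * Cld c = (if a = c then (1 : ℝ) else 0) • (1 : Module.End ℝ (Fk n)) -
      Cld c * Clc a := by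
  rw [← Cl_ite, Cl_cd]

private theorem Cl_r4 (c a : Fin n) :
    Cld a * Clc c = (if a = c then (1 : ℝ) else 0) • (1 : Module.End ℝ (Fk n)) -
      Clc c * Cld a := by
  have h := Cl_cd c a
  rw [h, ← Cl_ite]
  have e : (if a = c then (1 : Module.End ℝ (Fk n)) else 0) = if c = a then 1 else 0 := by
    simp only [eq_comm]
  rw [e]
  abel

private theorem Cl_rho_d {L : Mat n} (_hL : Skew L) (c : Fin n) :
    (rho L : Module.End ℝ (Fk n)) * Cld c - Cld c * rho L = ∑ a, L a c • Cld a := by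
  rw [Cl_rho, Cl_comm L Cld Clc (Cld c) _ _ (Cl_r1 c) (Cl_r3 c)]
  simp

private theorem Cl_rho_c {L : Mat n} (hL : Skew L) (c : Fin n) :
    (rho L : Module.End ℝ (Fk n)) * Clc c - Clc c * rho L = ∑ a, L a c • Clc a := by
  rw [Cl_rho, Cl_comm L Cld Clc (Clc c) _ _ (Cl_r4 c) (Cl_r2 c)]
  simp only [mul_zero, Finset.sum_const_zero, zero_smul, mul_ite, mul_one, Finset.sum_ite_eq',
    Finset.mem_univ, if_true, zero_sub]
  rw [← Finset.sum_neg_distrib]
  refine Finset.sum_congr rfl fun b _ => ?_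
  rw [hL b c, neg_smul, neg_neg]

private theorem Cl_wdg_d (L : Mat n) (c : Fin n) :
    (wdg L : Module.End ℝ (Fk n)) * Cld c - Cld c * wdg L = 0 := by
  have h := Cl_comm L Cld Cld (Cld c) _ _ (Cl_r1 c) (Cl_r1 c)
  rw [Cl_wdg, smul_mul_assoc, mul_smul_comm, ← smul_sub, h]
  simp

private theorem Cl_wdg_c {L : Mat n} (hL : Skew L) (c : Fin n) :
    (wdg L : Module.End ℝ (Fk n)) * Clc c - Clc c * wdg L = ∑ a, L a c • Cld a := by
  have h := Cl_comm L Cld Cld (Clc c) _ _ (Cl_r4 c) (Cl_r4 c)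
  rw [Cl_wdg, smul_mul_assoc, mul_smul_comm, ← smul_sub, h]
  simp only [mul_ite, mul_one, mul_zero, Finset.sum_ite_eq', Finset.mem_univ, if_true]
  rw [← Finset.sum_sub_distrib, Finset.smul_sum]
  refine Finset.sum_congr rfl fun b _ => ?_
  rw [hL b c, neg_smul, sub_neg_eq_add, ← two_smul ℝ, smul_smul]
  norm_num

private theorem Cl_ctr_c (L : Mat n) (c : Fin n) :
    (ctr L : Module.End ℝ (Fk n)) * Clc c - Clc c * ctr L = 0 := by
  have h := Cl_comm L.transpose Clc Clc (Clc c) _ _ (Cl_r2 c) (Cl_r2 c)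
  rw [Cl_ctr, smul_mul_assoc, mul_smul_comm, ← smul_sub, h]
  simp

private theorem Cl_ctr_d {L : Mat n} (hL : Skew L) (c : Fin n) :
    (ctr L : Module.End ℝ (Fk n)) * Cld c - Cld c * ctr L = -∑ a, L a c • Clc a := by
  have h := Cl_comm L.transpose Clc Clc (Cld c) _ _ (Cl_r3 c) (Cl_r3 c)
  rw [Cl_ctr, smul_mul_assoc, mul_smul_comm, ← smul_sub, h]
  simp only [mul_ite, mul_one, mul_zero, Finset.sum_ite_eq', Finset.mem_univ, if_true,
    Matrix.transpose_apply]
  rw [← Finset.sum_sub_distrib, Finset.smul_sum, ← Finset.sum_neg_distrib]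
  refine Finset.sum_congr rfl fun b _ => ?_
  rw [hL b c, neg_smul, ← neg_add', ← two_smul ℝ, smul_neg, smul_smul]
  norm_num


private theorem Cl_rho_d' (S : Mat n) (c : Fin n) :
    (rho S : Module.End ℝ (Fk n)) * Cld c - Cld c * rho S = ∑ a, S a c • Cld a := by
  rw [Cl_rho, Cl_comm S Cld Clc (Cld c) _ _ (Cl_r1 c) (Cl_r3 c)]
  simp

private theorem Cl_rho_c' {S : Mat n} (hS : S.transpose = S) (c : Fin n) :
    (rho S : Module.End ℝ (Fk n)) * Clc c - Clc c * rho S = ∑ a, (-S) a c • Clc a := by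
  rw [Cl_rho, Cl_comm S Cld Clc (Clc c) _ _ (Cl_r4 c) (Cl_r2 c)]
  simp only [mul_zero, Finset.sum_const_zero, zero_smul, mul_ite, mul_one, Finset.sum_ite_eq',
    Finset.mem_univ, if_true, zero_sub]
  rw [← Finset.sum_neg_distrib]
  refine Finset.sum_congr rfl fun b _ => ?_
  have h : S c b = S b c := by
    conv_lhs => rw [← hS]
    rfl
  rw [h, Matrix.neg_apply, neg_smul]

private theorem Cl_hopB_d {L : Mat n} (hL : Skew L) (c : Fin n) :
    (hopB L : Module.End ℝ (Fk n)) * Cld c - Cld c * hopB L = ∑ a, (-L) a c • Clc a := by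
  have h : (hopB L : Module.End ℝ (Fk n)) * Cld c - Cld c * hopB L =
      ((wdg L : Module.End ℝ (Fk n)) * Cld c - Cld c * wdg L) +
      ((ctr L : Module.End ℝ (Fk n)) * Cld c - Cld c * ctr L) := by
    unfold hopB
    rw [add_mul, mul_add]
    abel
  rw [h, Cl_wdg_d, Cl_ctr_d hL, zero_add, ← Finset.sum_neg_distrib]
  refine Finset.sum_congr rfl fun b _ => ?_
  rw [Matrix.neg_apply, neg_smul]

private theorem Cl_hopB_c {L : Mat n} (hL : Skew L) (c : Fin n) :
    (hopB L : Module.End ℝ (Fk n)) * Clc c - Clc c * hopB L = ∑ a, L a c • Cld a := by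
  have h : (hopB L : Module.End ℝ (Fk n)) * Clc c - Clc c * hopB L =
      ((wdg L : Module.End ℝ (Fk n)) * Clc c - Clc c * wdg L) +
      ((ctr L : Module.End ℝ (Fk n)) * Clc c - Clc c * ctr L) := by
    unfold hopB
    rw [add_mul, mul_add]
    abel
  rw [h, Cl_wdg_c hL, Cl_ctr_c, add_zero]

private theorem Cl_rho_wdg {S L : Mat n} (hS : S.transpose = S) :
    (rho S : Module.End ℝ (Fk n)) * wdg L - wdg L * rho S = wdg (ac S L) := by
  have h1 := ClS_leibniz (rho S : Module.End ℝ (Fk n)) S L Cld Cld Cld Cld (Cl_rho_d' S)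
    (Cl_rho_d' S)
  rw [Cl_wdg, Cl_wdg, mul_smul_comm, smul_mul_assoc, ← smul_sub, h1, ← ClS_add, hS]
  rfl

private theorem Cl_rho_ctr {S L : Mat n} (hS : S.transpose = S) :
    (rho S : Module.End ℝ (Fk n)) * ctr L - ctr L * rho S = -ctr (ac S L) := by
  have h1 := ClS_leibniz (rho S : Module.End ℝ (Fk n)) (-S) L.transpose Clc Clc Clc Clc
    (Cl_rho_c' hS) (Cl_rho_c' hS)
  rw [Cl_ctr, Cl_ctr, mul_smul_comm, smul_mul_assoc, ← smul_sub, h1, ← ClS_add]
  have e : -S * L.transpose + L.transpose * (-S).transpose = -(ac S L).transpose := by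
    unfold ac
    rw [Matrix.transpose_neg, Matrix.transpose_add, Matrix.transpose_mul, Matrix.transpose_mul,
      hS]
    simp only [Matrix.mul_neg, Matrix.neg_mul]
    abel
  rw [e, ClS_neg, smul_neg]

theorem hopB_symm (L : Mat n) (f g : Fk n) : inner ℝ (hopB L f) g = inner ℝ f (hopB L g) := by
  have h1 := Cl_adj L f g
  have h2 := Cl_adj L g f
  rw [real_inner_comm, real_inner_comm (ctr L f)] at h2
  have e : ∀ x : Fk n, hopB L x = wdg L x + ctr L x := fun x => rfl
  rw [e, e, inner_add_left, inner_add_right, h1, h2]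
  ring

theorem Ss_symm {S : Mat n} (hS : S.transpose = S) (f g : Fk n) :
    inner ℝ (Ss S f) g = inner ℝ f (Ss S g) := by
  have h1 : inner ℝ (rho S f) g = inner ℝ f (rho S g) := by
    rw [rho_apply, rho_apply]
    simp only [sum_inner, inner_sum, real_inner_smul_left, real_inner_smul_right]
    rw [Finset.sum_comm]
    refine Finset.sum_congr rfl fun a _ => ?_
    refine Finset.sum_congr rfl fun b _ => ?_
    have h : S b a = S a b := by
      conv_lhs => rw [← hS]
      rfl
    rw [inner_cr, inner_an, h]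
  have e : ∀ x : Fk n, Ss S x = rho S x - (S.trace / 2) • x := fun x => rfl
  rw [e, e, inner_sub_left, inner_sub_right, real_inner_smul_left, real_inner_smul_right, h1]

private theorem Cl_hopB_hop {L M : Mat n} (hL : Skew L) (hM : Skew M) :
    (hopB L : Module.End ℝ (Fk n)) * hop M - hop M * hopB L = Ss (ac L M) := by
  have hL' := Cl_skew_tr hL
  have hM' := Cl_skew_tr hM
  have h1 := ClS_leibniz (hopB L : Module.End ℝ (Fk n)) (-L) M Cld Cld Clc Clc (Cl_hopB_d hL)
    (Cl_hopB_d hL)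
  have h2 := ClS_leibniz (hopB L : Module.End ℝ (Fk n)) L M.transpose Clc Clc Cld Cld
    (Cl_hopB_c hL) (Cl_hopB_c hL)
  have e1 : (hopB L : Module.End ℝ (Fk n)) * hop M - hop M * hopB L =
      (1 / 2 : ℝ) • ((hopB L : Module.End ℝ (Fk n)) * ClS M Cld Cld - ClS M Cld Cld * hopB L) -
      (1 / 2 : ℝ) • ((hopB L : Module.End ℝ (Fk n)) * ClS M.transpose Clc Clc -
        ClS M.transpose Clc Clc * hopB L) := by
    have e0 : (hop M : Module.End ℝ (Fk n)) =
        (1 / 2 : ℝ) • ClS M Cld Cld - (1 / 2 : ℝ) • ClS M.transpose Clc Clc := by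
      rw [← Cl_wdg, ← Cl_ctr]
      rfl
    rw [e0, mul_sub, sub_mul, mul_smul_comm, mul_smul_comm, smul_mul_assoc,
      smul_mul_assoc, smul_sub, smul_sub]
    abel
  have k1 : ClS (L * M) Clc Cld =
      (L * M).trace • (1 : Module.End ℝ (Fk n)) - ClS (M * L) Cld Clc := by
    rw [ClS_car _ _ _ Cl_cd, Matrix.transpose_mul, hL', hM', Matrix.neg_mul, Matrix.mul_neg,
      neg_neg]
  have k2 : ClS (M * L) Clc Cld =
      (M * L).trace • (1 : Module.End ℝ (Fk n)) - ClS (L * M) Cld Clc := by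
    rw [ClS_car _ _ _ Cl_cd, Matrix.transpose_mul, hL', hM', Matrix.neg_mul, Matrix.mul_neg,
      neg_neg]
  have m1 : M * (-L).transpose = M * L := by
    rw [Matrix.transpose_neg, hL', neg_neg]
  have m2 : L * M.transpose = -(L * M) := by rw [hM', Matrix.mul_neg]
  have m3 : M.transpose * L.transpose = M * L := by
    rw [hM', hL', Matrix.mul_neg, Matrix.neg_mul, neg_neg]
  have m4 : -L * M = -(L * M) := Matrix.neg_mul L M
  rw [e1, h1, h2, m1, m2, m3, m4, ClS_neg, ClS_neg, k1, k2]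
  have hSs : (Ss (ac L M) : Module.End ℝ (Fk n)) =
      ClS (L * M) Cld Clc + ClS (M * L) Cld Clc -
        (((L * M).trace + (M * L).trace) / 2) • (1 : Module.End ℝ (Fk n)) := by
    rw [← ClS_add, ← Matrix.trace_add]
    rfl
  rw [hSs]
  have k3 : ∀ (x y u : Module.End ℝ (Fk n)) (s t : ℝ),
      (1 / 2 : ℝ) • (-(s • u - y) + y) - (1 / 2 : ℝ) • (-x + (t • u - x)) =
        x + y - ((s + t) / 2) • u := by
    intro x y u s t
    module
  exact k3 _ _ _ _ _

theorem hopB_hop {L M : Mat n} (hL : Skew L) (hM : Skew M) (f : Fk n) :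
    hopB L (hop M f) - hop M (hopB L f) = Ss (ac L M) f := by
  have h := Cl_hopB_hop hL hM
  exact congrArg (fun T : Module.End ℝ (Fk n) => T f) h

theorem Ss_hop {S L : Mat n} (hS : S.transpose = S) (hL : Skew L) (f : Fk n) :
    Ss S (hop L f) - hop L (Ss S f) = hopB (ac S L) f := by
  have _ := hL
  have h1 := congrArg (fun T : Module.End ℝ (Fk n) => T f) (Cl_rho_wdg (L := L) hS)
  have h2 := congrArg (fun T : Module.End ℝ (Fk n) => T f) (Cl_rho_ctr (L := L) hS)
  change rho S (wdg L f) - wdg L (rho S f) = wdg (ac S L) f at h1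
  change rho S (ctr L f) - ctr L (rho S f) = -ctr (ac S L) f at h2
  have e : ∀ x : Fk n, Ss S x = rho S x - (S.trace / 2) • x := fun x => rfl
  have e2 : ∀ x : Fk n, hop L x = wdg L x - ctr L x := fun x => rfl
  have e3 : hopB (ac S L) f = wdg (ac S L) f + ctr (ac S L) f := rfl
  rw [e3, ← h1, ← neg_neg (ctr (ac S L) f), ← h2, e, e, map_sub, map_smul, e2, e2, map_sub]
  abel

theorem Ss_hopB {S L : Mat n} (hS : S.transpose = S) (hL : Skew L) (f : Fk n) :
    Ss S (hopB L f) - hopB L (Ss S f) = hop (ac S L) f := by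
  have _ := hL
  have h1 := congrArg (fun T : Module.End ℝ (Fk n) => T f) (Cl_rho_wdg (L := L) hS)
  have h2 := congrArg (fun T : Module.End ℝ (Fk n) => T f) (Cl_rho_ctr (L := L) hS)
  change rho S (wdg L f) - wdg L (rho S f) = wdg (ac S L) f at h1
  change rho S (ctr L f) - ctr L (rho S f) = -ctr (ac S L) f at h2
  have e : ∀ x : Fk n, Ss S x = rho S x - (S.trace / 2) • x := fun x => rfl
  have e2 : ∀ x : Fk n, hopB L x = wdg L x + ctr L x := fun x => rfl
  have e3 : hop (ac S L) f = wdg (ac S L) f - ctr (ac S L) f := rfl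
  rw [e3, ← h1, ← neg_neg (ctr (ac S L) f), ← h2, e, e, map_sub, map_smul, e2, e2, map_add]
  abel

end HopfQ4
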