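import Pool.Agent.Lib.MP_4a593f_gt.Q4.Kpos
import Pool.Agent.Lib.MP_4a593f_gt.N2.Z4

/-! `(n-1)`-positive curvature operators for `n ≥ 18`: positive Weitzenböck terms in degrees
`p ≠ 2, 4`; the curvature tensor of `S¹ × Sⁿ⁻¹` is `n`-positive. -/

open scoped BigOperators

namespace HopfQ4

open HopfBig

theorem sharp_pos {n : ℕ} (hn : 18 ≤ n) {p : ℕ} (hp : 1 ≤ p) (hp2 : p ≠ 2) (hp4 : p ≠ 4)
    (h2p : 2 * p ≤ n) {R : Fin n → Fin n → Fin n → Fin n → ℝ} (hR : IsCurvature R)
    (hKP : KPositive R (n - 1)) {φ : (Fin p → Fin n) → ℝ} (hφ : IsForm φ) (h0 : φ ≠ 0) :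
    0 < bochner R φ := by
  have hc : ((n - 1 : ℕ) : ℝ) = (n : ℝ) - 1 := by
    rw [Nat.cast_sub (by omega)]
    norm_num
  have hnr : (18 : ℝ) ≤ n := by exact_mod_cast hn
  rcases Nat.lt_or_ge p 5 with h5 | h5
  · rcases Nat.lt_or_ge p 2 with h2 | h2
    · have h1 : p = 1 := by omega
      subst h1
      refine HopfN2.bochner_pos (C := ((1 : ℕ) : ℝ)) le_rfl (by norm_num) ?_ ?_ hR hKP ?_ hφ h0
      · rw [hc]
        push_cast
        linarith
      · rw [Nat.le_div_iff_mul_le (by norm_num)]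
        have : 2 * (n - 1) ≤ n * (n - 1) := Nat.mul_le_mul_right _ (by omega)
        omega
      · intro m X P N _ hP hN _
        exact core_trivial X P N hP hN
    · have h3 : p = 3 := by omega
      subst h3
      refine HopfN2.three_deg (by omega) ?_ hR hKP hφ h0
      rw [hc]
      linarith
  · have hpr : (5 : ℝ) ≤ p := by exact_mod_cast h5
    have hnp : 2 * (p : ℝ) ≤ n := by exact_mod_cast h2p
    have hpp : 5 * ((n : ℝ) - 5) ≤ p * ((n : ℝ) - p) := by nlinarith
    rcases Nat.lt_or_ge n 21 with h21 | h21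
    · have hn21 : (n : ℝ) ≤ 20 := by exact_mod_cast (by omega : n ≤ 20)
      refine main_kpos (C := 19 / 5) (by norm_num) (by linarith) ?_ hR hKP hφ h0
      rw [hc]
      linarith
    · have hn21 : (21 : ℝ) ≤ n := by exact_mod_cast h21
      refine main_kpos (C := 4) (by norm_num) (by linarith) ?_ hR hKP hφ h0
      rw [hc]
      linarith

/-- the curvature tensor of `S¹ × Sᵐ` -/
private def cu {m : ℕ} (i : Fin (m + 1)) : ℝ := if i = 0 then 0 else 1

private def cd {m : ℕ} (i k : Fin (m + 1)) : ℝ := if i = k then cu i else 0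

private def cyl (m : ℕ) (i j k l : Fin (m + 1)) : ℝ := cd i k * cd j l - cd i l * cd j k

private theorem cd_symm {m : ℕ} (i k : Fin (m + 1)) : cd i k = cd k i := by
  unfold cd
  by_cases h : i = k
  · subst h; simp
  · rw [if_neg h, if_neg (Ne.symm h)]

private theorem cyl_curv (m : ℕ) : IsCurvature (cyl m) := by
  refine ⟨?_, ?_, ?_⟩
  · intro i j k l
    unfold cyl
    ring
  · intro i j k l
    unfold cyl
    ring
  · intro i j k l
    unfold cyl
    rw [cd_symm j i, cd_symm k i, cd_symm k j]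
    ring

private theorem cd_sum {m : ℕ} (i : Fin (m + 1)) (f : Fin (m + 1) → ℝ) :
    ∑ k, cd i k * f k = cu i * f i := by
  rw [Finset.sum_eq_single i]
  · simp [cd]
  · intro k _ hk
    simp [cd, Ne.symm hk]
  · simp


private theorem cyl_inner {m : ℕ} (i j : Fin (m + 1)) {α : Fin (m + 1) → Fin (m + 1) → ℝ}
    (hα : IsTwoForm α) :
    ∑ k, ∑ l, cyl m i j k l * α i j * α k l = 2 * (cu i * cu j * α i j ^ 2) := by
  have h1 : ∀ k, ∑ l, cyl m i j k l * α i j * α k l =
      cd i k * (α i j * (cu j * α k j)) - cd j k * (α i j * (cu i * α k i)) := by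
    intro k
    rw [← cd_sum j fun l => α k l, ← cd_sum i fun l => α k l]
    simp only [Finset.mul_sum, ← Finset.sum_sub_distrib]
    refine Finset.sum_congr rfl fun l _ => ?_
    unfold cyl
    ring
  rw [Finset.sum_congr rfl fun k _ => h1 k, Finset.sum_sub_distrib, cd_sum i, cd_sum j,
    hα i j]
  ring

private theorem cyl_op {m : ℕ} {α : Fin (m + 1) → Fin (m + 1) → ℝ} (hα : IsTwoForm α) :
    curvOp (cyl m) α = inner2 α α - ∑ j, α 0 j ^ 2 := by
  have h00 : α 0 0 = 0 := by have := hα 0 0; linarith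
  have h1 : curvOp (cyl m) α = (1 / 2) * ∑ i, ∑ j, cu i * cu j * α i j ^ 2 := by
    unfold curvOp
    rw [Finset.sum_congr rfl fun i _ => Finset.sum_congr rfl fun j _ => cyl_inner i j hα]
    simp only [← Finset.mul_sum]
    ring
  have h2 : inner2 α α = (1 / 2) * ∑ i, ∑ j, α i j ^ 2 := by
    unfold inner2
    simp only [sq]
  have h3 : ∑ i, ∑ j, cu i * cu j * α i j ^ 2 = ∑ i, ∑ j, α i j ^ 2 - 2 * ∑ j, α 0 j ^ 2 := by
    rw [Fin.sum_univ_succ, Fin.sum_univ_succ (f := fun i => ∑ j, α i j ^ 2)]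
    have h4 : ∑ j, cu (0 : Fin (m + 1)) * cu j * α 0 j ^ 2 = 0 := by
      refine Finset.sum_eq_zero fun j _ => ?_
      simp [cu]
    have h5 : ∀ i : Fin m, ∑ j, cu i.succ * cu j * α i.succ j ^ 2 =
        ∑ j, α i.succ j ^ 2 - α i.succ 0 ^ 2 := by
      intro i
      rw [Fin.sum_univ_succ, Fin.sum_univ_succ (f := fun j => α i.succ j ^ 2)]
      simp [cu]
    have h6 : ∑ j, α 0 j ^ 2 = ∑ i : Fin m, α i.succ 0 ^ 2 := by
      rw [Fin.sum_univ_succ, h00]
      rw [show (0 : ℝ) ^ 2 = 0 by norm_num, zero_add]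
      refine Finset.sum_congr rfl fun i _ => ?_
      rw [hα 0 i.succ]
      ring
    rw [h4, Finset.sum_congr rfl fun i _ => h5 i, Finset.sum_sub_distrib, ← h6]
    ring
  rw [h1, h3, h2]
  ring

private theorem sh_bessel {n k : ℕ} (J : Fin n → Fin n → ℝ) (ω : Fin k → Fin n → Fin n → ℝ)
    (ho : ∀ i j, inner2 (ω i) (ω j) = if i = j then 1 else 0) :
    ∑ a, inner2 J (ω a) ^ 2 ≤ inner2 J J := by
  set t : Fin k → ℝ := fun a => inner2 J (ω a) with ht
  have h1 : inner2 J (fun i j => ∑ a, t a * ω a i j) = ∑ a, t a ^ 2 := by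
    have : inner2 J (fun i j => ∑ a, t a * ω a i j) = ∑ a, t a * inner2 J (ω a) := by
      unfold inner2
      simp only [Finset.mul_sum]
      rw [Finset.sum_congr rfl fun i _ => Finset.sum_comm, Finset.sum_comm]
      refine Finset.sum_congr rfl fun a _ => Finset.sum_congr rfl fun i _ =>
        Finset.sum_congr rfl fun j _ => ?_
      ring
    rw [this]
    refine Finset.sum_congr rfl fun a _ => ?_
    rw [sq]
  have h2 : inner2 (fun i j => ∑ a, t a * ω a i j) (fun i j => ∑ a, t a * ω a i j) =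
      ∑ a, t a ^ 2 := by
    have h3 : inner2 (fun i j => ∑ a, t a * ω a i j) (fun i j => ∑ a, t a * ω a i j) =
        ∑ a, ∑ b, t a * t b * inner2 (ω a) (ω b) := by
      unfold inner2
      simp only [Finset.mul_sum, Finset.sum_mul]
      rw [Finset.sum_congr rfl fun i _ => Finset.sum_comm, Finset.sum_comm]
      refine Finset.sum_congr rfl fun b _ => ?_
      rw [Finset.sum_congr rfl fun i _ => Finset.sum_comm, Finset.sum_comm]
      refine Finset.sum_congr rfl fun a _ => Finset.sum_congr rfl fun i _ =>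
        Finset.sum_congr rfl fun j _ => ?_
      ring
    rw [h3]
    refine Finset.sum_congr rfl fun a _ => ?_
    rw [Finset.sum_eq_single a]
    · rw [ho a a, if_pos rfl]; ring
    · intro b _ hb
      rw [ho a b, if_neg (Ne.symm hb), mul_zero]
    · simp
  have h4 : 0 ≤ inner2 J J - 2 * inner2 J (fun i j => ∑ a, t a * ω a i j) +
      inner2 (fun i j => ∑ a, t a * ω a i j) (fun i j => ∑ a, t a * ω a i j) := by
    have h5 : inner2 J J - 2 * inner2 J (fun i j => ∑ a, t a * ω a i j) +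
        inner2 (fun i j => ∑ a, t a * ω a i j) (fun i j => ∑ a, t a * ω a i j) =
        (1 / 2) * ∑ i, ∑ j, (J i j - ∑ a, t a * ω a i j) ^ 2 := by
      unfold inner2
      simp only [Finset.mul_sum (ι := Fin n), ← Finset.sum_sub_distrib (ι := Fin n),
        ← Finset.sum_add_distrib (ι := Fin n)]
      refine Finset.sum_congr rfl fun i _ => Finset.sum_congr rfl fun j _ => ?_
      ring
    rw [h5]
    positivity
  rw [h1, h2] at h4
  linarith

private def eb {m : ℕ} (c : Fin (m + 1)) (a b : Fin (m + 1)) : ℝ :=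
  (if a = 0 then 1 else 0) * (if b = c then 1 else 0) -
    (if a = c then 1 else 0) * (if b = 0 then 1 else 0)

private theorem eb_inner {m : ℕ} (c : Fin (m + 1)) {α : Fin (m + 1) → Fin (m + 1) → ℝ}
    (hα : IsTwoForm α) : inner2 (eb c) α = α 0 c := by
  unfold inner2 eb
  have h1 : ∀ i, ∑ j, (((if i = 0 then (1 : ℝ) else 0) * (if j = c then 1 else 0) -
      (if i = c then 1 else 0) * (if j = 0 then 1 else 0)) * α i j) =
      (if i = 0 then 1 else 0) * α i c - (if i = c then 1 else 0) * α i 0 := by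
    intro i
    by_cases h0 : i = 0
    · by_cases h2 : i = c
      · simp [sub_mul, Finset.sum_sub_distrib, h0, h2, ← h2]
      · simp [h0, h2, Ne.symm (h0 ▸ h2 : (0 : Fin (m + 1)) ≠ c), (h0 ▸ h2 : (0 : Fin (m + 1)) ≠ c)]
    · by_cases h2 : i = c
      · simp [h0, h2, h2 ▸ h0]
      · simp [h0, h2]
  rw [Finset.sum_congr rfl fun i _ => h1 i, Finset.sum_sub_distrib]
  simp only [ite_mul, one_mul, zero_mul, Finset.sum_ite_eq', Finset.mem_univ, if_true]
  rw [hα 0 c]
  ring

private theorem eb_form {m : ℕ} (c : Fin (m + 1)) : IsTwoForm (eb c) := by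
  intro i j
  unfold eb
  ring

private theorem cyl_kpos (m : ℕ) : KPositive (cyl m) (m + 1) := by
  intro ω hω ho
  have h1 : ∑ i, curvOp (cyl m) (ω i) = (m + 1 : ℝ) - ∑ j, ∑ i, ω i 0 j ^ 2 := by
    rw [Finset.sum_congr rfl fun i _ => cyl_op (hω i), Finset.sum_sub_distrib,
      Finset.sum_comm (f := fun i j => ω i 0 j ^ 2)]
    congr 1
    rw [Finset.sum_congr rfl fun i _ => by rw [ho i i, if_pos rfl]]
    simp
  have h2 : ∀ j : Fin m, ∑ i, ω i 0 j.succ ^ 2 ≤ 1 := by
    intro j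
    have h3 := sh_bessel (eb j.succ) ω ho
    rw [eb_inner j.succ (eb_form j.succ)] at h3
    have h4 : eb j.succ 0 j.succ = (1 : ℝ) := by
      unfold eb
      simp [Fin.succ_ne_zero, (Fin.succ_ne_zero j).symm]
    rw [h4] at h3
    refine le_trans (le_of_eq ?_) h3
    refine Finset.sum_congr rfl fun i _ => ?_
    rw [eb_inner j.succ (hω i)]
  have h5 : ∑ j, ∑ i, ω i 0 j ^ 2 ≤ m := by
    rw [Fin.sum_univ_succ]
    have h6 : ∑ i, ω i 0 0 ^ 2 = 0 := by
      refine Finset.sum_eq_zero fun i _ => ?_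
      have : ω i 0 0 = 0 := by have := hω i 0 0; linarith
      rw [this]
      norm_num
    rw [h6, zero_add]
    calc ∑ j : Fin m, ∑ i, ω i 0 j.succ ^ 2 ≤ ∑ _j : Fin m, (1 : ℝ) :=
          Finset.sum_le_sum fun j _ => h2 j
      _ = m := by simp
  rw [h1]
  linarith

theorem sharp_cyl (n : ℕ) (hn : 1 ≤ n) : ∃ R : Fin n → Fin n → Fin n → Fin n → ℝ,
    IsCurvature R ∧ KPositive R n ∧
      ∃ φ : (Fin 1 → Fin n) → ℝ, IsForm φ ∧ φ ≠ 0 ∧ bochner R φ = 0 := by
  obtain ⟨m, rfl⟩ : ∃ m, n = m + 1 := ⟨n - 1, by omega⟩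
  refine ⟨cyl m, cyl_curv m, cyl_kpos m, fun I => if I 0 = 0 then 1 else 0, ?_, ?_, ?_⟩
  · intro σ I
    have h1 : σ = 1 := Subsingleton.elim _ _
    subst h1
    simp
  · intro h
    have := congrFun h ![0]
    simp at this
  · change ∑ i, ∑ j, ricci (cyl m) i j * (if (![i] : Fin 1 → Fin (m + 1)) 0 = 0 then (1 : ℝ) else 0) *
      (if (![j] : Fin 1 → Fin (m + 1)) 0 = 0 then (1 : ℝ) else 0) = 0
    refine Finset.sum_eq_zero fun i _ => Finset.sum_eq_zero fun j _ => ?_
    by_cases hi : i = 0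
    · subst hi
      have : ricci (cyl m) 0 j = 0 := by
        unfold ricci
        refine Finset.sum_eq_zero fun a _ => ?_
        unfold cyl cd cu
        simp
      rw [this]
      ring
    · simp [hi]

end HopfQ4
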