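import Pool.Agent.Lib.MP_4a593f_gt.Q4.Ex
import Pool.Agent.Lib.MP_4a593f_gt.Q4.Hf2
import Pool.Agent.Lib.MP_4a593f_gt.Q4.Star3
import Pool.Agent.Lib.MP_4a593f_gt.Q4.Up2
import Pool.Agent.Lib.MP_4a593f_gt.Q4.Geo

/-! Task Core: combination.  Suppose the inequality fails; take `Crit` with `c ≥ 4`.  With
`a1 = tr(X1N²) > 0`, `a2 = tr(X1N X1P) ≥ 0`, `a3 = tr(X1P²) ≥ 0`, `C = (c-1)X1N + (1+ε)X1P`:
`hform_sum`: `0 ≤ SS + QQ - SS_NP - QQ_NP + 2 tr(X1N C)`;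
`star0`: `QQ_NP ≥ tr((C + X1N - X1P) C) + QQ/2 + QQ_PP/2`, `C + X1N - X1P = c X1N + ε X1P`; so
`(c-2) tr(X1N C) + ε tr(X1P C) ≤ SS + QQ/2 ≤ 2 a1 + 4 tau ≤ 2 a1 + 2 a2` (`Eineq`, `geo`,
`crit_orth`), i.e. `(c-2)((c-1)a1 + (1+ε)a2) + ε((c-1)a2 + (1+ε)a3) ≤ 2a1 + 2a2`: contradiction. -/

open scoped BigOperators

namespace HopfQ4

open HopfBig HopfN2

variable {n m : ℕ}

private theorem SS_nonneg (ψ : Fk n) (A B : Fin m → Mat n) : 0 ≤ SS ψ A B :=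
  Finset.sum_nonneg fun _ _ => Finset.sum_nonneg fun _ _ => by positivity

private theorem QQ_nonneg (ψ : Fk n) (A B : Fin m → Mat n) : 0 ≤ QQ ψ A B :=
  Finset.sum_nonneg fun _ _ => Finset.sum_nonneg fun _ _ => by positivity

private theorem arith {c ε a1 a2 a3 t S Q SNP QNP QPP : ℝ} (hc : 4 ≤ c) (hε : 0 < ε)
    (h1 : 0 < a1) (h2 : 0 ≤ a2) (h3 : 0 ≤ a3)
    (hS : 0 ≤ SNP) (hQ : 0 ≤ QPP)
    (hH : 0 ≤ S + Q - SNP - QNP + 2 * ((c - 1) * a1 + (1 + ε) * a2))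
    (hst : ((c - 1) ^ 2 * a1 + 2 * ((c - 1) * (1 + ε)) * a2 + (1 + ε) ^ 2 * a3) +
      ((c - 1) * a1 + (1 + ε) * a2 - (c - 1) * a2 - (1 + ε) * a3) +
      ((1 / 2) * Q - QNP + (1 / 2) * QPP) ≤ 0)
    (hE : S + (1 / 2) * Q ≤ 2 * a1 + 4 * t) (hg : 2 * t ≤ a2) : False := by
  have e1 : 0 ≤ (2 - (c - 2) * (c - 1)) * a1 + (2 - ((c - 2) * (1 + ε) + ε * (c - 1))) * a2 -
      ε * (1 + ε) * a3 := by
    nlinarith
  have e2 : (2 - (c - 2) * (c - 1)) * a1 < 0 := by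
    apply mul_neg_of_neg_of_pos _ h1
    nlinarith
  have e3 : (2 - ((c - 2) * (1 + ε) + ε * (c - 1))) * a2 ≤ 0 := by
    apply mul_nonpos_of_nonpos_of_nonneg _ h2
    nlinarith
  have e4 : 0 ≤ ε * (1 + ε) * a3 := by positivity
  linarith

theorem main4 {N P : Fin m → Mat n} (h : Bal N P) {ψ : Fk n} (hψ : ‖ψ‖ = 1) :
    ∑ i, ‖rho (N i) ψ‖ ^ 2 - ∑ j, ‖rho (P j) ψ‖ ^ 2 ≤ 4 * ∑ i, ip (N i) (N i) := by
  by_contra hcon
  rw [not_le] at hcon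
  obtain ⟨c, ε, N', P', p, ψ', hc, hε, hcr⟩ := exists_crit (by norm_num : (0 : ℝ) < 4) h hψ hcon
  have hsN := hcr.bal.skN
  have hsP := hcr.bal.skP
  have h1 : 0 < (X1 N' * X1 N').trace := X1_sq_pos hsN (by rw [hcr.trN]; norm_num)
  have h2 : 0 ≤ (X1 N' * X1 P').trace := X1_mul_nonneg hsN hsP
  have h3 : 0 ≤ (X1 P' * X1 P').trace := X1_mul_nonneg hsP hsP
  have hH := hform_sum hcr
  have hst := star0 hcr _ rfl
  have hE := Eineq hsN hcr.deg hcr.norm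
  have hg := geo hcr.bal (crit_orth hcr (by linarith) hε)
  have hcomm : (X1 P' * X1 N').trace = (X1 N' * X1 P').trace := Matrix.trace_mul_comm _ _
  refine arith hc hε h1 h2 h3 (SS_nonneg ψ' N' P') (QQ_nonneg ψ' P' P') hH ?_ hE hg
  refine le_trans (le_of_eq ?_) hst
  congr 1
  simp only [Matrix.add_mul, Matrix.mul_add, Matrix.sub_mul, Matrix.trace_add,
    Matrix.trace_sub, Matrix.smul_mul, Matrix.mul_smul, Matrix.trace_smul, smul_eq_mul, hcomm]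
  ring

end HopfQ4
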