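import Pool.Agent.Lib.MP_4a593f_gt.Big.K4
import Pool.Agent.Lib.MP_4a593f_gt.N2.Q1

/-! # A universal constant for the Weitzenböck term: definitions (no task)

`R = X - Y`, `X = ∑ N_i ⊗ N_i`, `Y = ∑ P_j ⊗ P_j` (balanced families: same 4-form part).
Goal (`Core.lean`): `∑ ‖ρ_{N_i} ψ‖² - ∑ ‖ρ_{P_j} ψ‖² ≤ 4 ∑ |N_i|²` for unit forms `ψ`. -/

open scoped BigOperators

namespace HopfQ4

open HopfBig HopfN2

variable {n m : ℕ}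

/-- `wdg L + ctr L` (self-adjoint); `hop L = wdg L - ctr L` is in `N2/Q1` -/
noncomputable def hopB (L : Mat n) : Fk n →ₗ[ℝ] Fk n := wdg L + ctr L

/-- `ρ_S - (tr S)/2` -/
noncomputable def Ss (S : Mat n) : Fk n →ₗ[ℝ] Fk n := rho S - (S.trace / 2) • LinearMap.id

/-- Clifford multiplication by `e_a` -/
noncomputable def lq (a : Fin n) : Fk n →ₗ[ℝ] Fk n := cr a - an a

/-- anticommutator -/
noncomputable def ac (A B : Mat n) : Mat n := A * B + B * A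

/-- `⟨hop L ψ, hop M ψ⟩` -/
noncomputable def kf (ψ : Fk n) (L M : Mat n) : ℝ := inner ℝ (hop L ψ) (hop M ψ)

/-- `⟨ρ_L ψ, ρ_M ψ⟩` -/
noncomputable def qf (ψ : Fk n) (L M : Mat n) : ℝ := inner ℝ (rho L ψ) (rho M ψ)

/-- `X₁ = -∑ N_i²` -/
noncomputable def X1 (N : Fin m → Mat n) : Mat n := -∑ i, N i * N i

/-- `X^♯ L = ∑ N_k L N_k` -/
noncomputable def Xs (N : Fin m → Mat n) (L : Mat n) : Mat n := ∑ k, N k * L * N k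

/-- `e_a ∧ e_b` -/
def eab (a b : Fin n) : Mat n := wd (Pi.single a 1) (Pi.single b 1)

/-- `tr X²` -/
noncomputable def tX2 (N : Fin m → Mat n) : ℝ := ∑ i, ∑ j, ip (N i) (N j) ^ 2

/-- `τ = ∑ (⟨N_i,N_j⟩² - (1/2) tr (N_i N_j N_i N_j))` -/
noncomputable def tau (N : Fin m → Mat n) : ℝ :=
  ∑ i, ∑ j, (ip (N i) (N j) ^ 2 - (1 / 2) * (N i * N j * N i * N j).trace)

/-- `∑_{ij} ‖ρ_{[A_i,B_j]} ψ‖²` -/
noncomputable def QQ (ψ : Fk n) (A B : Fin m → Mat n) : ℝ := ∑ i, ∑ j, ‖rho (br (A i) (B j)) ψ‖ ^ 2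

/-- `∑_{ij} ‖S_{{A_i,B_j}} ψ‖²` -/
noncomputable def SS (ψ : Fk n) (A B : Fin m → Mat n) : ℝ := ∑ i, ∑ j, ‖Ss (ac (A i) (B j)) ψ‖ ^ 2

/-- `∑_i ⟨hop (S N_i + N_i S) ψ, hop N_i ψ⟩` -/
noncomputable def KK (ψ : Fk n) (S : Mat n) (N : Fin m → Mat n) : ℝ :=
  ∑ i, kf ψ (ac S (N i)) (N i)

/-- balanced families of 2-forms -/
structure Bal (N P : Fin m → Mat n) : Prop where
  skN : ∀ i, Skew (N i)
  skP : ∀ j, Skew (P j)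
  bal : ∀ f : Mat n → ℝ, Four f → ∑ i, f (N i) = ∑ j, f (P j)

/-- `H(χ) = (c tr X + ε tr Y) |χ|² - ⟨Ric(X - Y) χ, χ⟩` -/
noncomputable def Hf (c ε : ℝ) (N P : Fin m → Mat n) (χ : Fk n) : ℝ :=
  (c * ∑ i, ip (N i) (N i) + ε * ∑ j, ip (P j) (P j)) * ‖χ‖ ^ 2
    - ∑ i, ‖rho (N i) χ‖ ^ 2 + ∑ j, ‖rho (P j) χ‖ ^ 2

/-- a maximiser: `c` is the best constant (for this `ε`), attained by `N, P, ψ` -/
structure Crit (c ε : ℝ) (N P : Fin m → Mat n) (p : ℕ) (ψ : Fk n) : Prop where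
  bal : Bal N P
  deg : Deg p ψ
  norm : ‖ψ‖ = 1
  trN : ∑ i, ip (N i) (N i) = 1
  nonneg : ∀ N' P' : Fin m → Mat n, Bal N' P' → ∀ χ : Fk n, 0 ≤ Hf c ε N' P' χ
  zero : Hf c ε N P ψ = 0

end HopfQ4
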