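import Pool.Agent.Lib.MP_4a593f_gt.Q4.Defs

/-! Task Dg: homogeneity.  `wdg L ψ` has degree `p+2`, `ctr L ψ` degree `p-2` (`0` if `p < 2`),
see `Deg.an`, `Deg.cr` (Big/G1), `deg_wdg`, `deg_ctr` (N2/Q2).  Forms of different degree are
orthogonal (`inner_eq_sum` in Big/K3 or `inner_pr`).
`inner_hop3`: three `hop`s change the degree by `±2, ±6`, never by `0`: it is zero. One way: the
diagonal operator `T f s = (-1)^{|s|(|s|-1)/2} f s` satisfies `T (hop L f) = -hop L (T f)`,
`T ψ = ± ψ`, `⟨T f, T g⟩ = ⟨f, g⟩`. -/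

open scoped BigOperators

namespace HopfQ4

open HopfBig HopfN2

variable {n p : ℕ} {ψ : Fk n}

private theorem Dg_wdg_apply (L : Mat n) (f : Fk n) :
    wdg L f = (1 / 2 : ℝ) • ∑ a, ∑ b, L a b • cr a (cr b f) := by
  simp only [wdg, LinearMap.coe_mk, AddHom.coe_mk, LinearMap.smul_apply,
    LinearMap.sum_apply, LinearMap.comp_apply]

private theorem Dg_ctr_apply (L : Mat n) (f : Fk n) :
    ctr L f = (1 / 2 : ℝ) • ∑ a, ∑ b, L a b • an b (an a f) := by
  simp only [ctr, LinearMap.coe_mk, AddHom.coe_mk, LinearMap.smul_apply,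
    LinearMap.sum_apply, LinearMap.comp_apply]

private theorem Dg_rho_apply (L : Mat n) (f : Fk n) :
    rho L f = ∑ a, ∑ b, L a b • cr a (an b f) := by
  simp only [rho, LinearMap.coe_mk, AddHom.coe_mk, LinearMap.smul_apply,
    LinearMap.sum_apply, LinearMap.comp_apply]

/-- the degrees of `f` are `k` modulo `4` -/
private def Dm (k : ZMod 4) (f : Fk n) : Prop :=
  ∀ s : Finset (Fin n), (s.card : ZMod 4) ≠ k → f s = 0

private theorem Dm_add {k : ZMod 4} (f g : Fk n) (hf : Dm k f) (hg : Dm k g) : Dm k (f + g) := by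
  intro s hs
  rw [PiLp.add_apply, hf s hs, hg s hs, add_zero]

private theorem Dm_zero {k : ZMod 4} : Dm k (0 : Fk n) := fun _ _ => rfl

private theorem Dm_smul {k : ZMod 4} (r : ℝ) (f : Fk n) (hf : Dm k f) : Dm k (r • f) := by
  intro s hs
  rw [PiLp.smul_apply, hf s hs, smul_zero]

private theorem Dm_sub {k : ZMod 4} (f g : Fk n) (hf : Dm k f) (hg : Dm k g) : Dm k (f - g) := by
  intro s hs
  rw [PiLp.sub_apply, hf s hs, hg s hs, sub_zero]

private theorem Dm_an {k : ZMod 4} {f : Fk n} (h : Dm (k + 1) f) (a : Fin n) :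
    Dm k (an a f) := by
  intro s hs
  rw [an_apply]
  by_cases ha : a ∈ s
  · rw [if_pos ha]
  · rw [if_neg ha, h (insert a s), mul_zero]
    rw [Finset.card_insert_of_notMem ha]
    push_cast
    intro hc
    exact hs (add_right_cancel hc)

private theorem Dm_cr {k : ZMod 4} {f : Fk n} (h : Dm k f) (a : Fin n) :
    Dm (k + 1) (cr a f) := by
  intro s hs
  rw [cr_apply]
  by_cases ha : a ∈ s
  · rw [if_pos ha, h (s.erase a), mul_zero]
    intro hc
    apply hs
    have h1 := Finset.card_erase_add_one ha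
    rw [← hc, ← h1]
    push_cast
    rfl
  · rw [if_neg ha]

private theorem Dm_wdg {k : ZMod 4} {f : Fk n} (h : Dm k f) (L : Mat n) :
    Dm (k + 2) (wdg L f) := by
  rw [Dg_wdg_apply]
  apply Dm_smul
  refine Finset.sum_induction _ (Dm (k + 2)) Dm_add Dm_zero fun a _ => ?_
  refine Finset.sum_induction _ (Dm (k + 2)) Dm_add Dm_zero fun b _ => ?_
  have h1 := Dm_cr (Dm_cr h b) a
  have h2 : k + 1 + 1 = k + 2 := by ring
  rw [h2] at h1
  exact Dm_smul _ _ h1

private theorem Dm_ctr {k : ZMod 4} {f : Fk n} (h : Dm k f) (L : Mat n) :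
    Dm (k + 2) (ctr L f) := by
  rw [Dg_ctr_apply]
  apply Dm_smul
  refine Finset.sum_induction _ (Dm (k + 2)) Dm_add Dm_zero fun a _ => ?_
  refine Finset.sum_induction _ (Dm (k + 2)) Dm_add Dm_zero fun b _ => ?_
  have h2 : k = k + 2 + 1 + 1 := by
    have h4 : (4 : ZMod 4) = 0 := by decide
    calc k = k + 4 := by rw [h4, add_zero]
      _ = k + 2 + 1 + 1 := by ring
  rw [h2] at h
  exact Dm_smul _ _ (Dm_an (Dm_an h a) b)

private theorem Dm_rho {k : ZMod 4} {f : Fk n} (h : Dm k f) (L : Mat n) :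
    Dm k (rho L f) := by
  rw [Dg_rho_apply]
  refine Finset.sum_induction _ (Dm k) Dm_add Dm_zero fun a _ => ?_
  refine Finset.sum_induction _ (Dm k) Dm_add Dm_zero fun b _ => ?_
  have h2 : k = k - 1 + 1 := by ring
  rw [h2] at h
  have h1 := Dm_cr (Dm_an h b) a
  rw [← h2] at h1
  exact Dm_smul _ _ h1

private theorem Dm_hop {k : ZMod 4} {f : Fk n} (h : Dm k f) (L : Mat n) :
    Dm (k + 2) (hop L f) := by
  rw [hop_apply]
  exact Dm_sub _ _ (Dm_wdg h L) (Dm_ctr h L)

private theorem Dm_of_deg {f : Fk n} (h : Deg p f) : Dm (p : ZMod 4) f := by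
  intro s hs
  apply h s
  intro hc
  apply hs
  rw [hc]

private theorem Dm_inner {k l : ZMod 4} (hkl : k ≠ l) {f g : Fk n} (hf : Dm k f)
    (hg : Dm l g) : inner ℝ f g = 0 := by
  rw [PiLp.inner_apply]
  refine Finset.sum_eq_zero fun s _ => ?_
  by_cases hs : (s.card : ZMod 4) = k
  · rw [hg s (by rw [hs]; exact hkl), inner_zero_right]
  · rw [hf s hs, inner_zero_left]

private theorem Dm_ne (k : ZMod 4) : k + 2 ≠ k := by
  intro h
  have h1 : (2 : ZMod 4) = 0 := by
    have h2 := congrArg (fun x => x - k) h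
    simp only [sub_self] at h2
    rw [← h2]
    ring
  exact absurd h1 (by decide)

private theorem Dg_deg_add {p : ℕ} (f g : Fk n) (hf : Deg p f) (hg : Deg p g) :
    Deg p (f + g) := by
  intro s hs
  rw [PiLp.add_apply, hf s hs, hg s hs, add_zero]

private theorem Dg_deg_zero {p : ℕ} : Deg p (0 : Fk n) := fun _ _ => rfl

private theorem Dg_deg_smul {p : ℕ} (r : ℝ) (f : Fk n) (hf : Deg p f) : Deg p (r • f) := by
  intro s hs
  rw [PiLp.smul_apply, hf s hs, smul_zero]

private theorem Dg_inner_deg {p q : ℕ} (hpq : p ≠ q) {f g : Fk n} (hf : Deg p f)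
    (hg : Deg q g) : inner ℝ f g = 0 := by
  rw [PiLp.inner_apply]
  refine Finset.sum_eq_zero fun s _ => ?_
  by_cases hs : s.card = p
  · rw [hg s (by rw [hs]; exact hpq), inner_zero_right]
  · rw [hf s hs, inner_zero_left]

private theorem Dg_deg_wdg {p : ℕ} {f : Fk n} (h : Deg p f) (L : Mat n) :
    Deg (p + 2) (wdg L f) := by
  rw [Dg_wdg_apply]
  apply Dg_deg_smul
  refine Finset.sum_induction _ (Deg (p + 2)) Dg_deg_add Dg_deg_zero fun a _ => ?_
  refine Finset.sum_induction _ (Deg (p + 2)) Dg_deg_add Dg_deg_zero fun b _ => ?_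
  exact Dg_deg_smul _ _ ((h.cr b).cr a)

private theorem Dg_deg_ctr {p : ℕ} {f : Fk n} (h : Deg (p + 2) f) (L : Mat n) :
    Deg p (ctr L f) := by
  rw [Dg_ctr_apply]
  apply Dg_deg_smul
  refine Finset.sum_induction _ (Deg p) Dg_deg_add Dg_deg_zero fun a _ => ?_
  refine Finset.sum_induction _ (Deg p) Dg_deg_add Dg_deg_zero fun b _ => ?_
  exact Dg_deg_smul _ _ ((h.an a).an b)

private theorem Dg_ctr_small {p : ℕ} (hp : p ≤ 1) {f : Fk n} (h : Deg p f) (L : Mat n) :
    ctr L f = 0 := by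
  rw [Dg_ctr_apply]
  have h1 : ∀ a b : Fin n, an b (an a f) = 0 := by
    intro a b
    interval_cases p
    · rw [h.an_zero a, map_zero]
    · exact (Deg.an (p := 0) h a).an_zero b
  simp only [h1, smul_zero, Finset.sum_const_zero]

private theorem Dg_cross {p : ℕ} {x y : Fk n} (hx : Deg p x) (hy : Deg p y) (L M : Mat n) :
    inner ℝ (wdg L x) (ctr M y) = 0 := by
  by_cases hp : p ≤ 1
  · rw [Dg_ctr_small hp hy, inner_zero_right]
  · obtain ⟨q, rfl⟩ : ∃ q, p = q + 2 := ⟨p - 2, by omega⟩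
    exact Dg_inner_deg (by omega) (Dg_deg_wdg hx L) (Dg_deg_ctr hy M)

theorem kf_eq (h : Deg p ψ) (L M : Mat n) :
    kf ψ L M = inner ℝ (wdg L ψ) (wdg M ψ) + inner ℝ (ctr L ψ) (ctr M ψ) := by
  unfold kf
  rw [hop_apply, hop_apply, inner_sub_left, inner_sub_right, inner_sub_right,
    Dg_cross h h L M, real_inner_comm (wdg M ψ) (ctr L ψ), Dg_cross h h M L]
  ring

theorem inner_hopB_hopB (h : Deg p ψ) (L M : Mat n) :
    inner ℝ (hopB L ψ) (hopB M ψ) = kf ψ L M := by
  rw [kf_eq h]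
  unfold hopB
  rw [LinearMap.add_apply, LinearMap.add_apply, inner_add_left, inner_add_right,
    inner_add_right, Dg_cross h h L M, real_inner_comm (wdg M ψ) (ctr L ψ), Dg_cross h h M L]
  ring

theorem inner_hop3 (h : Deg p ψ) (K L M : Mat n) :
    inner ℝ (hop K ψ) (hop L (hop M ψ)) = 0 := by
  have h0 := Dm_of_deg h
  have h1 := Dm_hop h0 K
  have h2 := Dm_hop (Dm_hop h0 M) L
  exact Dm_inner (Ne.symm (Dm_ne _)) h1 h2

theorem inner_rho_hop (h : Deg p ψ) (T L : Mat n) : inner ℝ ψ (rho T (hop L ψ)) = 0 := by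
  have h0 := Dm_of_deg h
  have h2 := Dm_rho (Dm_hop h0 L) T
  exact Dm_inner (Ne.symm (Dm_ne _)) h0 h2

theorem four_kf (h : Deg p ψ) (hψ : ‖ψ‖ = 1) :
    Four (fun L : Mat n => qf ψ L L + kf ψ L L - ip L L) := by
  have h1 := four_form ψ hψ
  have h2 : (fun L : Mat n => qf ψ L L + kf ψ L L - ip L L) =
      (fun L : Mat n => inner ℝ (rho L ψ) (rho L ψ) +
        (inner ℝ (wdg L ψ) (wdg L ψ) + inner ℝ (ctr L ψ) (ctr L ψ)) - ip L L) := by
    funext L
    rw [kf_eq h]
    rfl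
  rw [h2]
  exact h1

end HopfQ4
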