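import Pool.Agent.Lib.MP_4a593f_gt.Q4.Defs

/-! Task Ex: existence of a maximiser.

Let `c0 ∑|N0_i|² < ∑‖ρ_{N0_i}ψ0‖² - ∑‖ρ_{P0_j}ψ0‖²` (`‖ψ0‖ = 1`).  Then `∑|N0_i|² > 0`; choose
`ε > 0` with `c0 ∑|N0_i|² + ε ∑|P0_j|² < RHS`, and scale the families to `∑|N0_i|² = 1` (`Four f`
is quadratic on skew matrices: see `four_smul` in Big/K4).
Let `B` be a constant with `∑ ‖ρ_{N_i}χ‖² ≤ B ∑|N_i|²‖χ‖²` (`rho_bd` in Big/G4 on components, or
crude), `T = B/ε`.  The set of `(N, P, χ)` with `Bal N P`, `∑|N_i|² = 1`, `∑|P_j|² ≤ T`, `‖χ‖ = 1`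
is compact and nonempty (`Bal` is closed: skewness, and for each array `t` with `Alt4 t` an equation
`∑ t_abcd N_i ab N_i cd = ∑ t_abcd P_j ab P_j cd`; bounded in finite dimension, work with
`(Fin m → Fin n → Fin n → ℝ) × (Fin m → Fin n → Fin n → ℝ) × Fk n`), so
`G = ∑‖ρ_{N_i}χ‖² - ∑‖ρ_{P_j}χ‖² - ε∑|P_j|²` attains its maximum `c > c0`.
For arbitrary `Bal N' P'`, `χ'`: `Hf c ε N' P' χ' ≥ 0` by scaling (`Hf` is quadratic in `(N',P')`
jointly and in `χ'`; if `∑|N'_i|² = 0` then `N' = 0` and `Hf ≥ 0`; if, after scaling, `∑|P'_j|² > T`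
then `G ≤ B - εT ≤ 0 < c`).
Degree: for the maximiser `χ`, `Hf c ε N P` is a nonnegative quadratic form vanishing at `χ`, and
`rho L` commutes with `pr p` (`pr_rho`), `‖·‖²` and `Hf` split as the sum over the components
`pr p χ`, `p ≤ n`; so `Hf` vanishes at every `pr p χ`; take one that is nonzero and normalise. -/

open scoped BigOperators

namespace HopfQ4

open HopfBig HopfN2

variable {n m : ℕ}

private theorem anv_single (b : Fin n) (f : Fk n) : anv (Pi.single b 1) f = an b f := by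
  rw [anv_apply, Finset.sum_eq_single b]
  · rw [Pi.single_eq_same, one_smul]
  · intro a _ hab
    rw [Pi.single_eq_of_ne hab, zero_smul]
  · intro h
    exact absurd (Finset.mem_univ b) h

private theorem crv_single (b : Fin n) (f : Fk n) : crv (Pi.single b 1) f = cr b f := by
  rw [crv_apply, Finset.sum_eq_single b]
  · rw [Pi.single_eq_same, one_smul]
  · intro a _ hab
    rw [Pi.single_eq_of_ne hab, zero_smul]
  · intro h
    exact absurd (Finset.mem_univ b) h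

private theorem norm_sq_le (b : Fin n) (f : Fk n) : ‖an b f‖ ≤ ‖f‖ ∧ ‖cr b f‖ ≤ ‖f‖ := by
  have h1 := norm_anv_crv (Pi.single b 1) f
  rw [anv_single, crv_single] at h1
  have h2 : ∑ i, (Pi.single b 1 : Fin n → ℝ) i ^ 2 = 1 := by
    rw [Finset.sum_eq_single b]
    · rw [Pi.single_eq_same, one_pow]
    · intro a _ hab
      rw [Pi.single_eq_of_ne hab]; norm_num
    · intro h
      exact absurd (Finset.mem_univ b) h
  rw [h2, one_mul] at h1
  constructor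
  · exact (pow_le_pow_iff_left₀ (norm_nonneg _) (norm_nonneg _) two_ne_zero).1
      (by linarith [sq_nonneg ‖cr b f‖])
  · exact (pow_le_pow_iff_left₀ (norm_nonneg _) (norm_nonneg _) two_ne_zero).1
      (by linarith [sq_nonneg ‖an b f‖])

private theorem rho_le (L : Mat n) (f : Fk n) :
    ‖rho L f‖ ^ 2 ≤ (2 * (n : ℝ) ^ 2) * ip L L * ‖f‖ ^ 2 := by
  have h1 : ‖rho L f‖ ≤ (∑ a, ∑ b, |L a b|) * ‖f‖ := by
    rw [rho_apply]
    refine (norm_sum_le _ _).trans ?_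
    rw [Finset.sum_mul]
    refine Finset.sum_le_sum fun a _ => ?_
    refine (norm_sum_le _ _).trans ?_
    rw [Finset.sum_mul]
    refine Finset.sum_le_sum fun b _ => ?_
    rw [norm_smul, Real.norm_eq_abs]
    exact mul_le_mul_of_nonneg_left (((norm_sq_le a _).2).trans (norm_sq_le b f).1)
      (abs_nonneg _)
  have h2 : (∑ a, ∑ b, |L a b|) ^ 2 ≤ (n : ℝ) ^ 2 * hs L := by
    have h3 : ∑ a, ∑ b, |L a b| = ∑ q : Fin n × Fin n, |L q.1 q.2| := by
      rw [Fintype.sum_prod_type]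
    have h4 : hs L = ∑ q : Fin n × Fin n, |L q.1 q.2| ^ 2 := by
      unfold hs
      rw [Fintype.sum_prod_type]
      simp only [sq_abs]
    rw [h3, h4]
    refine (sq_sum_le_card_mul_sum_sq).trans (le_of_eq ?_)
    simp [sq]
  have h5 : 0 ≤ ∑ a, ∑ b, |L a b| :=
    Finset.sum_nonneg fun _ _ => Finset.sum_nonneg fun _ _ => abs_nonneg _
  calc ‖rho L f‖ ^ 2 ≤ ((∑ a, ∑ b, |L a b|) * ‖f‖) ^ 2 :=
        pow_le_pow_left₀ (norm_nonneg _) h1 2
    _ = (∑ a, ∑ b, |L a b|) ^ 2 * ‖f‖ ^ 2 := by ring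
    _ ≤ ((n : ℝ) ^ 2 * hs L) * ‖f‖ ^ 2 := mul_le_mul_of_nonneg_right h2 (sq_nonneg _)
    _ = _ := by rw [← two_ip_self]; ring

private theorem four_smul' {f : Mat n → ℝ} (hf : Four f) (r : ℝ) {L : Mat n} (hL : Skew L) :
    f (r • L) = r ^ 2 * f L := by
  obtain ⟨t, _, ht⟩ := hf
  rw [ht L hL, ht _ (Skew.smul r hL)]
  simp only [Matrix.smul_apply, smul_eq_mul, Finset.mul_sum]
  refine Finset.sum_congr rfl fun a _ => Finset.sum_congr rfl fun b _ =>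
    Finset.sum_congr rfl fun c _ => Finset.sum_congr rfl fun d _ => ?_
  ring

private theorem bal_smul {N P : Fin m → Mat n} (h : Bal N P) (r : ℝ) :
    Bal (fun i => r • N i) (fun j => r • P j) := by
  refine ⟨fun i => Skew.smul r (h.skN i), fun j => Skew.smul r (h.skP j), fun f hf => ?_⟩
  rw [Finset.sum_congr rfl fun i _ => four_smul' hf r (h.skN i),
    Finset.sum_congr rfl fun j _ => four_smul' hf r (h.skP j), ← Finset.mul_sum, ← Finset.mul_sum,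
    h.bal f hf]

private theorem ip_rr (r : ℝ) (L : Mat n) : ip (r • L) (r • L) = r ^ 2 * ip L L := by
  rw [ip_smul_left, ip_smul_right]; ring

private theorem Hf_smul (c ε r : ℝ) (N P : Fin m → Mat n) (χ : Fk n) :
    Hf c ε (fun i => r • N i) (fun j => r • P j) χ = r ^ 2 * Hf c ε N P χ := by
  unfold Hf
  simp only [ip_rr, map_smul, LinearMap.smul_apply, norm_smul, mul_pow, Real.norm_eq_abs, sq_abs,
    ← Finset.mul_sum]
  ring

private theorem Hf_smul' (c ε r : ℝ) (N P : Fin m → Mat n) (χ : Fk n) :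
    Hf c ε N P (r • χ) = r ^ 2 * Hf c ε N P χ := by
  unfold Hf
  simp only [map_smul, norm_smul, mul_pow, Real.norm_eq_abs, sq_abs, ← Finset.mul_sum]
  ring

private theorem sum_pr (f : Fk n) : ∑ q ∈ Finset.range (n + 1), ‖pr q f‖ ^ 2 = ‖f‖ ^ 2 := by
  simp only [EuclideanSpace.norm_sq_eq, pr_apply]
  rw [Finset.sum_comm]
  refine Finset.sum_congr rfl fun s _ => ?_
  rw [Finset.sum_eq_single s.card]
  · rw [if_pos rfl]
  · intro q _ hq
    rw [if_neg (Ne.symm hq)]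
    simp
  · intro h
    exfalso
    apply h
    rw [Finset.mem_range]
    have := Finset.card_le_univ s
    rw [Fintype.card_fin] at this
    omega

private theorem Hf_split (c ε : ℝ) (N P : Fin m → Mat n) (χ : Fk n) :
    ∑ q ∈ Finset.range (n + 1), Hf c ε N P (pr q χ) = Hf c ε N P χ := by
  unfold Hf
  rw [Finset.sum_add_distrib, Finset.sum_sub_distrib, ← Finset.mul_sum, sum_pr, Finset.sum_comm,
    Finset.sum_comm (f := fun q j => ‖rho (P j) (pr q χ)‖ ^ 2)]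
  have h1 : ∀ L : Mat n, ∑ q ∈ Finset.range (n + 1), ‖rho L (pr q χ)‖ ^ 2 = ‖rho L χ‖ ^ 2 := by
    intro L
    rw [← sum_pr (rho L χ)]
    exact Finset.sum_congr rfl fun q _ => by rw [pr_rho]
  simp only [h1]

private theorem bal_iff {N P : Fin m → Mat n} : Bal N P ↔
    (∀ i a b, N i b a = -N i a b) ∧ (∀ j a b, P j b a = -P j a b) ∧
    ∀ t : Fin n → Fin n → Fin n → Fin n → ℝ, Alt4 t →
      ∑ i, ∑ a, ∑ b, ∑ c, ∑ d, t a b c d * N i a b * N i c d =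
      ∑ j, ∑ a, ∑ b, ∑ c, ∑ d, t a b c d * P j a b * P j c d := by
  constructor
  · intro h
    exact ⟨fun i => h.skN i, fun j => h.skP j, fun t ht =>
      h.bal (fun L => ∑ a, ∑ b, ∑ c, ∑ d, t a b c d * L a b * L c d) ⟨t, ht, fun L _ => rfl⟩⟩
  · rintro ⟨h1, h2, h3⟩
    refine ⟨fun i => h1 i, fun j => h2 j, ?_⟩
    rintro f ⟨t, ht, hf⟩
    rw [Finset.sum_congr rfl fun i _ => hf (N i) (h1 i),
      Finset.sum_congr rfl fun j _ => hf (P j) (h2 j)]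
    exact h3 t ht

private abbrev EE (n m : ℕ) : Type :=
  (Fin m → Fin n → Fin n → ℝ) × (Fin m → Fin n → Fin n → ℝ) × Fk n

private def mA (x : EE n m) (i : Fin m) : Mat n := Matrix.of (x.1 i)

private def mB (x : EE n m) (j : Fin m) : Mat n := Matrix.of (x.2.1 j)

private theorem mA_apply (x : EE n m) (i : Fin m) (a b : Fin n) : mA x i a b = x.1 i a b := rfl

private theorem mB_apply (x : EE n m) (i : Fin m) (a b : Fin n) : mB x i a b = x.2.1 i a b := rfl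

private def KS (n m : ℕ) (T : ℝ) : Set (EE n m) :=
  {x | Bal (mA x) (mB x) ∧ ∑ i, ip (mA x i) (mA x i) = 1 ∧
    ∑ j, ip (mB x j) (mB x j) ≤ T ∧ ‖x.2.2‖ = 1}

private theorem cont_ip1 (i : Fin m) : Continuous fun x : EE n m => ip (mA x i) (mA x i) := by
  unfold ip
  simp only [mA_apply]
  fun_prop

private theorem cont_ip2 (i : Fin m) : Continuous fun x : EE n m => ip (mB x i) (mB x i) := by
  unfold ip
  simp only [mB_apply]
  fun_prop

private theorem cont_rho1 (i : Fin m) :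
    Continuous fun x : EE n m => ‖rho (mA x i) x.2.2‖ ^ 2 := by
  have h : ∀ a b : Fin n, Continuous fun f : Fk n => cr a (an b f) := fun a b =>
    LinearMap.continuous_of_finiteDimensional ((cr a).comp (an b))
  simp only [rho_apply, mA_apply]
  refine Continuous.pow (Continuous.norm ?_) 2
  refine continuous_finsetSum _ fun a _ => continuous_finsetSum _ fun b _ => ?_
  exact Continuous.smul (show Continuous fun x : EE n m => x.1 i a b by fun_prop) ((h a b).comp (continuous_snd.comp continuous_snd))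

private theorem cont_rho2 (i : Fin m) :
    Continuous fun x : EE n m => ‖rho (mB x i) x.2.2‖ ^ 2 := by
  have h : ∀ a b : Fin n, Continuous fun f : Fk n => cr a (an b f) := fun a b =>
    LinearMap.continuous_of_finiteDimensional ((cr a).comp (an b))
  simp only [rho_apply, mB_apply]
  refine Continuous.pow (Continuous.norm ?_) 2
  refine continuous_finsetSum _ fun a _ => continuous_finsetSum _ fun b _ => ?_
  exact Continuous.smul (show Continuous fun x : EE n m => x.2.1 i a b by fun_prop) ((h a b).comp (continuous_snd.comp continuous_snd))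

private theorem closed_KS (T : ℝ) : IsClosed (KS n m T) := by
  have h1 : KS n m T =
      (⋂ (i : Fin m) (a : Fin n) (b : Fin n), {x : EE n m | x.1 i b a = -x.1 i a b}) ∩
      (⋂ (i : Fin m) (a : Fin n) (b : Fin n), {x : EE n m | x.2.1 i b a = -x.2.1 i a b}) ∩
      (⋂ (t : Fin n → Fin n → Fin n → Fin n → ℝ) (_ : Alt4 t), {x : EE n m |
        ∑ i, ∑ a, ∑ b, ∑ c, ∑ d, t a b c d * x.1 i a b * x.1 i c d =
        ∑ j, ∑ a, ∑ b, ∑ c, ∑ d, t a b c d * x.2.1 j a b * x.2.1 j c d}) ∩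
      {x : EE n m | ∑ i, ip (mA x i) (mA x i) = 1} ∩
      {x : EE n m | ∑ j, ip (mB x j) (mB x j) ≤ T} ∩ {x : EE n m | ‖x.2.2‖ = 1} := by
    ext x
    simp only [Set.mem_inter_iff, Set.mem_iInter, Set.mem_ofPred_eq, KS]
    rw [bal_iff]
    simp only [mA_apply, mB_apply]
    tauto
  rw [h1]
  refine IsClosed.inter (IsClosed.inter (IsClosed.inter (IsClosed.inter (IsClosed.inter ?_ ?_)
    ?_) ?_) ?_) ?_
  · exact isClosed_iInter fun i => isClosed_iInter fun a => isClosed_iInter fun b =>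
      isClosed_eq (by fun_prop) (by fun_prop)
  · exact isClosed_iInter fun i => isClosed_iInter fun a => isClosed_iInter fun b =>
      isClosed_eq (by fun_prop) (by fun_prop)
  · exact isClosed_iInter fun t => isClosed_iInter fun ht =>
      isClosed_eq (by fun_prop) (by fun_prop)
  · exact isClosed_eq (continuous_finsetSum _ fun i _ => cont_ip1 i) continuous_const
  · exact isClosed_le (continuous_finsetSum _ fun i _ => cont_ip2 i) continuous_const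
  · exact isClosed_eq (by fun_prop) continuous_const

private theorem entry_le {N : Fin m → Mat n} {T : ℝ} (h : ∑ i, ip (N i) (N i) ≤ T) (i : Fin m)
    (a b : Fin n) : |N i a b| ≤ √(2 * T) := by
  apply Real.abs_le_sqrt
  have h1 : ip (N i) (N i) ≤ T :=
    (Finset.single_le_sum (f := fun i => ip (N i) (N i)) (fun i _ => ip_self_nonneg _)
      (Finset.mem_univ i)).trans h
  have h2 : N i a b ^ 2 ≤ hs (N i) := by
    unfold hs
    refine le_trans ?_ (Finset.single_le_sum (f := fun a => ∑ b, N i a b ^ 2)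
      (fun a _ => Finset.sum_nonneg fun _ _ => sq_nonneg _) (Finset.mem_univ a))
    exact Finset.single_le_sum (f := fun b => N i a b ^ 2) (fun b _ => sq_nonneg _)
      (Finset.mem_univ b)
  rw [← two_ip_self] at h2
  linarith

private theorem norm3_le (x : Fin m → Fin n → Fin n → ℝ) {r : ℝ} (hr : 0 ≤ r)
    (h : ∀ i a b, |x i a b| ≤ r) : ‖x‖ ≤ r := by
  refine (pi_norm_le_iff_of_nonneg hr).2 fun i => (pi_norm_le_iff_of_nonneg hr).2 fun a =>
    (pi_norm_le_iff_of_nonneg hr).2 fun b => ?_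
  rw [Real.norm_eq_abs]
  exact h i a b

private theorem compact_KS (T : ℝ) : IsCompact (KS n m T) := by
  refine Metric.isCompact_of_isClosed_isBounded (closed_KS T) ?_
  rw [Metric.isBounded_iff_subset_closedBall 0]
  refine ⟨√(2 * 1) + √(2 * T) + 1, ?_⟩
  rintro x ⟨_, h1, h2, h3⟩
  rw [mem_closedBall_zero_iff]
  have e1 : ‖x.1‖ ≤ √(2 * 1) :=
    norm3_le _ (Real.sqrt_nonneg _) (entry_le h1.le)
  have e2 : ‖x.2.1‖ ≤ √(2 * T) :=
    norm3_le _ (Real.sqrt_nonneg _) (entry_le h2)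
  have p1 := Real.sqrt_nonneg (2 * 1)
  have p2 := Real.sqrt_nonneg (2 * T)
  rw [Prod.norm_def, Prod.norm_def, h3]
  refine max_le ?_ (max_le ?_ ?_) <;> linarith

private theorem fam_le (N : Fin m → Mat n) (χ : Fk n) :
    ∑ i, ‖rho (N i) χ‖ ^ 2 ≤ (2 * (n : ℝ) ^ 2) * (∑ i, ip (N i) (N i)) * ‖χ‖ ^ 2 := by
  rw [Finset.mul_sum, Finset.sum_mul]
  exact Finset.sum_le_sum fun i _ => rho_le (N i) χ

private theorem ipf_nonneg (N : Fin m → Mat n) : 0 ≤ ∑ i, ip (N i) (N i) :=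
  Finset.sum_nonneg fun _ _ => ip_self_nonneg _

private theorem rf_nonneg (N : Fin m → Mat n) (χ : Fk n) : 0 ≤ ∑ i, ‖rho (N i) χ‖ ^ 2 :=
  Finset.sum_nonneg fun _ _ => sq_nonneg _

private noncomputable def Gv (ε : ℝ) (N P : Fin m → Mat n) (χ : Fk n) : ℝ :=
  ∑ i, ‖rho (N i) χ‖ ^ 2 - ∑ j, ‖rho (P j) χ‖ ^ 2 - ε * ∑ j, ip (P j) (P j)

private theorem Gv_smul (ε r : ℝ) (N P : Fin m → Mat n) (χ : Fk n) :
    Gv ε (fun i => r • N i) (fun j => r • P j) χ = r ^ 2 * Gv ε N P χ := by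
  unfold Gv
  simp only [ip_rr, map_smul, LinearMap.smul_apply, norm_smul, mul_pow, Real.norm_eq_abs, sq_abs,
    ← Finset.mul_sum]
  ring

private theorem Gv_cont (ε : ℝ) : Continuous fun x : EE n m => Gv ε (mA x) (mB x) x.2.2 := by
  unfold Gv
  refine Continuous.sub (Continuous.sub ?_ ?_) (continuous_const.mul ?_)
  · exact continuous_finsetSum _ fun i _ => cont_rho1 i
  · exact continuous_finsetSum _ fun i _ => cont_rho2 i
  · exact continuous_finsetSum _ fun i _ => cont_ip2 i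

private theorem start {c0 : ℝ} {N0 P0 : Fin m → Mat n} (h0 : Bal N0 P0) {ψ0 : Fk n}
    (hbad : c0 * ∑ i, ip (N0 i) (N0 i) <
      ∑ i, ‖rho (N0 i) ψ0‖ ^ 2 - ∑ j, ‖rho (P0 j) ψ0‖ ^ 2) :
    ∃ (ε : ℝ) (N P : Fin m → Mat n), 0 < ε ∧ Bal N P ∧ ∑ i, ip (N i) (N i) = 1 ∧
      c0 < Gv ε N P ψ0 := by
  set A0 := ∑ i, ip (N0 i) (N0 i) with hA0
  set D0 := ∑ j, ip (P0 j) (P0 j) with hD0
  set G0 := ∑ i, ‖rho (N0 i) ψ0‖ ^ 2 - ∑ j, ‖rho (P0 j) ψ0‖ ^ 2 with hG0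
  have hD0n : 0 ≤ D0 := ipf_nonneg P0
  have hA0n : 0 ≤ A0 := ipf_nonneg N0
  have hA0p : 0 < A0 := by
    rcases hA0n.eq_or_lt with h | h
    · exfalso
      have h1 := fam_le N0 ψ0
      have h2 := rf_nonneg P0 ψ0
      rw [← hA0, ← h, mul_zero, zero_mul] at h1
      rw [← h, mul_zero] at hbad
      linarith
    · exact h
  have hδ0 : 0 < G0 - c0 * A0 := by linarith
  have hε0 : 0 < (G0 - c0 * A0) / (2 * (D0 + 1)) := by positivity
  have hεD : (G0 - c0 * A0) / (2 * (D0 + 1)) * D0 < G0 - c0 * A0 := by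
    have : (G0 - c0 * A0) / (2 * (D0 + 1)) * D0 ≤ (G0 - c0 * A0) / 2 := by
      rw [div_mul_eq_mul_div, div_le_div_iff₀ (by positivity) (by norm_num)]
      nlinarith
    linarith
  have hs2 : (√A0)⁻¹ ^ 2 * A0 = 1 := by
    rw [inv_pow, Real.sq_sqrt hA0n]
    field_simp
  have hs20 : 0 < (√A0)⁻¹ ^ 2 := by
    have := Real.sqrt_pos.2 hA0p
    positivity
  refine ⟨(G0 - c0 * A0) / (2 * (D0 + 1)), fun i => (√A0)⁻¹ • N0 i, fun j => (√A0)⁻¹ • P0 j, hε0,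
    bal_smul h0 _, ?_, ?_⟩
  · simp only [ip_rr, ← Finset.mul_sum]
    rw [← hA0, hs2]
  · rw [Gv_smul]
    have h2 : c0 = (√A0)⁻¹ ^ 2 * (c0 * A0) := by
      calc c0 = c0 * ((√A0)⁻¹ ^ 2 * A0) := by rw [hs2, mul_one]
        _ = _ := by ring
    have h3 : c0 * A0 < Gv ((G0 - c0 * A0) / (2 * (D0 + 1))) N0 P0 ψ0 := by
      unfold Gv
      rw [← hG0, ← hD0]
      linarith
    exact h2.trans_lt (mul_lt_mul_of_pos_left h3 hs20)

private theorem small {ε : ℝ} (hε0 : 0 < ε) (N P : Fin m → Mat n) (χ : Fk n) (hχ : ‖χ‖ = 1)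
    (hN : ∑ i, ip (N i) (N i) = 1) (hP : (2 * (n : ℝ) ^ 2) / ε < ∑ j, ip (P j) (P j)) :
    Gv ε N P χ ≤ 0 := by
  have h1 := fam_le N χ
  have h2 := rf_nonneg P χ
  rw [hN, hχ] at h1
  have h3 : 2 * (n : ℝ) ^ 2 ≤ ε * ∑ j, ip (P j) (P j) := by
    rw [div_lt_iff₀ hε0] at hP
    linarith
  unfold Gv
  linarith

private def mkE (N P : Fin m → Mat n) (χ : Fk n) : EE n m :=
  (fun i a b => N i a b, fun j a b => P j a b, χ)

private theorem mA_mk (N P : Fin m → Mat n) (χ : Fk n) : mA (mkE N P χ) = N := by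
  funext i
  ext a b
  rfl

private theorem mB_mk (N P : Fin m → Mat n) (χ : Fk n) : mB (mkE N P χ) = P := by
  funext i
  ext a b
  rfl

private theorem mC_mk (N P : Fin m → Mat n) (χ : Fk n) : (mkE N P χ).2.2 = χ := rfl

private theorem mem_KS {T : ℝ} {N P : Fin m → Mat n} {χ : Fk n} (h : Bal N P)
    (hN : ∑ i, ip (N i) (N i) = 1) (hP : ∑ j, ip (P j) (P j) ≤ T) (hχ : ‖χ‖ = 1) :
    mkE N P χ ∈ KS n m T := by
  unfold KS
  rw [Set.mem_ofPred_eq, mA_mk, mB_mk, mC_mk]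
  exact ⟨h, hN, hP, hχ⟩

private theorem maxim {c0 ε : ℝ} (hc0 : 0 < c0) (hε0 : 0 < ε) {N1 P1 : Fin m → Mat n}
    (h1 : Bal N1 P1) {ψ0 : Fk n} (hψ0 : ‖ψ0‖ = 1) (hN1 : ∑ i, ip (N1 i) (N1 i) = 1)
    (hG1 : c0 < Gv ε N1 P1 ψ0) :
    ∃ (N P : Fin m → Mat n) (χ : Fk n), Bal N P ∧ ‖χ‖ = 1 ∧ ∑ i, ip (N i) (N i) = 1 ∧
      c0 ≤ Gv ε N P χ ∧
      ∀ N' P' : Fin m → Mat n, Bal N' P' → ∑ i, ip (N' i) (N' i) = 1 → ∀ χ' : Fk n,
        ‖χ'‖ = 1 → Gv ε N' P' χ' ≤ Gv ε N P χ := by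
  have hx0 : mkE N1 P1 ψ0 ∈ KS n m ((2 * (n : ℝ) ^ 2) / ε) := by
    refine mem_KS h1 hN1 ?_ hψ0
    by_contra hcon
    push Not at hcon
    have h1 := small hε0 N1 P1 ψ0 hψ0 hN1 hcon
    linarith
  obtain ⟨x, hx, hmax⟩ := (compact_KS ((2 * (n : ℝ) ^ 2) / ε)).exists_isMaxOn ⟨_, hx0⟩
    (Gv_cont (n := n) (m := m) ε).continuousOn
  have hmax' : ∀ y ∈ KS n m ((2 * (n : ℝ) ^ 2) / ε),
      Gv ε (mA y) (mB y) y.2.2 ≤ Gv ε (mA x) (mB x) x.2.2 := fun y hy => hmax hy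
  obtain ⟨hxb, hxN, hxP, hxχ⟩ := hx
  have hc : c0 < Gv ε (mA x) (mB x) x.2.2 := by
    have h2 := hmax' _ hx0
    rw [mA_mk, mB_mk, mC_mk] at h2
    exact hG1.trans_le h2
  refine ⟨mA x, mB x, x.2.2, hxb, hxχ, hxN, hc.le, ?_⟩
  intro N' P' hb' hN' χ' hχ'
  rcases le_or_gt (∑ j, ip (P' j) (P' j)) ((2 * (n : ℝ) ^ 2) / ε) with h2 | h2
  · have h3 := hmax' _ (mem_KS hb' hN' h2 hχ')
    rw [mA_mk, mB_mk, mC_mk] at h3
    exact h3
  · have h3 := small hε0 N' P' χ' hχ' hN' h2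
    linarith

private theorem Hf_Gv (c ε : ℝ) {N P : Fin m → Mat n} {χ : Fk n} (hN : ∑ i, ip (N i) (N i) = 1)
    (hχ : ‖χ‖ = 1) : Hf c ε N P χ = c - Gv ε N P χ := by
  unfold Hf Gv
  rw [hN, hχ]
  ring

private theorem unit2 {c ε : ℝ} (hε0 : 0 < ε)
    (hunit : ∀ N' P' : Fin m → Mat n, Bal N' P' → ∑ i, ip (N' i) (N' i) = 1 → ∀ χ' : Fk n,
        ‖χ'‖ = 1 → 0 ≤ Hf c ε N' P' χ') {N' P' : Fin m → Mat n} (hb' : Bal N' P') {χ' : Fk n}
    (hχ' : ‖χ'‖ = 1) : 0 ≤ Hf c ε N' P' χ' := by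
  rcases (ipf_nonneg N').eq_or_lt with h1 | h1
  · have h2 := fam_le N' χ'
    have h3 := rf_nonneg P' χ'
    have h4 : 0 ≤ ε * ∑ j, ip (P' j) (P' j) := mul_nonneg hε0.le (ipf_nonneg P')
    rw [← h1, mul_zero, zero_mul] at h2
    unfold Hf
    rw [← h1, hχ']
    linarith
  · have hr2 : (√(∑ i, ip (N' i) (N' i)))⁻¹ ^ 2 * ∑ i, ip (N' i) (N' i) = 1 := by
      rw [inv_pow, Real.sq_sqrt h1.le]
      field_simp
    have hr20 : 0 < (√(∑ i, ip (N' i) (N' i)))⁻¹ ^ 2 := by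
      have := Real.sqrt_pos.2 h1
      positivity
    have h2 := hunit (fun i => (√(∑ i, ip (N' i) (N' i)))⁻¹ • N' i)
      (fun j => (√(∑ i, ip (N' i) (N' i)))⁻¹ • P' j) (bal_smul hb' _) (by
        simp only [ip_rr, ← Finset.mul_sum]
        exact hr2) χ' hχ'
    rw [Hf_smul] at h2
    exact (mul_nonneg_iff_of_pos_left hr20).1 h2

private theorem unit3 {c ε : ℝ} {N' P' : Fin m → Mat n}
    (hunit : ∀ χ' : Fk n, ‖χ'‖ = 1 → 0 ≤ Hf c ε N' P' χ') (χ' : Fk n) :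
    0 ≤ Hf c ε N' P' χ' := by
  rcases eq_or_ne χ' 0 with h1 | h1
  · subst h1
    unfold Hf
    simp
  · have h2 : ‖χ'‖ ≠ 0 := norm_ne_zero_iff.2 h1
    have h3 := hunit (‖χ'‖⁻¹ • χ') (by
      rw [norm_smul, norm_inv, norm_norm, inv_mul_cancel₀ h2])
    rw [Hf_smul'] at h3
    have h4 : 0 < ‖χ'‖⁻¹ ^ 2 := by positivity
    exact (mul_nonneg_iff_of_pos_left h4).1 h3

theorem exists_crit {c0 : ℝ} (hc0 : 0 < c0) {N0 P0 : Fin m → Mat n} (h0 : Bal N0 P0)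
    {ψ0 : Fk n} (hψ0 : ‖ψ0‖ = 1)
    (hbad : c0 * ∑ i, ip (N0 i) (N0 i) <
      ∑ i, ‖rho (N0 i) ψ0‖ ^ 2 - ∑ j, ‖rho (P0 j) ψ0‖ ^ 2) :
    ∃ (c ε : ℝ) (N P : Fin m → Mat n) (p : ℕ) (ψ : Fk n),
      c0 ≤ c ∧ 0 < ε ∧ Crit c ε N P p ψ := by
  obtain ⟨ε, N1, P1, hε, hb1, hN1, hG1⟩ := start h0 hbad
  obtain ⟨N, P, χ, hbal, hχ, hN, hc, hmax⟩ := maxim hc0 hε hb1 hψ0 hN1 hG1
  have hnn : ∀ N' P' : Fin m → Mat n, Bal N' P' → ∀ χ' : Fk n,
      0 ≤ Hf (Gv ε N P χ) ε N' P' χ' := by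
    intro N' P' hb'
    refine unit3 fun χ' hχ' => unit2 hε ?_ hb' hχ'
    intro N' P' hb' hN' χ' hχ'
    rw [Hf_Gv _ _ hN' hχ']
    have := hmax N' P' hb' hN' χ' hχ'
    linarith
  have hz : Hf (Gv ε N P χ) ε N P χ = 0 := by
    rw [Hf_Gv _ _ hN hχ, sub_self]
  have h1 := Hf_split (Gv ε N P χ) ε N P χ
  rw [hz] at h1
  have h2 := (Finset.sum_eq_zero_iff_of_nonneg fun q _ => hnn N P hbal (pr q χ)).1 h1
  have h3 : ∃ q ∈ Finset.range (n + 1), pr q χ ≠ 0 := by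
    by_contra hcon
    push Not at hcon
    have h4 := sum_pr χ
    rw [Finset.sum_congr rfl fun q hq => by rw [hcon q hq], hχ] at h4
    simp at h4
  obtain ⟨q, hq, hq0⟩ := h3
  have hn : ‖pr q χ‖ ≠ 0 := norm_ne_zero_iff.2 hq0
  refine ⟨Gv ε N P χ, ε, N, P, q, ‖pr q χ‖⁻¹ • pr q χ, hc, hε, ⟨hbal, ?_, ?_, hN, hnn, ?_⟩⟩
  · intro s hs
    rw [PiLp.smul_apply, deg_pr q χ s hs, smul_zero]
  · rw [norm_smul, norm_inv, norm_norm, inv_mul_cancel₀ hn]
  · rw [Hf_smul', h2 q hq, mul_zero]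

end HopfQ4
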