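import Pool.Agent.Lib.MP_4a593f_gt.Q4.Dg

/-! Task First: first order conditions at a maximiser.

`crit_orth`: for real `t`, `N' = √(1+t²) N_i - t P_j`, `P' = √(1+t²) P_j - t N_i` (one pair `i, j`,
the other members unchanged) is balanced, because a `Four` function `f` on skew matrices is a
quadratic form; `‖ρ_{N'}ψ‖² - ‖ρ_{P'}ψ‖²` does not change, so
`0 ≤ Hf = (c+ε)(t²(|N_i|²+|P_j|²) - 2 t √(1+t²) ⟨N_i,P_j⟩)` for all `t`, hence `⟨N_i,P_j⟩ = 0`
(`c + ε > 0`).
`crit_bilin`: `Hf c ε N P` is a nonnegative quadratic form vanishing at `ψ`.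
`crit_marg`: for symmetric `S` and real `t`, `g = 1 + t S`: `(g N_i gᵀ)`, `(g P_j gᵀ)` are balanced
(`Four.pull`), `g N gᵀ = N + t (SN+NS) + t² SNS`; `t ↦ Hf c ε (gNgᵀ) (gPgᵀ) ψ` is a nonnegative
polynomial vanishing at `0`, so its derivative at `0` vanishes:
`c ∑⟨N,ac S N⟩ + ε ∑⟨P,ac S P⟩ - ∑ qf(N,ac S N) + ∑ qf(P,ac S P) = 0`.  Since
`qf + kf - ip` is a 4-form (`four_kf`), `∑_N (qf+kf-ip)(N,ac S N) = ∑_P (qf+kf-ip)(P,ac S P)` (derivative
of `∑ f(gNgᵀ) = ∑ f(gPgᵀ)`).  Finally `⟨N, SN+NS⟩ = -tr(S N²)`. -/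

open scoped BigOperators

namespace HopfQ4

open HopfBig HopfN2

variable {n m p : ℕ} {c ε : ℝ} {N P : Fin m → Mat n} {ψ : Fk n}

private noncomputable def bIp : Mat n →ₗ[ℝ] Mat n →ₗ[ℝ] ℝ :=
  LinearMap.mk₂ ℝ ip ip_add_left ip_smul_left ip_add_right (fun r A B => ip_smul_right r A B)

private noncomputable def bRho (χ : Fk n) : Mat n →ₗ[ℝ] Mat n →ₗ[ℝ] ℝ :=
  LinearMap.mk₂ ℝ (fun L M => inner ℝ (rho L χ) (rho M χ))
    (fun L L' M => by rw [map_add, LinearMap.add_apply, inner_add_left])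
    (fun r L M => by rw [map_smul, LinearMap.smul_apply, real_inner_smul_left, smul_eq_mul])
    (fun L M M' => by rw [map_add, LinearMap.add_apply, inner_add_right])
    (fun r L M => by rw [map_smul, LinearMap.smul_apply, real_inner_smul_right, smul_eq_mul])

private theorem hop_add' (L M : Mat n) : hop (L + M) = hop L + hop M := by
  unfold hop
  rw [map_add, map_add]
  abel

private theorem hop_smul' (r : ℝ) (L : Mat n) : hop (r • L) = r • hop L := by
  unfold hop
  rw [map_smul, map_smul, smul_sub]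

private noncomputable def bHop (χ : Fk n) : Mat n →ₗ[ℝ] Mat n →ₗ[ℝ] ℝ :=
  LinearMap.mk₂ ℝ (fun L M => kf χ L M)
    (fun L L' M => by
      unfold kf
      rw [hop_add', LinearMap.add_apply, inner_add_left])
    (fun r L M => by
      unfold kf
      rw [hop_smul', LinearMap.smul_apply, real_inner_smul_left, smul_eq_mul])
    (fun L M M' => by
      unfold kf
      rw [hop_add', LinearMap.add_apply, inner_add_right])
    (fun r L M => by
      unfold kf
      rw [hop_smul', LinearMap.smul_apply, real_inner_smul_right, smul_eq_mul])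

private theorem bIp_apply (L M : Mat n) : bIp L M = ip L M := rfl

private theorem bRho_apply (χ : Fk n) (L M : Mat n) : bRho χ L M = qf χ L M := rfl

private theorem bHop_apply (χ : Fk n) (L M : Mat n) : bHop χ L M = kf χ L M := rfl

private theorem bRho_self (χ : Fk n) (L : Mat n) : bRho χ L L = ‖rho L χ‖ ^ 2 := by
  rw [bRho_apply, qf, real_inner_self_eq_norm_sq]

private theorem four_bil {f : Mat n → ℝ} (hf : Four f) :
    ∃ b : Mat n →ₗ[ℝ] Mat n →ₗ[ℝ] ℝ, ∀ L, Skew L → f L = b L L := by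
  obtain ⟨t, -, ht⟩ := hf
  refine ⟨LinearMap.mk₂ ℝ (fun L M => ∑ a, ∑ b, ∑ c, ∑ d, t a b c d * L a b * M c d)
    ?_ ?_ ?_ ?_, fun L hL => ht L hL⟩
  · intro L L' M
    simp only [Matrix.add_apply, mul_add, add_mul, Finset.sum_add_distrib]
  · intro r L M
    simp only [Matrix.smul_apply, smul_eq_mul, Finset.mul_sum]
    refine Finset.sum_congr rfl fun a _ => Finset.sum_congr rfl fun b _ =>
      Finset.sum_congr rfl fun c _ => Finset.sum_congr rfl fun d _ => ?_
    ring
  · intro L M M'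
    simp only [Matrix.add_apply, mul_add, Finset.sum_add_distrib]
  · intro r L M
    simp only [Matrix.smul_apply, smul_eq_mul, Finset.mul_sum]
    refine Finset.sum_congr rfl fun a _ => Finset.sum_congr rfl fun b _ =>
      Finset.sum_congr rfl fun c _ => Finset.sum_congr rfl fun d _ => ?_
    ring

private theorem sum_upd (F : Mat n → ℝ) (N : Fin m → Mat n) (i : Fin m) (X : Mat n) :
    ∑ k, F (Function.update N i X k) = ∑ k, F (N k) - F (N i) + F X := by
  classical
  rw [← Finset.add_sum_erase Finset.univ (fun k => F (Function.update N i X k))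
      (Finset.mem_univ i),
    ← Finset.add_sum_erase Finset.univ (fun k => F (N k)) (Finset.mem_univ i)]
  have h1 : ∑ k ∈ Finset.univ.erase i, F (Function.update N i X k) =
      ∑ k ∈ Finset.univ.erase i, F (N k) := by
    refine Finset.sum_congr rfl fun k hk => ?_
    rw [Function.update_of_ne (Finset.ne_of_mem_erase hk)]
  rw [h1, Function.update_self]
  ring

private theorem bil_hyp (b : Mat n →ₗ[ℝ] Mat n →ₗ[ℝ] ℝ) (A B : Mat n) (s t : ℝ) :
    b (s • A - t • B) (s • A - t • B) =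
      s ^ 2 * b A A + t ^ 2 * b B B - s * t * (b A B + b B A) := by
  simp only [map_sub, map_smul, LinearMap.sub_apply, LinearMap.smul_apply, smul_eq_mul]
  ring

private theorem bil_exp (b : Mat n →ₗ[ℝ] Mat n →ₗ[ℝ] ℝ) (A B C : Mat n) (t : ℝ) :
    b (A + t • B + t ^ 2 • C) (A + t • B + t ^ 2 • C) =
      b A A + t * (b A B + b B A) + t ^ 2 * (b A C + b C A + b B B) +
        t ^ 3 * (b B C + b C B) + t ^ 4 * b C C := by
  simp only [map_add, map_smul, LinearMap.add_apply, LinearMap.smul_apply, smul_eq_mul]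
  ring

private theorem poly_zero {a₁ a₂ a₃ a₄ : ℝ}
    (h : ∀ t : ℝ, 0 ≤ t * a₁ + t ^ 2 * a₂ + t ^ 3 * a₃ + t ^ 4 * a₄) : a₁ = 0 := by
  have hd : HasDerivAt (fun t : ℝ => t * a₁ + t ^ 2 * a₂ + t ^ 3 * a₃ + t ^ 4 * a₄) a₁ 0 := by
    have h1 := (((hasDerivAt_id' (0:ℝ)).mul_const a₁).add
      ((hasDerivAt_pow 2 (0:ℝ)).mul_const a₂)).add ((hasDerivAt_pow 3 (0:ℝ)).mul_const a₃)
    have h2 := h1.add ((hasDerivAt_pow 4 (0:ℝ)).mul_const a₄)
    have h3 : HasDerivAt (fun t : ℝ => t * a₁ + t ^ 2 * a₂ + t ^ 3 * a₃ + t ^ 4 * a₄) _ 0 := h2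
    refine h3.congr_deriv ?_
    simp
  have hm : IsLocalMin (fun t : ℝ => t * a₁ + t ^ 2 * a₂ + t ^ 3 * a₃ + t ^ 4 * a₄) 0 := by
    refine Filter.Eventually.of_forall fun t => ?_
    have := h t
    simpa using this
  exact hm.hasDerivAt_eq_zero hd

private theorem sum_exp (b : Mat n →ₗ[ℝ] Mat n →ₗ[ℝ] ℝ) (A B C : Fin m → Mat n) (t : ℝ) :
    ∑ i, b (A i + t • B i + t ^ 2 • C i) (A i + t • B i + t ^ 2 • C i) =
      ∑ i, b (A i) (A i) + t * ∑ i, (b (A i) (B i) + b (B i) (A i)) +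
        t ^ 2 * ∑ i, (b (A i) (C i) + b (C i) (A i) + b (B i) (B i)) +
        t ^ 3 * ∑ i, (b (B i) (C i) + b (C i) (B i)) + t ^ 4 * ∑ i, b (C i) (C i) := by
  simp only [bil_exp, Finset.sum_add_distrib, ← Finset.mul_sum]

private theorem skew_comb {A B : Mat n} (hA : Skew A) (hB : Skew B) (s t : ℝ) :
    Skew (s • A - t • B) := by
  intro i j
  simp only [Matrix.sub_apply, Matrix.smul_apply, smul_eq_mul]
  rw [hA i j, hB i j]
  ring

private noncomputable def bN (c : ℝ) (χ : Fk n) : Mat n →ₗ[ℝ] Mat n →ₗ[ℝ] ℝ := c • bIp - bRho χ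

private noncomputable def bP (ε : ℝ) (χ : Fk n) : Mat n →ₗ[ℝ] Mat n →ₗ[ℝ] ℝ := ε • bIp + bRho χ

private theorem bN_apply (c : ℝ) (χ : Fk n) (L M : Mat n) :
    bN c χ L M = c * ip L M - bRho χ L M := rfl

private theorem bP_apply (ε : ℝ) (χ : Fk n) (L M : Mat n) :
    bP ε χ L M = ε * ip L M + bRho χ L M := rfl

private theorem Hf_eq {χ : Fk n} (hχ : ‖χ‖ = 1) (c ε : ℝ) (N P : Fin m → Mat n) :
    Hf c ε N P χ = ∑ i, bN c χ (N i) (N i) + ∑ j, bP ε χ (P j) (P j) := by
  unfold Hf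
  simp only [bN_apply, bP_apply, bRho_self, Finset.sum_sub_distrib, Finset.sum_add_distrib,
    ← Finset.mul_sum, hχ]
  ring

theorem crit_orth (h : Crit c ε N P p ψ) (hc : 0 < c) (hε : 0 < ε) (i j : Fin m) :
    ip (N i) (P j) = 0 := by
  have hbal : ∀ s t : ℝ, s ^ 2 - t ^ 2 = 1 →
      Bal (Function.update N i (s • N i - t • P j)) (Function.update P j (s • P j - t • N i)) := by
    intro s t hst
    refine ⟨?_, ?_, ?_⟩
    · intro k
      by_cases hk : k = i
      · subst hk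
        rw [Function.update_self]
        exact skew_comb (h.bal.skN _) (h.bal.skP _) s t
      · rw [Function.update_of_ne hk]
        exact h.bal.skN k
    · intro k
      by_cases hk : k = j
      · subst hk
        rw [Function.update_self]
        exact skew_comb (h.bal.skP _) (h.bal.skN _) s t
      · rw [Function.update_of_ne hk]
        exact h.bal.skP k
    · intro f hf
      obtain ⟨b, hb⟩ := four_bil hf
      rw [sum_upd, sum_upd, h.bal.bal f hf,
        hb _ (skew_comb (h.bal.skN i) (h.bal.skP j) s t),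
        hb _ (skew_comb (h.bal.skP j) (h.bal.skN i) s t), bil_hyp, bil_hyp,
        hb _ (h.bal.skN i), hb _ (h.bal.skP j)]
      linear_combination (b (N i) (N i) - b (P j) (P j)) * hst
  have key : ∀ s t : ℝ, s ^ 2 - t ^ 2 = 1 →
      0 ≤ (c + ε) * (t ^ 2 * (ip (N i) (N i) + ip (P j) (P j)) - 2 * s * t * ip (N i) (P j)) := by
    intro s t hst
    have h1 := h.nonneg _ _ (hbal s t hst) ψ
    have h0 := h.zero
    rw [Hf_eq h.norm] at h1 h0
    rw [sum_upd (fun X => bN c ψ X X), sum_upd (fun X => bP ε ψ X X)] at h1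
    simp only [bil_hyp] at h1
    simp only [bN_apply, bP_apply] at h1 h0
    rw [ip_symm (P j) (N i)] at h1
    have h2 : bRho ψ (P j) (N i) = bRho ψ (N i) (P j) := by
      rw [bRho_apply, bRho_apply, qf, qf, real_inner_comm]
    rw [h2] at h1
    have hs : s ^ 2 = 1 + t ^ 2 := by linarith
    have e : (c + ε) * (t ^ 2 * (ip (N i) (N i) + ip (P j) (P j)) - 2 * s * t * ip (N i) (P j)) =
      (∑ k, (c * ip (N k) (N k) - bRho ψ (N k) (N k)) -
        (c * ip (N i) (N i) - bRho ψ (N i) (N i)) +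
          (s ^ 2 * (c * ip (N i) (N i) - bRho ψ (N i) (N i)) +
              t ^ 2 * (c * ip (P j) (P j) - bRho ψ (P j) (P j)) -
            s * t * (c * ip (N i) (P j) - bRho ψ (N i) (P j) +
              (c * ip (N i) (P j) - bRho ψ (N i) (P j)))) +
        (∑ k, (ε * ip (P k) (P k) + bRho ψ (P k) (P k)) -
            (ε * ip (P j) (P j) + bRho ψ (P j) (P j)) +
          (s ^ 2 * (ε * ip (P j) (P j) + bRho ψ (P j) (P j)) +
              t ^ 2 * (ε * ip (N i) (N i) + bRho ψ (N i) (N i)) -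
            s * t * (ε * ip (N i) (P j) + bRho ψ (N i) (P j) +
              (ε * ip (N i) (P j) + bRho ψ (N i) (P j)))))) -
      (∑ i, (c * ip (N i) (N i) - bRho ψ (N i) (N i)) +
        ∑ j, (ε * ip (P j) (P j) + bRho ψ (P j) (P j))) := by
      rw [hs]
      ring
    rw [e, h0, sub_zero]
    exact h1
  have hce : 0 < c + ε := by linarith
  have key2 : ∀ s t : ℝ, s ^ 2 - t ^ 2 = 1 →
      0 ≤ t ^ 2 * (ip (N i) (N i) + ip (P j) (P j)) - 2 * s * t * ip (N i) (P j) := by
    intro s t hst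
    have h1 := key s t hst
    by_contra hcon
    push Not at hcon
    have := mul_neg_of_pos_of_neg hce hcon
    linarith
  set a := ip (N i) (N i) + ip (P j) (P j) with ha
  have ha0 : 0 ≤ a := add_nonneg (ip_self_nonneg _) (ip_self_nonneg _)
  set q := ip (N i) (P j) with hq
  by_contra hne
  have ha1 : 0 < a + 1 := by linarith
  set t := q / (a + 1) with ht
  have hta : t * (a + 1) = q := by
    rw [ht]
    field_simp
  have hs1 : 1 ≤ √(1 + t ^ 2) := by
    rw [Real.one_le_sqrt]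
    nlinarith [sq_nonneg t]
  have h1 := key2 (√(1 + t ^ 2)) t (by
    rw [Real.sq_sqrt (by positivity)]
    ring)
  have ht0 : t ≠ 0 := by
    intro h0
    rw [h0, zero_mul] at hta
    exact hne hta.symm
  have ht2 : 0 < t ^ 2 := by positivity
  have h2 : t * q = t ^ 2 * (a + 1) := by
    rw [← hta]
    ring
  have h3 : 2 * √(1 + t ^ 2) * t * q = 2 * √(1 + t ^ 2) * (t ^ 2 * (a + 1)) := by
    rw [← h2]
    ring
  rw [h3] at h1
  have h4 : t ^ 2 * (a + 1) ≤ √(1 + t ^ 2) * (t ^ 2 * (a + 1)) :=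
    le_mul_of_one_le_left (by positivity) hs1
  nlinarith [mul_nonneg ht2.le ha0]

theorem crit_bilin (h : Crit c ε N P p ψ) (η : Fk n) :
    (c * ∑ i, ip (N i) (N i) + ε * ∑ j, ip (P j) (P j)) * inner ℝ ψ η
      - ∑ i, inner ℝ (rho (N i) ψ) (rho (N i) η) + ∑ j, inner ℝ (rho (P j) ψ) (rho (P j) η) = 0 := by
  set K : ℝ := c * ∑ i, ip (N i) (N i) + ε * ∑ j, ip (P j) (P j) with hK
  have hN : ∀ (L : Mat n) (t : ℝ), ‖rho L (ψ + t • η)‖ ^ 2 = ‖rho L ψ‖ ^ 2 +
      t * (2 * inner ℝ (rho L ψ) (rho L η)) + t ^ 2 * ‖rho L η‖ ^ 2 := by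
    intro L t
    rw [map_add, map_smul, norm_add_sq_real, real_inner_smul_right, norm_smul, mul_pow,
      Real.norm_eq_abs, sq_abs]
    ring
  have hn : ∀ t : ℝ, ‖ψ + t • η‖ ^ 2 = ‖ψ‖ ^ 2 + t * (2 * inner ℝ ψ η) + t ^ 2 * ‖η‖ ^ 2 := by
    intro t
    rw [norm_add_sq_real, real_inner_smul_right, norm_smul, mul_pow, Real.norm_eq_abs, sq_abs]
    ring
  have h0 := h.zero
  have hp : ∀ t : ℝ, 0 ≤ t * (2 * (K * inner ℝ ψ η
      - ∑ i, inner ℝ (rho (N i) ψ) (rho (N i) η) + ∑ j, inner ℝ (rho (P j) ψ) (rho (P j) η))) +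
      t ^ 2 * (K * ‖η‖ ^ 2 - ∑ i, ‖rho (N i) η‖ ^ 2 + ∑ j, ‖rho (P j) η‖ ^ 2) +
      t ^ 3 * 0 + t ^ 4 * 0 := by
    intro t
    have h1 := h.nonneg N P h.bal (ψ + t • η)
    unfold Hf at h1 h0
    rw [← hK] at h1 h0
    simp only [hN, hn, Finset.sum_add_distrib, ← Finset.mul_sum] at h1
    refine le_of_le_of_eq h1 ?_
    linear_combination h0
  have h1 := poly_zero hp
  linarith

theorem crit_marg (h : Crit c ε N P p ψ) {S : Mat n} (hS : S.transpose = S) :
    KK ψ S P - KK ψ S N = (c - 1) * (S * X1 N).trace + (1 + ε) * (S * X1 P).trace := by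
  have hsk : ∀ (t : ℝ) {L : Mat n}, Skew L →
      Skew ((1 + t • S) * L * (1 + t • S).transpose) := by
    intro t L hL
    have hLt : L.transpose = -L := by
      ext i j
      rw [Matrix.transpose_apply, Matrix.neg_apply]
      exact hL i j
    have : ((1 + t • S) * L * (1 + t • S).transpose).transpose =
        -((1 + t • S) * L * (1 + t • S).transpose) := by
      rw [Matrix.transpose_mul, Matrix.transpose_mul, Matrix.transpose_transpose, hLt]
      noncomm_ring
    intro i j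
    have h1 := congrFun (congrFun this i) j
    rw [Matrix.transpose_apply, Matrix.neg_apply] at h1
    exact h1
  have hexp : ∀ (t : ℝ) (L : Mat n), (1 + t • S) * L * (1 + t • S).transpose =
      L + t • ac S L + t ^ 2 • (S * L * S) := by
    intro t L
    rw [Matrix.transpose_add, Matrix.transpose_one, Matrix.transpose_smul, hS, ac]
    simp only [add_mul, mul_add, one_mul, mul_one, Matrix.smul_mul, Matrix.mul_smul, smul_add,
      smul_smul, Matrix.mul_assoc, sq]
    abel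
  have hb : ∀ t : ℝ, Bal (fun i => N i + t • ac S (N i) + t ^ 2 • (S * N i * S))
      (fun j => P j + t • ac S (P j) + t ^ 2 • (S * P j * S)) := by
    intro t
    refine ⟨fun i => ?_, fun j => ?_, fun f hf => ?_⟩
    · rw [← hexp]
      exact hsk t (h.bal.skN i)
    · rw [← hexp]
      exact hsk t (h.bal.skP j)
    · have := h.bal.bal _ (hf.pull (1 + t • S))
      simpa only [hexp] using this
  -- first condition
  have h0 := h.zero
  rw [Hf_eq h.norm] at h0
  have hp : ∀ t : ℝ, 0 ≤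
      t * (∑ i, (bN c ψ (N i) (ac S (N i)) + bN c ψ (ac S (N i)) (N i)) +
        ∑ j, (bP ε ψ (P j) (ac S (P j)) + bP ε ψ (ac S (P j)) (P j))) +
      t ^ 2 * (∑ i, (bN c ψ (N i) (S * N i * S) + bN c ψ (S * N i * S) (N i) +
          bN c ψ (ac S (N i)) (ac S (N i))) +
        ∑ j, (bP ε ψ (P j) (S * P j * S) + bP ε ψ (S * P j * S) (P j) +
          bP ε ψ (ac S (P j)) (ac S (P j)))) +
      t ^ 3 * (∑ i, (bN c ψ (ac S (N i)) (S * N i * S) + bN c ψ (S * N i * S) (ac S (N i))) +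
        ∑ j, (bP ε ψ (ac S (P j)) (S * P j * S) + bP ε ψ (S * P j * S) (ac S (P j)))) +
      t ^ 4 * (∑ i, bN c ψ (S * N i * S) (S * N i * S) +
        ∑ j, bP ε ψ (S * P j * S) (S * P j * S)) := by
    intro t
    have h1 := h.nonneg _ _ (hb t) ψ
    rw [Hf_eq h.norm, sum_exp, sum_exp] at h1
    refine le_of_le_of_eq h1 ?_
    linear_combination h0
  have c1 := poly_zero hp
  -- the 4-form
  have h4 := four_kf h.deg h.norm
  set bF : Mat n →ₗ[ℝ] Mat n →ₗ[ℝ] ℝ := bRho ψ + bHop ψ - bIp with hbF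
  have hbFa : ∀ L M : Mat n, bF L M = qf ψ L M + kf ψ L M - ip L M := fun L M => rfl
  have hq : ∀ t : ℝ, 0 ≤
      t * (∑ i, (bF (N i) (ac S (N i)) + bF (ac S (N i)) (N i)) -
        ∑ j, (bF (P j) (ac S (P j)) + bF (ac S (P j)) (P j))) +
      t ^ 2 * (∑ i, (bF (N i) (S * N i * S) + bF (S * N i * S) (N i) +
          bF (ac S (N i)) (ac S (N i))) -
        ∑ j, (bF (P j) (S * P j * S) + bF (S * P j * S) (P j) +
          bF (ac S (P j)) (ac S (P j)))) +
      t ^ 3 * (∑ i, (bF (ac S (N i)) (S * N i * S) + bF (S * N i * S) (ac S (N i))) -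
        ∑ j, (bF (ac S (P j)) (S * P j * S) + bF (S * P j * S) (ac S (P j)))) +
      t ^ 4 * (∑ i, bF (S * N i * S) (S * N i * S) -
        ∑ j, bF (S * P j * S) (S * P j * S)) := by
    intro t
    have h1 := (hb t).bal _ h4
    have h2 := h.bal.bal _ h4
    simp only [← hbFa] at h1 h2
    rw [sum_exp, sum_exp] at h1
    refine le_of_eq ?_
    linear_combination h2 - h1
  have c2 := poly_zero hq
  -- symmetry
  have e1 : ∀ L M : Mat n, ip M L = ip L M := fun L M => ip_symm M L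
  have e2 : ∀ L M : Mat n, qf ψ M L = qf ψ L M := fun L M => by
    unfold qf
    rw [real_inner_comm]
  have e3 : ∀ L M : Mat n, kf ψ M L = kf ψ L M := fun L M => by
    unfold kf
    rw [real_inner_comm]
  simp only [bN_apply, bP_apply, bRho_apply, Finset.sum_add_distrib, Finset.sum_sub_distrib,
    ← Finset.mul_sum] at c1
  simp only [hbFa, Finset.sum_add_distrib, Finset.sum_sub_distrib] at c2
  have tr : ∀ (L : Fin m → Mat n), (∀ i, Skew (L i)) →
      ∑ i, ip (L i) (ac S (L i)) = (S * X1 L).trace := by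
    intro L hL
    rw [X1, mul_neg, Matrix.trace_neg, Finset.mul_sum, Matrix.trace_sum, ← Finset.sum_neg_distrib]
    refine Finset.sum_congr rfl fun i _ => ?_
    have hLt : (L i).transpose = -(L i) := by
      ext a b
      rw [Matrix.transpose_apply, Matrix.neg_apply]
      exact hL i a b
    rw [ip_eq_trace, hLt, ac, neg_mul, Matrix.trace_neg, mul_add, Matrix.trace_add,
      Matrix.trace_mul_comm (L i) (S * L i), Matrix.trace_mul_comm (L i) (L i * S),
      Matrix.mul_assoc, Matrix.mul_assoc, Matrix.trace_mul_comm (L i) (S * L i),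
      Matrix.mul_assoc]
    ring
  have trN := tr N h.bal.skN
  have trP := tr P h.bal.skP
  rw [← trN, ← trP]
  unfold KK
  have s1 : ∑ i, ip (ac S (N i)) (N i) = ∑ i, ip (N i) (ac S (N i)) :=
    Finset.sum_congr rfl fun i _ => e1 _ _
  have s2 : ∑ i, qf ψ (ac S (N i)) (N i) = ∑ i, qf ψ (N i) (ac S (N i)) :=
    Finset.sum_congr rfl fun i _ => e2 _ _
  have s3 : ∑ i, kf ψ (ac S (N i)) (N i) = ∑ i, kf ψ (N i) (ac S (N i)) :=
    Finset.sum_congr rfl fun i _ => e3 _ _
  have s4 : ∑ i, ip (ac S (P i)) (P i) = ∑ i, ip (P i) (ac S (P i)) :=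
    Finset.sum_congr rfl fun i _ => e1 _ _
  have s5 : ∑ i, qf ψ (ac S (P i)) (P i) = ∑ i, qf ψ (P i) (ac S (P i)) :=
    Finset.sum_congr rfl fun i _ => e2 _ _
  have s6 : ∑ i, kf ψ (ac S (P i)) (P i) = ∑ i, kf ψ (P i) (ac S (P i)) :=
    Finset.sum_congr rfl fun i _ => e3 _ _
  rw [s1, s2, s4, s5] at c1
  rw [s1, s2, s3, s4, s5, s6] at c2
  rw [s3, s6]
  linarith

end HopfQ4
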