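import Pool.Agent.Lib.MP_4a593f_gt.Q4.Cl
import Pool.Agent.Lib.MP_4a593f_gt.Q4.First

/-! Tasks Hf1 (bal_bilin, G_B, G_A), Hf2 (hform, hform_sum): the test vectors `hop L ψ`.

`bal_bilin`: polarise `four_form` (Big/G5; it needs unit vectors, scale), with
`⟨wdg χ, wdg η⟩ + ⟨ctr χ, ctr η⟩ = (1/2)(⟨hop χ, hop η⟩ + ⟨hopB χ, hopB η⟩)`.
`G_B`, `G_A` (write `A = hop L`, `B = hopB r`, `S = Ss (ac r L)`, `A' = hop r`, `ρ' = rho (br r L)`):
`BA = AB + S`, `A` skew-adjoint, `B`, `S` self-adjoint: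
`‖BAψ‖² + ⟨BA²ψ, Bψ⟩ = ⟨BAψ, BAψ - ABψ⟩ + ⟨SAψ, Bψ⟩ = ⟨ABψ + Sψ, Sψ⟩ + ⟨ASψ, Bψ⟩ + ⟨[S,A]ψ, Bψ⟩
= ‖Sψ‖² + ⟨[S,A]ψ, Bψ⟩`; similarly `A'A = AA' + ρ'` and
`‖A'Aψ‖² + ⟨A'A²ψ, A'ψ⟩ = ‖ρ'ψ‖² + ⟨[ρ',A]ψ, A'ψ⟩`.
`hform`: by `crit_bilin` + `bal_bilin` the form `b(χ,η) = μ⟨χ,η⟩ + (1/2)∑_N(⟨hop χ,hop η⟩ +
⟨hopB χ,hopB η⟩) - (1/2)∑_P(...)` (`μ = (c-1)∑|N|² + (1+ε)∑|P|²`) satisfies `b(ψ,·) = 0`,
`b(χ,χ) = Hf c ε N P χ ≥ 0`.  Take `0 ≤ b(Aψ,Aψ) + b(A²ψ,ψ)`; the `μ`-terms cancel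
(`⟨A²ψ,ψ⟩ = -‖Aψ‖²`), the rest is `(1/2)∑(G_B + G_A)`, and
`⟨hopB X ψ, hopB Y ψ⟩ = kf ψ X Y` (`inner_hopB_hopB`),
`ac (ac r L) L + br (br r L) L = 2 ac (L*L) r`. -/

open scoped BigOperators

namespace HopfQ4

open HopfBig HopfN2

variable {n m p : ℕ} {c ε : ℝ} {N P : Fin m → Mat n} {ψ : Fk n}

/-- the single term of `bal_bilin` -/
private noncomputable def tm (L : Mat n) (χ η : Fk n) : ℝ :=
  inner ℝ (rho L χ) (rho L η) + (1 / 2) * (inner ℝ (hop L χ) (hop L η) +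
    inner ℝ (hopB L χ) (hopB L η)) - ip L L * inner ℝ χ η

private theorem tm_add (L : Mat n) (χ η : Fk n) :
    tm L (χ + η) (χ + η) = tm L χ χ + 2 * tm L χ η + tm L η η := by
  unfold tm
  rw [map_add, map_add, map_add, real_inner_add_add_self, real_inner_add_add_self,
    real_inner_add_add_self, real_inner_add_add_self]
  ring

private theorem tm_smul (L : Mat n) (c : ℝ) (χ : Fk n) :
    tm L (c • χ) (c • χ) = c ^ 2 * tm L χ χ := by
  unfold tm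
  rw [map_smul, map_smul, map_smul]
  simp only [real_inner_smul_left, real_inner_smul_right]
  ring

private theorem tm_eq (L : Mat n) {χ : Fk n} (hχ : ‖χ‖ = 1) :
    tm L χ χ = inner ℝ (rho L χ) (rho L χ) +
      (inner ℝ (wdg L χ) (wdg L χ) + inner ℝ (ctr L χ) (ctr L χ)) - ip L L := by
  have h1 : hop L χ = wdg L χ - ctr L χ := rfl
  have h2 : hopB L χ = wdg L χ + ctr L χ := rfl
  have h3 : inner ℝ χ χ = (1 : ℝ) := by rw [real_inner_self_eq_norm_sq, hχ]; norm_num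
  unfold tm
  rw [h1, h2, real_inner_add_add_self, real_inner_sub_sub_self, h3]
  ring

private theorem tm_unit (h : Bal N P) {χ : Fk n} (hχ : ‖χ‖ = 1) :
    ∑ i, tm (N i) χ χ = ∑ j, tm (P j) χ χ := by
  simp only [tm_eq _ hχ]
  exact h.bal _ (four_form χ hχ)

private theorem tm_all (h : Bal N P) (χ : Fk n) :
    ∑ i, tm (N i) χ χ = ∑ j, tm (P j) χ χ := by
  rcases eq_or_ne χ 0 with h0 | h0
  · subst h0
    have : ∀ L : Mat n, tm L (0 : Fk n) 0 = 0 := by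
      intro L
      unfold tm
      simp
    simp only [this]
  · have hn : ‖χ‖ ≠ 0 := norm_ne_zero_iff.mpr h0
    have hu : ‖(‖χ‖⁻¹ • χ : Fk n)‖ = 1 := by
      rw [norm_smul, norm_inv, norm_norm, inv_mul_cancel₀ hn]
    have h1 := tm_unit h hu
    simp only [tm_smul, ← Finset.mul_sum] at h1
    have hc : (‖χ‖⁻¹) ^ 2 ≠ 0 := pow_ne_zero _ (inv_ne_zero hn)
    exact mul_left_cancel₀ hc h1

theorem bal_bilin (h : Bal N P) (χ η : Fk n) :
    ∑ i, (inner ℝ (rho (N i) χ) (rho (N i) η) + (1 / 2) * (inner ℝ (hop (N i) χ) (hop (N i) η) +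
      inner ℝ (hopB (N i) χ) (hopB (N i) η)) - ip (N i) (N i) * inner ℝ χ η) =
    ∑ j, (inner ℝ (rho (P j) χ) (rho (P j) η) + (1 / 2) * (inner ℝ (hop (P j) χ) (hop (P j) η) +
      inner ℝ (hopB (P j) χ) (hopB (P j) η)) - ip (P j) (P j) * inner ℝ χ η) := by
  change ∑ i, tm (N i) χ η = ∑ j, tm (P j) χ η
  have h1 := tm_all h (χ + η)
  have h2 := tm_all h χ
  have h3 := tm_all h η
  simp only [tm_add, Finset.sum_add_distrib, ← Finset.mul_sum] at h1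
  linarith

private theorem ac_symm {L r : Mat n} (hL : Skew L) (hr : Skew r) :
    (ac r L).transpose = ac r L := by
  have hL' : L.transpose = -L := by ext i j; exact hL i j
  have hr' : r.transpose = -r := by ext i j; exact hr i j
  unfold ac
  rw [Matrix.transpose_add, Matrix.transpose_mul, Matrix.transpose_mul, hL', hr']
  simp only [neg_mul_neg]
  exact add_comm _ _

private theorem br_sk {L r : Mat n} (hL : Skew L) (hr : Skew r) : Skew (br r L) := by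
  have hL' : L.transpose = -L := by ext i j; exact hL i j
  have hr' : r.transpose = -r := by ext i j; exact hr i j
  have h : (br r L).transpose = -(br r L) := by
    unfold br
    rw [Matrix.transpose_sub, Matrix.transpose_mul, Matrix.transpose_mul, hL', hr']
    simp only [neg_mul_neg, neg_sub]
  intro i j
  have := congrFun (congrFun h i) j
  simpa [Matrix.transpose_apply] using this

theorem G_B {L r : Mat n} (hL : Skew L) (hr : Skew r) (ψ : Fk n) :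
    ‖hopB r (hop L ψ)‖ ^ 2 + inner ℝ (hopB r (hop L (hop L ψ))) (hopB r ψ) =
      ‖Ss (ac r L) ψ‖ ^ 2 + inner ℝ (hopB (ac (ac r L) L) ψ) (hopB r ψ) := by
  have c1 : hopB r (hop L ψ) = hop L (hopB r ψ) + Ss (ac r L) ψ := by
    rw [← hopB_hop hr hL ψ]; abel
  have c2 : hopB r (hop L (hop L ψ)) = hop L (hopB r (hop L ψ)) + Ss (ac r L) (hop L ψ) := by
    rw [← hopB_hop hr hL (hop L ψ)]; abel
  have c3 : Ss (ac r L) (hop L ψ) = hop L (Ss (ac r L) ψ) + hopB (ac (ac r L) L) ψ := by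
    rw [← Ss_hop (ac_symm hL hr) hL ψ]; abel
  have e2 : inner ℝ (hop L (Ss (ac r L) ψ)) (hopB r ψ) =
      -inner ℝ (Ss (ac r L) ψ) (hop L (hopB r ψ)) := hop_skew L _ _
  have e1 : inner ℝ (hop L (hopB r (hop L ψ))) (hopB r ψ) =
      -inner ℝ (hopB r (hop L ψ)) (hop L (hopB r ψ)) := hop_skew L _ _
  rw [c2, inner_add_left, e1, c3, inner_add_left, e2, c1, ← real_inner_self_eq_norm_sq,
    ← real_inner_self_eq_norm_sq, real_inner_add_add_self, inner_add_left,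
    real_inner_comm (Ss (ac r L) ψ) (hop L (hopB r ψ))]
  ring

theorem G_A {L r : Mat n} (hL : Skew L) (hr : Skew r) (ψ : Fk n) :
    ‖hop r (hop L ψ)‖ ^ 2 + inner ℝ (hop r (hop L (hop L ψ))) (hop r ψ) =
      ‖rho (br r L) ψ‖ ^ 2 + inner ℝ (hop (br (br r L) L) ψ) (hop r ψ) := by
  have c1 : hop r (hop L ψ) = hop L (hop r ψ) + rho (br r L) ψ := by
    rw [← hop_lie2 hr hL ψ]; abel
  have c2 : hop r (hop L (hop L ψ)) = hop L (hop r (hop L ψ)) + rho (br r L) (hop L ψ) := by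
    rw [← hop_lie2 hr hL (hop L ψ)]; abel
  have c3 : rho (br r L) (hop L ψ) = hop L (rho (br r L) ψ) + hop (br (br r L) L) ψ := by
    rw [← hop_lie1 (br_sk hL hr) hL ψ]; abel
  have e2 : inner ℝ (hop L (rho (br r L) ψ)) (hop r ψ) =
      -inner ℝ (rho (br r L) ψ) (hop L (hop r ψ)) := hop_skew L _ _
  have e1 : inner ℝ (hop L (hop r (hop L ψ))) (hop r ψ) =
      -inner ℝ (hop r (hop L ψ)) (hop L (hop r ψ)) := hop_skew L _ _
  rw [c2, inner_add_left, e1, c3, inner_add_left, e2, c1, ← real_inner_self_eq_norm_sq,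
    ← real_inner_self_eq_norm_sq, real_inner_add_add_self, inner_add_left,
    real_inner_comm (rho (br r L) ψ) (hop L (hop r ψ))]
  ring

end HopfQ4
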