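import Pool.Agent.Lib.MP_4a593f_gt.Q4.Wt
import Pool.Agent.Lib.MP_4a593f_gt.N2.T1

/-! `k`-positive curvature operators, `C k ≤ p (n - p)`. -/

open scoped BigOperators

namespace HopfQ4

open HopfBig

theorem main_kpos {n p k : ℕ} {C : ℝ} (hC3 : 3 ≤ C)
    (hCn : (n : ℝ) * (4 - C) ≤ 2 * C * (C - 3))
    (hk : C * (k : ℝ) ≤ p * ((n : ℝ) - p))
    {R : Fin n → Fin n → Fin n → Fin n → ℝ} (hR : IsCurvature R) (hKP : KPositive R k)
    {φ : (Fin p → Fin n) → ℝ} (hφ : IsForm φ) (hφ0 : φ ≠ 0) : 0 < bochner R φ := by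
  rcases k with _ | m
  · exfalso
    have h := hKP (fun i => i.elim0) (fun i => i.elim0) (fun i => i.elim0)
    simp at h
  have hm0 : (0 : ℝ) ≤ m := Nat.cast_nonneg m
  have hpos : 0 < (p : ℝ) * ((n : ℝ) - p) := by
    refine lt_of_lt_of_le ?_ hk
    push_cast
    nlinarith
  have hp0 : (0 : ℝ) < p := by
    rcases Nat.eq_zero_or_pos p with h | h
    · subst h; simp at hpos
    · exact_mod_cast h
  have hnp : 0 < (n : ℝ) - p := (mul_pos_iff_of_pos_left hp0).1 hpos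
  have hsq : (p : ℝ) * ((n : ℝ) - p) ≤ n ^ 2 / 4 := by nlinarith [sq_nonneg ((n : ℝ) - 2 * p)]
  have hkn : 12 * ((m : ℝ) + 1) ≤ (n : ℝ) ^ 2 := by
    push_cast at hk
    nlinarith
  have hkn' : 12 * (m + 1) ≤ n ^ 2 := by exact_mod_cast hkn
  have hn4 : 4 ≤ n := by
    by_contra hcon
    push Not at hcon
    have : n ^ 2 ≤ 3 ^ 2 := Nat.pow_le_pow_left (by omega) 2
    omega
  have hkm : m + 1 ≤ n * (n - 1) / 2 := by
    rw [Nat.le_div_iff_mul_le (by norm_num)]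
    obtain ⟨q, rfl⟩ : ∃ q, n = q + 1 := ⟨n - 1, by omega⟩
    simp only [Nat.add_sub_cancel]
    nlinarith
  obtain ⟨κ, hκ, hfam⟩ := HopfN2.ky_fan hkm hR hKP
  have h := main_weighted (m := m) (t := 1) (κ := κ) hC3 hCn zero_le_one le_rfl (by positivity)
    (by push_cast at hk; linarith) hR (fun ω h1 h2 => by
      have h3 := hfam ω h1 h2
      rw [Fin.sum_univ_castSucc] at h3
      push_cast at h3
      linarith) hφ
  have hex : ∃ I, φ I ≠ 0 := by
    by_contra hcon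
    push Not at hcon
    exact hφ0 (funext hcon)
  obtain ⟨I, hI⟩ := hex
  have hsum : 0 < ∑ I, φ I ^ 2 :=
    Finset.sum_pos' (fun J _ => sq_nonneg _) ⟨I, Finset.mem_univ I, by positivity⟩
  exact lt_of_lt_of_le (by positivity) h

end HopfQ4
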