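import Pool.Agent.Lib.MP_4a593f_gt.Q4.Defs

/-! Task Lq: Clifford multiplication `lq a = cr a - an a`.

`lq_adj`, `lq_lq` from `inner_an`, `inner_cr`, `an_an`, `cr_cr`, `an_cr` (Big/G1).
`lop`: `(1/2) ∑ L_ab lq_a lq_b = hop L - ρ_L` for skew `L`.
`lcontr`: `∑_a ⟨∑_b A_ab lq_b x, ∑_c B_ac lq_c y⟩ = -∑_bc (AᵀB)_bc ⟨x, lq_b lq_c y⟩`; the symmetric
part of `AᵀB` gives `tr(AᵀB) ⟨x,y⟩`, the skew part `-2 ⟨x, (hop - ρ)_{skew part} y⟩`.
All identities were checked numerically. -/

open scoped BigOperators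

namespace HopfQ4

open HopfBig HopfN2

variable {n : ℕ}

private theorem lq_apply (a : Fin n) (f : Fk n) : lq a f = cr a f - an a f := rfl

theorem lq_adj (a : Fin n) (f g : Fk n) : inner ℝ (lq a f) g = -inner ℝ f (lq a g) := by
  rw [lq_apply, lq_apply, inner_sub_left, inner_sub_right, inner_cr, inner_an]
  ring

private theorem lq_lq_apply (a b : Fin n) (f : Fk n) :
    lq a (lq b f) = cr a (cr b f) - cr a (an b f) - (if a = b then f else 0) + cr b (an a f)
      - an b (an a f) := by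
  rw [lq_apply, lq_apply, map_sub, map_sub, an_cr, an_an a b]
  abel

theorem lq_lq (a b : Fin n) (f : Fk n) :
    lq a (lq b f) + lq b (lq a f) = if a = b then (-2 : ℝ) • f else 0 := by
  rw [lq_lq_apply, lq_lq_apply, cr_cr b a, an_an a b]
  by_cases h : a = b
  · subst h
    simp only [if_true]
    rw [neg_smul, two_smul]
    abel
  · rw [if_neg h, if_neg (fun h' => h h'.symm), if_neg h]
    abel

private theorem wdg_ap (L : Mat n) (f : Fk n) :
    wdg L f = (1 / 2 : ℝ) • ∑ a, ∑ b, L a b • cr a (cr b f) := by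
  simp only [wdg, LinearMap.coe_mk, AddHom.coe_mk, LinearMap.smul_apply,
    LinearMap.sum_apply, LinearMap.comp_apply]

private theorem ctr_ap (L : Mat n) (f : Fk n) :
    ctr L f = (1 / 2 : ℝ) • ∑ a, ∑ b, L a b • an b (an a f) := by
  simp only [ctr, LinearMap.coe_mk, AddHom.coe_mk, LinearMap.smul_apply,
    LinearMap.sum_apply, LinearMap.comp_apply]

private theorem rho_ap (L : Mat n) (f : Fk n) :
    rho L f = ∑ a, ∑ b, L a b • cr a (an b f) := by
  simp only [rho, LinearMap.coe_mk, AddHom.coe_mk, LinearMap.smul_apply,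
    LinearMap.sum_apply, LinearMap.comp_apply]

theorem lop {L : Mat n} (hL : Skew L) (f : Fk n) :
    (1 / 2 : ℝ) • ∑ a, ∑ b, L a b • lq a (lq b f) = hop L f - rho L f := by
  have hd : ∀ a, L a a = 0 := fun a => by
    have := hL a a
    linarith
  have h1 : ∑ a, ∑ b, L a b • lq a (lq b f) =
      ∑ a, ∑ b, L a b • cr a (cr b f) - ∑ a, ∑ b, L a b • cr a (an b f)
        + ∑ a, ∑ b, L a b • cr b (an a f) - ∑ a, ∑ b, L a b • an b (an a f) := by
    simp only [← Finset.sum_sub_distrib, ← Finset.sum_add_distrib]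
    refine Finset.sum_congr rfl fun a _ => Finset.sum_congr rfl fun b _ => ?_
    rw [lq_lq_apply]
    by_cases h : a = b
    · subst h
      rw [hd]
      simp
    · rw [if_neg h, sub_zero, smul_sub, smul_add, smul_sub]
  have h2 : ∑ a, ∑ b, L a b • cr b (an a f) = -∑ a, ∑ b, L a b • cr a (an b f) := by
    rw [Finset.sum_comm, ← Finset.sum_neg_distrib]
    refine Finset.sum_congr rfl fun a _ => ?_
    rw [← Finset.sum_neg_distrib]
    refine Finset.sum_congr rfl fun b _ => ?_
    rw [hL a b, neg_smul]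
  rw [h1, h2, hop_apply, wdg_ap, ctr_ap, rho_ap]
  module

private theorem sum_sym {V : Type*} [AddCommGroup V] [Module ℝ V] (C : Mat n)
    (T : Fin n → Fin n → V) :
    ∑ a, ∑ b, C a b • T a b = ∑ a, ∑ b, ((1 / 2 : ℝ) • (C - C.transpose)) a b • T a b
      + (1 / 2 : ℝ) • ∑ a, ∑ b, C a b • (T a b + T b a) := by
  have h1 : ∑ a, ∑ b, C b a • T a b = ∑ a, ∑ b, C a b • T b a := Finset.sum_comm
  have h2 : ∑ a, ∑ b, ((1 / 2 : ℝ) • (C - C.transpose)) a b • T a b =
      (1 / 2 : ℝ) • (∑ a, ∑ b, C a b • T a b - ∑ a, ∑ b, C b a • T a b) := by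
    rw [← Finset.sum_sub_distrib, Finset.smul_sum]
    refine Finset.sum_congr rfl fun a _ => ?_
    rw [← Finset.sum_sub_distrib, Finset.smul_sum]
    refine Finset.sum_congr rfl fun b _ => ?_
    rw [← sub_smul, smul_smul]
    rfl
  have h3 : ∑ a, ∑ b, C a b • (T a b + T b a) =
      ∑ a, ∑ b, C a b • T a b + ∑ a, ∑ b, C a b • T b a := by
    simp only [smul_add, Finset.sum_add_distrib]
  rw [h2, h3, h1]
  module

private theorem lgen (C : Mat n) (y : Fk n) :
    ∑ b, ∑ c, C b c • lq b (lq c y) =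
      (2 : ℝ) • (hop ((1 / 2 : ℝ) • (C - C.transpose)) y -
        rho ((1 / 2 : ℝ) • (C - C.transpose)) y) - C.trace • y := by
  have hK : Skew ((1 / 2 : ℝ) • (C - C.transpose)) := by
    intro i j
    simp only [Matrix.smul_apply, Matrix.sub_apply, Matrix.transpose_apply, smul_eq_mul]
    ring
  have h1 : ∑ a, ∑ b, C a b • (lq a (lq b y) + lq b (lq a y)) = (-2 * C.trace) • y := by
    have h2 : ∀ a, ∑ b, C a b • (lq a (lq b y) + lq b (lq a y)) = C a a • ((-2 : ℝ) • y) := by
      intro a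
      rw [Finset.sum_eq_single a]
      · rw [lq_lq, if_pos rfl]
      · intro b _ hb
        rw [lq_lq, if_neg (fun h => hb h.symm), smul_zero]
      · intro h
        exact absurd (Finset.mem_univ a) h
    rw [Finset.sum_congr rfl fun a _ => h2 a, ← Finset.sum_smul, smul_smul]
    congr 1
    rw [Matrix.trace]
    simp only [Matrix.diag_apply]
    ring
  rw [sum_sym C (fun a b => lq a (lq b y)), h1, ← lop hK y]
  module

theorem lcontr (A B : Mat n) (x y : Fk n) :
    ∑ a, inner ℝ (∑ b, A a b • lq b x) (∑ b, B a b • lq b y) =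
      (A.transpose * B).trace * inner ℝ x y -
        2 * inner ℝ x (hop ((1 / 2 : ℝ) • (A.transpose * B - (A.transpose * B).transpose)) y -
          rho ((1 / 2 : ℝ) • (A.transpose * B - (A.transpose * B).transpose)) y) := by
  have h1 : ∑ a, inner ℝ (∑ b, A a b • lq b x) (∑ b, B a b • lq b y) =
      -inner ℝ x (∑ b, ∑ c, (A.transpose * B) b c • lq b (lq c y)) := by
    simp only [sum_inner, inner_sum, real_inner_smul_left, real_inner_smul_right, lq_adj,
      Matrix.mul_apply, Matrix.transpose_apply, Finset.sum_mul]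
    conv_rhs => rw [Finset.sum_comm]
    rw [Finset.sum_comm, ← Finset.sum_neg_distrib]
    refine Finset.sum_congr rfl fun b _ => ?_
    rw [Finset.sum_comm, ← Finset.sum_neg_distrib]
    refine Finset.sum_congr rfl fun c _ => ?_
    rw [← Finset.sum_neg_distrib]
    refine Finset.sum_congr rfl fun a _ => ?_
    ring
  rw [h1, lgen, inner_sub_right, real_inner_smul_right, real_inner_smul_right]
  ring

end HopfQ4
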