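import Pool.Agent.Lib.MP_4a593f_gt.Q4.Lq
import Pool.Agent.Lib.MP_4a593f_gt.Q4.First

/-! Tasks Star1 (bianchi, lW), Star2 (normW), Star3 (star0): the vectors `W_a = ∑_i ∑_b (N_i)_ab lq_b (hop N_i ψ) - ∑_j ∑_b (P_j)_ab lq_b (hop P_j ψ)`.

Write `∑_r r ω_r ⊗ ω_r` for `∑ N_i ⊗ N_i - ∑ P_j ⊗ P_j` (a Bianchi tensor).
`lW` (`S` symmetric): `lcontr` with `A = S`, `B = ω`: `tr(Sω) = 0`, skew part of `Sω` is
`(1/2)(Sω+ωS)`; `⟨ψ, ρ_T hop ω ψ⟩ = 0` (`inner_rho_hop`), `hop_skew`.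
`normW`: `lcontr` with `A = ω`, `B = ω'`: `ωᵀω' = -ωω'`, trace `2⟨ω,ω'⟩`, skew part `-(1/2)[ω,ω']`;
`inner_hop3`; so `∑_a ‖W_a‖² = ∑_{rr'} r r' (2⟨ω,ω'⟩ kf(ω,ω') - ⟨hop ω ψ, ρ_{[ω,ω']} hop ω' ψ⟩)`.  Then
`ρ_M hop ω' = hop ω' ρ_M + hop [M,ω']` (`hop_lie1`); the first part, antisymmetrised in `(ω,ω')`, gives
`-(1/2)∑ r r' ‖ρ_{[ω,ω']}ψ‖²` (`hop_lie2`).  Left: `∑ r r'(2⟨ω,ω'⟩ kf(ω,ω') - kf(ω,[[ω,ω'],ω']))`, and
`[[ω,ω'],ω'] = ωω'² - 2ω'ωω' + ω'²ω`, with `∑ r' ω'² = -(X1 N - X1 P)` and, by `bianchi`,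
`∑ r' ω' ω ω' = -∑ r' ⟨ω,ω'⟩ ω'`.
`bianchi`: `R_abcd = ∑ r ω_ab ω_cd` satisfies the first Bianchi identity (test `Bal.bal` with the
4-forms `t = ` antisymmetrisation of `e_a⊗e_b⊗e_c⊗e_d`, or `four_wedge` polarised).
`star0`: Cauchy-Schwarz `0 ≤ ∑_a ‖W_a + ∑_b C_ab lq_b ψ‖²` with `∑_a ‖∑_b C_ab lq_b ψ‖² = tr C²`
(`lcontr`), `∑_a ⟨∑_b C_ab lq_b ψ, W_a⟩ = KK ψ C N - KK ψ C P = -tr C²` (`crit_marg`), and
`KK ψ R1 N - KK ψ R1 P = -tr(R1 C)`. -/

open scoped BigOperators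

namespace HopfQ4

open HopfBig HopfN2

variable {n m p : ℕ} {c ε : ℝ} {N P : Fin m → Mat n} {ψ : Fk n}

/-- the vectors `W_a` -/
noncomputable def Wv (N P : Fin m → Mat n) (ψ : Fk n) (a : Fin n) : Fk n :=
  ∑ i, ∑ b, N i a b • lq b (hop (N i) ψ) - ∑ j, ∑ b, P j a b • lq b (hop (P j) ψ)

private theorem skew_mul3 {A L : Mat n} (hA : Skew A) (hL : Skew L) : Skew (A * L * A) := by
  apply skew_of_transpose
  rw [Matrix.transpose_mul, Matrix.transpose_mul, hA.transpose, hL.transpose]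
  noncomm_ring

private theorem eq_zero_of_ip {Z : Mat n} (h : ip Z Z = 0) : Z = 0 := by
  have h1 := two_ip_self Z
  rw [h, mul_zero] at h1
  have h2 : ∀ i ∈ Finset.univ, ∑ j, Z i j ^ 2 = 0 := by
    refine (Finset.sum_eq_zero_iff_of_nonneg fun i _ => ?_).1 h1.symm
    exact Finset.sum_nonneg fun _ _ => sq_nonneg _
  ext i j
  have h3 := (Finset.sum_eq_zero_iff_of_nonneg fun j _ => sq_nonneg (Z i j)).1
    (h2 i (Finset.mem_univ i)) j (Finset.mem_univ j)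
  exact pow_eq_zero_iff two_ne_zero |>.1 h3

private theorem wedge_fam {G L A : Mat n} (hG : Skew G) :
    ip G A * ip L A - (1 / 2) * ∑ i, (G * A * L * A) i i = ip G (ip A L • A + A * L * A) := by
  have h1 : ∑ i, (G * A * L * A) i i = -(2 * ip G (A * L * A)) := by
    rw [ip_eq_trace, hG.transpose, Matrix.neg_mul, Matrix.trace_neg]
    have : G * (A * L * A) = G * A * L * A := by noncomm_ring
    rw [this]
    show ∑ i, (G * A * L * A) i i = -(2 * (1 / 2 * -(G * A * L * A).trace))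
    rw [Matrix.trace]
    simp only [Matrix.diag_apply]
    ring
  rw [h1, ip_add_right, ip_smul_right, ip_symm A L]
  ring

theorem bianchi (h : Bal N P) {L : Mat n} (hL : Skew L) :
    ∑ i, N i * L * N i - ∑ j, P j * L * P j = ∑ j, ip (P j) L • P j - ∑ i, ip (N i) L • N i := by
  set Z : Mat n := (∑ i, (ip (N i) L • N i + N i * L * N i)) -
    ∑ j, (ip (P j) L • P j + P j * L * P j) with hZ
  have hZs : Skew Z := by
    refine Skew.sub (Skew.sum fun i => ?_) (Skew.sum fun j => ?_)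
    · exact (Skew.smul _ (h.skN i)).add (skew_mul3 (h.skN i) hL)
    · exact (Skew.smul _ (h.skP j)).add (skew_mul3 (h.skP j) hL)
  have hb := h.bal _ (four_wedge hZs hL)
  have e1 : ∑ i, (ip Z (N i) * ip L (N i) - (1 / 2) * ∑ k, (Z * N i * L * N i) k k) =
      ip Z (∑ i, (ip (N i) L • N i + N i * L * N i)) := by
    rw [ip_sum_right]
    exact Finset.sum_congr rfl fun i _ => wedge_fam hZs
  have e2 : ∑ j, (ip Z (P j) * ip L (P j) - (1 / 2) * ∑ k, (Z * P j * L * P j) k k) =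
      ip Z (∑ j, (ip (P j) L • P j + P j * L * P j)) := by
    rw [ip_sum_right]
    exact Finset.sum_congr rfl fun j _ => wedge_fam hZs
  rw [e1, e2] at hb
  have h0 : ip Z Z = 0 := by
    conv_lhs => rw [hZ]
    rw [← hZ, ip_sub_left, ip_symm, hb, ip_symm]
    rw [ip_symm _ Z, sub_self]
  have h1 := eq_zero_of_ip h0
  rw [hZ, Finset.sum_add_distrib, Finset.sum_add_distrib] at h1
  have h2 : ∀ a b c d : Mat n, a + b - (c + d) = 0 → b - d = c - a := by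
    intro a b c d h
    have : b - d = (a + b - (c + d)) + (c - a) := by abel
    rw [this, h, zero_add]
  exact h2 _ _ _ _ h1

private theorem lW_one (hd : Deg p ψ) {S A : Mat n} (hS : S.transpose = S) (hA : Skew A) :
    ∑ a, inner ℝ (∑ b, S a b • lq b ψ) (∑ b, A a b • lq b (hop A ψ)) = kf ψ (ac S A) A := by
  rw [lcontr, hS]
  have ht : (S * A).transpose = -(A * S) := by
    rw [Matrix.transpose_mul, hS, hA.transpose, Matrix.neg_mul]
  have htr : (S * A).trace = 0 := by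
    have h1 := Matrix.trace_transpose (S * A)
    rw [ht, Matrix.trace_neg, Matrix.trace_mul_comm A S] at h1
    linarith
  rw [htr, ht, sub_neg_eq_add, inner_sub_right, inner_rho_hop hd]
  have hh : hop ((1 / 2 : ℝ) • (S * A + A * S)) = (1 / 2 : ℝ) • hop (ac S A) := by
    unfold hop ac
    rw [map_smul, map_smul, smul_sub]
  rw [hh, LinearMap.smul_apply, real_inner_smul_right]
  unfold kf
  rw [hop_skew]
  ring

theorem lW (h : Bal N P) (hd : Deg p ψ) {S : Mat n} (hS : S.transpose = S) :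
    ∑ a, inner ℝ (∑ b, S a b • lq b ψ) (Wv N P ψ a) = KK ψ S N - KK ψ S P := by
  unfold Wv KK
  have e1 : ∀ (F : Fin m → Mat n), ∑ a, inner ℝ (∑ b, S a b • lq b ψ)
      (∑ i, ∑ b, F i a b • lq b (hop (F i) ψ)) =
      ∑ i, ∑ a, inner ℝ (∑ b, S a b • lq b ψ) (∑ b, F i a b • lq b (hop (F i) ψ)) := by
    intro F
    rw [Finset.sum_comm]
    exact Finset.sum_congr rfl fun a _ => inner_sum _ _ _
  have e2 : ∑ a, inner ℝ (∑ b, S a b • lq b ψ)
      (∑ i, ∑ b, N i a b • lq b (hop (N i) ψ) - ∑ j, ∑ b, P j a b • lq b (hop (P j) ψ)) =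
      ∑ a, inner ℝ (∑ b, S a b • lq b ψ) (∑ i, ∑ b, N i a b • lq b (hop (N i) ψ)) -
      ∑ a, inner ℝ (∑ b, S a b • lq b ψ) (∑ j, ∑ b, P j a b • lq b (hop (P j) ψ)) := by
    rw [← Finset.sum_sub_distrib]
    exact Finset.sum_congr rfl fun a _ => inner_sub_right _ _ _
  rw [e2, e1, e1]
  congr 1
  · exact Finset.sum_congr rfl fun i _ => lW_one hd hS (h.skN i)
  · exact Finset.sum_congr rfl fun i _ => lW_one hd hS (h.skP i)

end HopfQ4
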