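import Pool.Agent.Lib.MP_4a593f_gt.Q4.Star1

/-! Tasks Star1 (bianchi, lW), Star2 (normW), Star3 (star0): the vectors `W_a = ∑_i ∑_b (N_i)_ab lq_b (hop N_i ψ) - ∑_j ∑_b (P_j)_ab lq_b (hop P_j ψ)`.

Write `∑_r r ω_r ⊗ ω_r` for `∑ N_i ⊗ N_i - ∑ P_j ⊗ P_j` (a Bianchi tensor).
`lW` (`S` symmetric): `lcontr` with `A = S`, `B = ω`: `tr(Sω) = 0`, skew part of `Sω` is
`(1/2)(Sω+ωS)`; `⟨ψ, ρ_T hop ω ψ⟩ = 0` (`inner_rho_hop`), `hop_skew`.
`normW`: `lcontr` with `A = ω`, `B = ω'`: `ωᵀω' = -ωω'`, trace `2⟨ω,ω'⟩`, skew part `-(1/2)[ω,ω']`;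
`inner_hop3`; so `∑_a ‖W_a‖² = ∑_{rr'} r r' (2⟨ω,ω'⟩ kf(ω,ω') - ⟨hop ω ψ, ρ_{[ω,ω']} hop ω' ψ⟩)`.  Then
`ρ_M hop ω' = hop ω' ρ_M + hop [M,ω']` (`hop_lie1`); the first part, antisymmetrised in `(ω,ω')`, gives
`-(1/2)∑ r r' ‖ρ_{[ω,ω']}ψ‖²` (`hop_lie2`).  Left: `∑ r r'(2⟨ω,ω'⟩ kf(ω,ω') - kf(ω,[[ω,ω'],ω']))`, and
`[[ω,ω'],ω'] = ωω'² - 2ω'ωω' + ω'²ω`, with `∑ r' ω'² = -(X1 N - X1 P)` and, by `bianchi`,
`∑ r' ω' ω ω' = -∑ r' ⟨ω,ω'⟩ ω'`.
`bianchi`: `R_abcd = ∑ r ω_ab ω_cd` satisfies the first Bianchi identity (test `Bal.bal` with the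
4-forms `t = ` antisymmetrisation of `e_a⊗e_b⊗e_c⊗e_d`, or `four_wedge` polarised).
`star0`: Cauchy-Schwarz `0 ≤ ∑_a ‖W_a + ∑_b C_ab lq_b ψ‖²` with `∑_a ‖∑_b C_ab lq_b ψ‖² = tr C²`
(`lcontr`), `∑_a ⟨∑_b C_ab lq_b ψ, W_a⟩ = KK ψ C N - KK ψ C P = -tr C²` (`crit_marg`), and
`KK ψ R1 N - KK ψ R1 P = -tr(R1 C)`. -/

open scoped BigOperators

namespace HopfQ4

open HopfBig HopfN2

variable {n m p : ℕ} {c ε : ℝ} {N P : Fin m → Mat n} {ψ : Fk n}

private theorem kf_add_right (ψ : Fk n) (L M K : Mat n) :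
    kf ψ L (M + K) = kf ψ L M + kf ψ L K := by
  unfold kf hop
  simp only [map_add, LinearMap.sub_apply, LinearMap.add_apply, inner_sub_right, inner_add_right]
  ring

private theorem kf_smul_right (ψ : Fk n) (r : ℝ) (L M : Mat n) :
    kf ψ L (r • M) = r * kf ψ L M := by
  unfold kf hop
  simp only [map_smul, LinearMap.sub_apply, LinearMap.smul_apply, inner_sub_right,
    real_inner_smul_right]
  ring

private theorem kf_symm (ψ : Fk n) (L M : Mat n) : kf ψ L M = kf ψ M L := real_inner_comm _ _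

private noncomputable def kfl (ψ : Fk n) (L : Mat n) : Mat n →ₗ[ℝ] ℝ where
  toFun M := kf ψ L M
  map_add' M K := kf_add_right ψ L M K
  map_smul' r M := kf_smul_right ψ r L M

private theorem kfl_apply (ψ : Fk n) (L M : Mat n) : kfl ψ L M = kf ψ L M := rfl

/-- one pair -/
private theorem pair1 (hd : Deg p ψ) {A B : Mat n} (hA : Skew A) (hB : Skew B) :
    ∑ a, inner ℝ (∑ b, A a b • lq b (hop A ψ)) (∑ b, B a b • lq b (hop B ψ)) =
      2 * ip A B * kf ψ A B - inner ℝ (hop A ψ) (rho (br A B) (hop B ψ)) := by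
  rw [lcontr]
  have ht : (A.transpose * B).transpose = -(B * A) := by
    rw [Matrix.transpose_mul, Matrix.transpose_transpose, hB.transpose, Matrix.neg_mul]
  have htr : (A.transpose * B).trace = 2 * ip A B := by
    rw [ip_eq_trace]; ring
  rw [htr, ht, inner_sub_right, inner_hop3 hd]
  have hh : (1 / 2 : ℝ) • (A.transpose * B - -(B * A)) = -((1 / 2 : ℝ) • br A B) := by
    rw [hA.transpose]
    unfold br
    rw [← smul_neg]
    congr 1
    noncomm_ring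
  rw [hh, map_neg, map_smul, LinearMap.neg_apply, LinearMap.smul_apply, inner_neg_right,
    real_inner_smul_right]
  unfold kf
  ring

private theorem pair2 {A B : Mat n} (hA : Skew A) (hB : Skew B) :
    inner ℝ (hop A ψ) (rho (br A B) (hop B ψ)) =
      -inner ℝ (hop B (hop A ψ)) (rho (br A B) ψ) + kf ψ A (br (br A B) B) := by
  have h1 := hop_lie1 (Skew.br hA hB) hB ψ
  have h2 : rho (br A B) (hop B ψ) = hop B (rho (br A B) ψ) + hop (br (br A B) B) ψ := by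
    rw [← h1]; abel
  have h3 := hop_skew B (hop A ψ) (rho (br A B) ψ)
  rw [h2, inner_add_right]
  unfold kf
  linarith

private theorem pair3 {A B : Mat n} (hA : Skew A) (hB : Skew B) :
    inner ℝ (hop B (hop A ψ)) (rho (br A B) ψ) + inner ℝ (hop A (hop B ψ)) (rho (br B A) ψ) =
      -‖rho (br A B) ψ‖ ^ 2 := by
  have h1 := hop_lie2 hA hB ψ
  have h2 : br B A = -br A B := by unfold br; abel
  rw [h2, map_neg, LinearMap.neg_apply, inner_neg_right]
  have h3 : inner ℝ (hop A (hop B ψ)) (rho (br A B) ψ) - inner ℝ (hop B (hop A ψ)) (rho (br A B) ψ)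
      = ‖rho (br A B) ψ‖ ^ 2 := by
    rw [← inner_sub_left, h1, real_inner_self_eq_norm_sq]
  linarith

private theorem br2 (A B : Mat n) :
    br (br A B) B = (A * (B * B) + B * B * A) + (-2 : ℝ) • (B * A * B) := by
  have : (-2 : ℝ) • (B * A * B) = -(B * A * B) - B * A * B := by module
  rw [this]
  unfold br
  noncomm_ring

private theorem gen {ι : Type} [Fintype ι] (r : ι → ℝ) (ω : ι → Mat n) (hs : ∀ x, Skew (ω x))
    (hb : ∀ L : Mat n, Skew L → ∑ y, r y • (ω y * L * ω y) = -∑ y, (r y * ip (ω y) L) • ω y)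
    (hd : Deg p ψ) :
    ∑ a, ‖∑ x, r x • ∑ b, ω x a b • lq b (hop (ω x) ψ)‖ ^ 2 +
      (1 / 2) * ∑ x, ∑ y, r x * r y * ‖rho (br (ω x) (ω y)) ψ‖ ^ 2 =
      ∑ x, r x * kf ψ (ac (-∑ y, r y • (ω y * ω y)) (ω x)) (ω x) := by
  have e1 : ∑ a, ‖∑ x, r x • ∑ b, ω x a b • lq b (hop (ω x) ψ)‖ ^ 2 =
      ∑ x, ∑ y, r x * r y * (2 * ip (ω x) (ω y) * kf ψ (ω x) (ω y) -
        (-inner ℝ (hop (ω y) (hop (ω x) ψ)) (rho (br (ω x) (ω y)) ψ) +
          kf ψ (ω x) (br (br (ω x) (ω y)) (ω y)))) := by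
    have e0 : ∀ x y, 2 * ip (ω x) (ω y) * kf ψ (ω x) (ω y) -
        (-inner ℝ (hop (ω y) (hop (ω x) ψ)) (rho (br (ω x) (ω y)) ψ) +
          kf ψ (ω x) (br (br (ω x) (ω y)) (ω y))) =
        ∑ a, inner ℝ (∑ b, ω x a b • lq b (hop (ω x) ψ)) (∑ b, ω y a b • lq b (hop (ω y) ψ)) := by
      intro x y
      rw [← pair2 (hs x) (hs y), ← pair1 hd (hs x) (hs y)]
    simp only [e0]
    have e2 : ∀ a, ‖∑ x, r x • ∑ b, ω x a b • lq b (hop (ω x) ψ)‖ ^ 2 =
        ∑ x, ∑ y, r x * r y * inner ℝ (∑ b, ω x a b • lq b (hop (ω x) ψ))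
          (∑ b, ω y a b • lq b (hop (ω y) ψ)) := by
      intro a
      rw [← real_inner_self_eq_norm_sq, sum_inner]
      refine Finset.sum_congr rfl fun x _ => ?_
      rw [inner_sum]
      refine Finset.sum_congr rfl fun y _ => ?_
      rw [real_inner_smul_left, real_inner_smul_right]
      ring
    simp only [e2]
    rw [Finset.sum_comm]
    refine Finset.sum_congr rfl fun x _ => ?_
    rw [Finset.sum_comm]
    refine Finset.sum_congr rfl fun y _ => ?_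
    rw [Finset.mul_sum]
  have e3 : ∑ x, ∑ y, r x * r y * inner ℝ (hop (ω y) (hop (ω x) ψ)) (rho (br (ω x) (ω y)) ψ) =
      -(1 / 2) * ∑ x, ∑ y, r x * r y * ‖rho (br (ω x) (ω y)) ψ‖ ^ 2 := by
    have e4 : ∑ x, ∑ y, r x * r y * inner ℝ (hop (ω y) (hop (ω x) ψ)) (rho (br (ω x) (ω y)) ψ) =
        ∑ x, ∑ y, r x * r y * inner ℝ (hop (ω x) (hop (ω y) ψ)) (rho (br (ω y) (ω x)) ψ) := by
      rw [Finset.sum_comm]
      refine Finset.sum_congr rfl fun x _ => Finset.sum_congr rfl fun y _ => ?_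
      ring
    have e5 : ∑ x, ∑ y, r x * r y * inner ℝ (hop (ω y) (hop (ω x) ψ)) (rho (br (ω x) (ω y)) ψ) +
        ∑ x, ∑ y, r x * r y * inner ℝ (hop (ω x) (hop (ω y) ψ)) (rho (br (ω y) (ω x)) ψ) =
        -∑ x, ∑ y, r x * r y * ‖rho (br (ω x) (ω y)) ψ‖ ^ 2 := by
      rw [← Finset.sum_add_distrib, ← Finset.sum_neg_distrib]
      refine Finset.sum_congr rfl fun x _ => ?_
      rw [← Finset.sum_add_distrib, ← Finset.sum_neg_distrib]
      refine Finset.sum_congr rfl fun y _ => ?_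
      rw [← mul_add, pair3 (hs x) (hs y)]
      ring
    rw [← e4] at e5
    linarith
  have e6 : ∀ x, ∑ y, r y * (2 * ip (ω x) (ω y) * kf ψ (ω x) (ω y) -
      kf ψ (ω x) (br (br (ω x) (ω y)) (ω y))) =
      kf ψ (ac (-∑ y, r y • (ω y * ω y)) (ω x)) (ω x) := by
    intro x
    have h1 : kf ψ (ac (-∑ y, r y • (ω y * ω y)) (ω x)) (ω x) =
        -∑ y, r y * kf ψ (ω x) (ω x * (ω y * ω y) + ω y * ω y * ω x) := by
      rw [kf_symm]
      have : ac (-∑ y, r y • (ω y * ω y)) (ω x) =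
          -∑ y, r y • (ω x * (ω y * ω y) + ω y * ω y * ω x) := by
        unfold ac
        rw [neg_mul, mul_neg, Finset.sum_mul, Finset.mul_sum, ← neg_add, ← Finset.sum_add_distrib]
        congr 1
        refine Finset.sum_congr rfl fun y _ => ?_
        rw [smul_mul_assoc, mul_smul_comm, smul_add, add_comm]
      rw [this, ← kfl_apply, map_neg, map_sum]
      congr 1
      refine Finset.sum_congr rfl fun y _ => ?_
      rw [map_smul, kfl_apply, smul_eq_mul]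
    have h2 : ∑ y, r y * kf ψ (ω x) (ω y * ω x * ω y) =
        -∑ y, r y * (ip (ω x) (ω y) * kf ψ (ω x) (ω y)) := by
      have h3 := congrArg (kfl ψ (ω x)) (hb (ω x) (hs x))
      rw [map_sum, map_neg, map_sum] at h3
      simp only [map_smul, kfl_apply, smul_eq_mul] at h3
      rw [h3]
      congr 1
      refine Finset.sum_congr rfl fun y _ => ?_
      rw [ip_symm (ω x) (ω y)]
      ring
    have h4 : ∀ y, r y * (2 * ip (ω x) (ω y) * kf ψ (ω x) (ω y) -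
        kf ψ (ω x) (br (br (ω x) (ω y)) (ω y))) =
        2 * (r y * (ip (ω x) (ω y) * kf ψ (ω x) (ω y))) -
          r y * kf ψ (ω x) (ω x * (ω y * ω y) + ω y * ω y * ω x) +
          2 * (r y * kf ψ (ω x) (ω y * ω x * ω y)) := by
      intro y
      rw [br2, kf_add_right, kf_smul_right]
      ring
    rw [Finset.sum_congr rfl fun y _ => h4 y, Finset.sum_add_distrib, Finset.sum_sub_distrib,
      ← Finset.mul_sum, ← Finset.mul_sum, h2, h1]
    ring
  have e7 : ∑ x, ∑ y, r x * r y * (2 * ip (ω x) (ω y) * kf ψ (ω x) (ω y) -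
        (-inner ℝ (hop (ω y) (hop (ω x) ψ)) (rho (br (ω x) (ω y)) ψ) +
          kf ψ (ω x) (br (br (ω x) (ω y)) (ω y)))) =
      ∑ x, ∑ y, r x * r y * inner ℝ (hop (ω y) (hop (ω x) ψ)) (rho (br (ω x) (ω y)) ψ) +
      ∑ x, r x * ∑ y, r y * (2 * ip (ω x) (ω y) * kf ψ (ω x) (ω y) -
        kf ψ (ω x) (br (br (ω x) (ω y)) (ω y))) := by
    rw [← Finset.sum_add_distrib]
    refine Finset.sum_congr rfl fun x _ => ?_
    rw [Finset.mul_sum, ← Finset.sum_add_distrib]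
    refine Finset.sum_congr rfl fun y _ => ?_
    ring
  simp only [e6] at e7
  rw [e1, e7, e3]
  ring

theorem normW (h : Bal N P) (hd : Deg p ψ) :
    ∑ a, ‖Wv N P ψ a‖ ^ 2 + ((1 / 2) * QQ ψ N N - QQ ψ N P + (1 / 2) * QQ ψ P P) =
      KK ψ (X1 N - X1 P) N - KK ψ (X1 N - X1 P) P := by
  have h1 := gen (ψ := ψ) (p := p) (ι := Fin m ⊕ Fin m) (Sum.elim (fun _ => 1) (fun _ => -1))
    (Sum.elim N P) (by
      rintro (i | j)
      · exact h.skN i
      · exact h.skP j) (by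
      intro L hL
      simp only [Fintype.sum_sum_type, Sum.elim_inl, Sum.elim_inr, one_smul, one_mul, neg_smul,
        neg_mul, Finset.sum_neg_distrib]
      rw [← sub_eq_add_neg, bianchi h hL]
      abel) hd
  simp only [Fintype.sum_sum_type, Sum.elim_inl, Sum.elim_inr, one_smul, one_mul, neg_smul,
    neg_mul, Finset.sum_neg_distrib, mul_neg, neg_neg] at h1
  have hX : -(∑ i, N i * N i + -∑ j, P j * P j) = X1 N - X1 P := by
    unfold X1
    abel
  rw [hX] at h1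
  have hQ : ∀ A B : Fin m → Mat n, ∑ j, ∑ i, ‖rho (br (B j) (A i)) ψ‖ ^ 2 = QQ ψ A B := by
    intro A B
    unfold QQ
    rw [Finset.sum_comm]
    refine Finset.sum_congr rfl fun i _ => Finset.sum_congr rfl fun j _ => ?_
    have : br (B j) (A i) = -br (A i) (B j) := by unfold br; abel
    rw [this, map_neg, LinearMap.neg_apply, norm_neg]
  have hN : ∀ A : Fin m → Mat n, ∑ i, ∑ j, ‖rho (br (A i) (A j)) ψ‖ ^ 2 = QQ ψ A A := fun A => rfl
  have hNP : ∑ i, ∑ j, ‖rho (br (N i) (P j)) ψ‖ ^ 2 = QQ ψ N P := rfl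
  simp only [Finset.sum_add_distrib, Finset.sum_neg_distrib, hN, hNP, hQ] at h1
  unfold KK Wv
  have e0 : ∀ a, ∑ i, ∑ b, N i a b • lq b (hop (N i) ψ) - ∑ j, ∑ b, P j a b • lq b (hop (P j) ψ) =
      ∑ i, ∑ b, N i a b • lq b (hop (N i) ψ) + -∑ j, ∑ b, P j a b • lq b (hop (P j) ψ) :=
    fun a => sub_eq_add_neg _ _
  simp only [e0]
  linarith

end HopfQ4
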