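import Pool.Agent.Lib.MP_4a593f_gt.Q4.Dg

/-! Tasks Up1 (Uprime), Up2 (L7, trXs, trbr, Eineq): the upper bound for `SS ψ N N` (no maximality needed).

`Uprime`.  With `E_M = rho M` (all matrices `M`): `Ss (ac L M) = E_{LM} + E_{ML} + 2⟨L,M⟩`,
`rho (br L M) = E_{LM} - E_{ML}` (`L, M` skew, `⟨L,M⟩ = -(1/2) tr(LM)`), so
`‖Ss(ac L M)ψ‖² - ‖rho(br L M)ψ‖² = 4⟨E_{LM}ψ, E_{ML}ψ⟩ + 4⟨L,M⟩⟨(E_{LM}+E_{ML})ψ,ψ⟩ + 4⟨L,M⟩²`.
CAR: `⟨c†_a c_b ψ, c†_c c_d ψ⟩ = δ_ac ⟨c_b ψ, c_d ψ⟩ - ⟨c_c c_b ψ, c_a c_d ψ⟩` (`c = an`, `c† = cr`), so with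
`X_{ab,cd} = ∑_i (N_i)_ab (N_i)_cd`
`∑_ij ⟨E_{N_iN_j}ψ, E_{N_jN_i}ψ⟩ = ∑ X_{ae,fd} X_{eb,af} ⟨c_b ψ, c_d ψ⟩ + ∑_{e,f} ‖v_ef‖²`,
`v_ef = ∑_{a,d} X_{ae,fd} c_a c_d ψ = -v_fe = -ctr (Xs N (e_e∧e_f)) ψ`.  The first term is
`∑_ij ⟨E_{N_iN_jN_iN_j}ψ,ψ⟩`.  Moreover `⟨wdg L ψ, wdg L ψ⟩ = ⟨ctr L ψ, ctr L ψ⟩ + |L|²‖ψ‖² +
⟨E_{L²}ψ,ψ⟩`, so `2‖ctr L ψ‖² = kf ψ L L - |L|² - ⟨E_{L²}ψ,ψ⟩`, and
`(1/2)∑_{e,f} (Xs N (e_e∧e_f))² = ∑_kl (N_kN_lN_kN_l + 2⟨N_k,N_l⟩N_kN_l)`
(as `(1/2)∑_{ef} E_ef M E_ef = Mᵀ - tr M`), so all one-body terms cancel.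
Traces: `(1/2)∑_{ef}|Xs N (e_e∧e_f)|² = tau + tX2`.
`L7`: for a 4-form `t`: both sums reduce to `± 2 ∑ t_abcd X_{ae,cf} X_{be,df}`.
`trbr`: `|[L,M]|² = tr(L²M²) - tr(LMLM)`.
`Eineq`: `SS = QQ + 4 ∑_e kf(X^♯e) - 4 tau`; by `L7` for `f = qf + kf - ip` (`four_kf`),
`∑_e kf(X^♯e) = trbr/2 + (tau+tX2) - QQ/2 - (1/2)∑kf(br) - ∑_e qf(X^♯e)`; drop `kf ≥ 0`, `qf ≥ 0`.
All identities were checked numerically. -/

open scoped BigOperators

namespace HopfQ4

open HopfBig HopfN2

variable {n m p : ℕ} {N : Fin m → Mat n} {ψ : Fk n}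

/-- `X_{ab,cd}` -/
private noncomputable def Up1X (N : Fin m → Mat n) (a b c d : Fin n) : ℝ :=
  ∑ k, N k a b * N k c d

private theorem Up1X_flip (hs : ∀ i, Skew (N i)) (a b c d : Fin n) :
    Up1X N b a d c = Up1X N a b c d := by
  unfold Up1X
  refine Finset.sum_congr rfl fun k _ => ?_
  rw [hs k a b, hs k c d]; ring

private theorem Up1X_pair (N : Fin m → Mat n) (a b c d : Fin n) :
    Up1X N c d a b = Up1X N a b c d := by
  unfold Up1X
  refine Finset.sum_congr rfl fun k _ => ?_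
  ring

/-- `w_ef` -/
private noncomputable def Up1w (N : Fin m → Mat n) (ψ : Fk n) (e f : Fin n) : Fk n :=
  ∑ a, ∑ b, Up1X N a e f b • an b (an a ψ)

private theorem Up1_mul3 (A L B : Mat n) (a b : Fin n) :
    (A * L * B) a b = ∑ i, ∑ j, A a i * L i j * B j b := by
  simp only [Matrix.mul_apply, Finset.sum_mul]
  rw [Finset.sum_comm]

private theorem Up1_Xs_apply (N : Fin m → Mat n) (e f a b : Fin n) :
    Xs N (eab e f) a b = Up1X N a e f b - Up1X N a f e b := by
  unfold Xs Up1X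
  rw [Matrix.sum_apply, ← Finset.sum_sub_distrib]
  refine Finset.sum_congr rfl fun k _ => ?_
  rw [Up1_mul3]
  have h1 : ∀ i j : Fin n, N k a i * eab e f i j * N k j b =
      (if i = e then (if j = f then N k a e * N k f b else 0) else 0) -
      (if i = f then (if j = e then N k a f * N k e b else 0) else 0) := by
    intro i j
    unfold eab wd
    simp only [Matrix.of_apply, Pi.single_apply]
    by_cases h1 : i = e <;> by_cases h2 : j = f <;> by_cases h3 : j = e <;>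
      by_cases h4 : i = f <;> simp [h1, h2, h3, h4] <;> subst_vars <;> simp_all
  simp only [h1, Finset.sum_sub_distrib]
  simp [Finset.sum_ite_eq']

private theorem Up1_inner_rho (A B : Mat n) (ψ : Fk n) :
    inner ℝ (rho A ψ) (rho B ψ) =
      (∑ b, ∑ d, (A.transpose * B) b d * G5aux.N ψ b d) +
      ∑ a, ∑ b, ∑ c, ∑ d, A a b * B c d * G5aux.K ψ a d b c := by
  rw [rho_apply, rho_apply]
  simp only [sum_inner, real_inner_smul_left]
  simp only [inner_sum, real_inner_smul_right, G5aux.inner_ca]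
  have h1 : ∀ a b : Fin n, A a b * ∑ c, ∑ d, B c d *
      ((if a = c then G5aux.N ψ b d else 0) + G5aux.K ψ a d b c) =
      (∑ d, A a b * B a d * G5aux.N ψ b d) + ∑ c, ∑ d, A a b * B c d * G5aux.K ψ a d b c := by
    intro a b
    simp only [mul_add, Finset.sum_add_distrib, Finset.mul_sum]
    congr 1
    · rw [Finset.sum_eq_single a]
      · refine Finset.sum_congr rfl fun d _ => ?_
        rw [if_pos rfl]; ring
      · intro c _ hc
        refine Finset.sum_eq_zero fun d _ => ?_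
        rw [if_neg (Ne.symm hc)]; ring
      · intro h; exact absurd (Finset.mem_univ a) h
    · refine Finset.sum_congr rfl fun c _ => Finset.sum_congr rfl fun d _ => ?_
      ring
  simp only [h1, Finset.sum_add_distrib]
  congr 1
  rw [Finset.sum_comm]
  refine Finset.sum_congr rfl fun b _ => ?_
  rw [Finset.sum_comm]
  refine Finset.sum_congr rfl fun d _ => ?_
  rw [Matrix.mul_apply, Finset.sum_mul]
  refine Finset.sum_congr rfl fun a _ => ?_
  rw [Matrix.transpose_apply]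

private theorem Up1_inner_rho_one (A : Mat n) (ψ : Fk n) :
    inner ℝ (rho A ψ) ψ = ∑ b, ∑ d, A b d * G5aux.N ψ b d := by
  rw [rho_apply]
  simp only [sum_inner, real_inner_smul_left]
  refine Finset.sum_congr rfl fun b _ => Finset.sum_congr rfl fun d _ => ?_
  rw [inner_cr, real_inner_comm]
  rfl

private theorem Up1_key (N : Fin m → Mat n) (a b c d : Fin n) :
    ∑ i, ∑ j, (N i * N j) a b * (N j * N i) c d =
      ∑ e, ∑ f, Up1X N a e f d * Up1X N e b c f := by
  have h1 : ∀ i j, (N i * N j) a b * (N j * N i) c d =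
      ∑ e, ∑ f, (N i a e * N i f d) * (N j e b * N j c f) := by
    intro i j
    rw [Matrix.mul_apply, Matrix.mul_apply, Finset.sum_mul_sum]
    refine Finset.sum_congr rfl fun e _ => Finset.sum_congr rfl fun f _ => ?_
    ring
  simp only [h1]
  have h2 : ∀ e f, Up1X N a e f d * Up1X N e b c f =
      ∑ i, ∑ j, (N i a e * N i f d) * (N j e b * N j c f) := by
    intro e f
    unfold Up1X
    rw [Finset.sum_mul_sum]
  simp only [h2]
  calc ∑ i, ∑ j, ∑ e, ∑ f, (N i a e * N i f d) * (N j e b * N j c f)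
      = ∑ i, ∑ e, ∑ f, ∑ j, (N i a e * N i f d) * (N j e b * N j c f) := by
        refine Finset.sum_congr rfl fun i _ => ?_
        rw [Finset.sum_comm]
        refine Finset.sum_congr rfl fun e _ => ?_
        rw [Finset.sum_comm]
    _ = _ := by
        rw [Finset.sum_comm]
        refine Finset.sum_congr rfl fun e _ => ?_
        rw [Finset.sum_comm]

private theorem Up1_swap4 {α : Type*} [Fintype α] (F : α → Fin n → Fin n → Fin n → Fin n → ℝ) :
    ∑ i, ∑ a, ∑ b, ∑ c, ∑ d, F i a b c d = ∑ a, ∑ b, ∑ c, ∑ d, ∑ i, F i a b c d := by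
  rw [Finset.sum_comm]
  refine Finset.sum_congr rfl fun a _ => ?_
  rw [Finset.sum_comm]
  refine Finset.sum_congr rfl fun b _ => ?_
  rw [Finset.sum_comm]
  refine Finset.sum_congr rfl fun c _ => ?_
  rw [Finset.sum_comm]

private theorem Up1_inner_w (N : Fin m → Mat n) (ψ : Fk n) (e f : Fin n) :
    inner ℝ (Up1w N ψ e f) (Up1w N ψ e f) =
      ∑ a, ∑ b, ∑ c, ∑ d, Up1X N a e f d * Up1X N b e f c * G5aux.K ψ a d b c := by
  unfold Up1w
  simp only [sum_inner, real_inner_smul_left]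
  simp only [inner_sum, real_inner_smul_right]
  refine Finset.sum_congr rfl fun a _ => ?_
  -- left: ∑ d, X a e f d * ∑ b, ∑ c, X b e f c * inner
  have h1 : ∀ d, Up1X N a e f d * ∑ b, ∑ c, Up1X N b e f c *
      inner ℝ (an d (an a ψ)) (an c (an b ψ)) =
      ∑ b, ∑ c, Up1X N a e f d * Up1X N b e f c * G5aux.K ψ a d b c := by
    intro d
    simp only [Finset.mul_sum]
    refine Finset.sum_congr rfl fun b _ => Finset.sum_congr rfl fun c _ => ?_
    unfold G5aux.K
    ring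
  simp only [h1]
  rw [Finset.sum_comm]
  refine Finset.sum_congr rfl fun b _ => ?_
  rw [Finset.sum_comm]

private theorem Up1_two (hs : ∀ i, Skew (N i)) (ψ : Fk n) :
    ∑ i, ∑ j, ∑ a, ∑ b, ∑ c, ∑ d, (N i * N j) a b * (N j * N i) c d * G5aux.K ψ a d b c =
      ∑ e, ∑ f, inner ℝ (Up1w N ψ e f) (Up1w N ψ e f) := by
  have h1 : ∑ i, ∑ j, ∑ a, ∑ b, ∑ c, ∑ d,
      (N i * N j) a b * (N j * N i) c d * G5aux.K ψ a d b c =
      ∑ a, ∑ b, ∑ c, ∑ d, (∑ e, ∑ f, Up1X N a e f d * Up1X N e b c f) * G5aux.K ψ a d b c := by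
    rw [Finset.sum_congr rfl fun i _ => Up1_swap4 _, Up1_swap4]
    refine Finset.sum_congr rfl fun a _ => Finset.sum_congr rfl fun b _ =>
      Finset.sum_congr rfl fun c _ => Finset.sum_congr rfl fun d _ => ?_
    rw [← Up1_key]
    simp only [Finset.sum_mul]
  rw [h1]
  simp only [Up1_inner_w]
  rw [Finset.sum_congr rfl fun e _ => Up1_swap4 _, Up1_swap4]
  refine Finset.sum_congr rfl fun a _ => Finset.sum_congr rfl fun b _ =>
    Finset.sum_congr rfl fun c _ => Finset.sum_congr rfl fun d _ => ?_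
  simp only [Finset.sum_mul]
  refine Finset.sum_congr rfl fun e _ => Finset.sum_congr rfl fun f _ => ?_
  rw [Up1X_flip hs b e f c]

private theorem Up1_w_swap (hs : ∀ i, Skew (N i)) (ψ : Fk n) (e f : Fin n) :
    ∑ a, ∑ b, Up1X N a f e b • an b (an a ψ) = -Up1w N ψ e f := by
  unfold Up1w
  rw [Finset.sum_comm, ← Finset.sum_neg_distrib]
  refine Finset.sum_congr rfl fun b _ => ?_
  rw [← Finset.sum_neg_distrib]
  refine Finset.sum_congr rfl fun a _ => ?_
  rw [an_an, smul_neg, ← Up1X_flip hs a f e b, Up1X_pair]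

private theorem Up1_ctr_Xs (hs : ∀ i, Skew (N i)) (ψ : Fk n) (e f : Fin n) :
    ctr (Xs N (eab e f)) ψ = Up1w N ψ e f := by
  have h1 : ctr (Xs N (eab e f)) ψ =
      (1 / 2 : ℝ) • ∑ a, ∑ b, (Xs N (eab e f)) a b • an b (an a ψ) := by
    simp only [ctr, LinearMap.coe_mk, AddHom.coe_mk, LinearMap.smul_apply,
      LinearMap.sum_apply, LinearMap.comp_apply]
  rw [h1]
  simp only [Up1_Xs_apply, sub_smul, Finset.sum_sub_distrib]
  rw [Up1_w_swap hs ψ e f]
  have h2 : ∑ a, ∑ b, Up1X N a e f b • an b (an a ψ) = Up1w N ψ e f := rfl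
  rw [h2]
  module

private theorem Up1_kf (hd : Deg p ψ) (hψ : ‖ψ‖ = 1) {L : Mat n} (hL : Skew L) :
    kf ψ L L = ip L L - (∑ b, ∑ d, (L.transpose * L) b d * G5aux.N ψ b d) +
      2 * inner ℝ (ctr L ψ) (ctr L ψ) := by
  rw [kf_eq hd]
  have e2 : inner ℝ (ctr L ψ) (ctr L ψ) =
      (1 / 4) * G5aux.Ph L (fun a b c d => G5aux.K ψ a b c d) := by
    have h1 : ctr L ψ = (1 / 2 : ℝ) • ∑ a, ∑ b, L a b • an b (an a ψ) := by
      simp only [ctr, LinearMap.coe_mk, AddHom.coe_mk, LinearMap.smul_apply,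
        LinearMap.sum_apply, LinearMap.comp_apply]
    rw [h1, real_inner_smul_left, real_inner_smul_right,
      G5aux.inner_dsum L (fun a b => an b (an a ψ))]
    have : (fun a b c d => inner ℝ (an b (an a ψ)) (an d (an c ψ))) =
        (fun a b c d => G5aux.K ψ a b c d) := rfl
    rw [this]; ring
  have e3 : inner ℝ (wdg L ψ) (wdg L ψ) = (1 / 4) *
      (G5aux.Ph L (fun a b c d => (if a = c then (if b = d then 1 else 0) else 0))
      - G5aux.Ph L (fun a b c d => (if b = c then (if a = d then 1 else 0) else 0))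
      - G5aux.Ph L (fun a b c d => (if a = c then G5aux.N ψ b d else 0))
      + G5aux.Ph L (fun a b c d => (if b = c then G5aux.N ψ a d else 0))
      + G5aux.Ph L (fun a b c d => (if a = d then G5aux.N ψ b c else 0))
      - G5aux.Ph L (fun a b c d => (if b = d then G5aux.N ψ a c else 0))
      + G5aux.Ph L (fun a b c d => G5aux.K ψ a b c d)) := by
    have h1 : wdg L ψ = (1 / 2 : ℝ) • ∑ a, ∑ b, L a b • cr a (cr b ψ) := by
      simp only [wdg, LinearMap.coe_mk, AddHom.coe_mk, LinearMap.smul_apply,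
        LinearMap.sum_apply, LinearMap.comp_apply]
    rw [h1, real_inner_smul_left, real_inner_smul_right,
      G5aux.inner_dsum L (fun a b => cr a (cr b ψ))]
    simp only [G5aux.inner_cc ψ hψ]
    rw [← G5aux.Ph_sub, ← G5aux.Ph_sub, ← G5aux.Ph_add, ← G5aux.Ph_add, ← G5aux.Ph_sub,
      ← G5aux.Ph_add]
    ring
  have s1 : G5aux.Ph L (fun a b c d => (if b = c then (if a = d then (1 : ℝ) else 0) else 0)) =
      -G5aux.Ph L (fun a b c d => (if a = c then (if b = d then 1 else 0) else 0)) :=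
    G5aux.Ph_swap1 hL (fun a b c d => (if a = c then (if b = d then (1 : ℝ) else 0) else 0))
  have s2 : G5aux.Ph L (fun a b c d => (if b = c then G5aux.N ψ a d else 0)) =
      -G5aux.Ph L (fun a b c d => (if a = c then G5aux.N ψ b d else 0)) :=
    G5aux.Ph_swap1 hL (fun a b c d => (if a = c then G5aux.N ψ b d else 0))
  have s3 : G5aux.Ph L (fun a b c d => (if a = d then G5aux.N ψ b c else 0)) =
      -G5aux.Ph L (fun a b c d => (if a = c then G5aux.N ψ b d else 0)) :=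
    G5aux.Ph_swap2 hL (fun a b c d => (if a = c then G5aux.N ψ b d else 0))
  have s4 : G5aux.Ph L (fun a b c d => (if b = d then G5aux.N ψ a c else 0)) =
      -G5aux.Ph L (fun a b c d => (if a = d then G5aux.N ψ b c else 0)) :=
    G5aux.Ph_swap1 hL (fun a b c d => (if a = d then G5aux.N ψ b c else 0))
  have e4 : G5aux.Ph L (fun a b c d => (if a = c then (if b = d then (1 : ℝ) else 0) else 0)) =
      2 * ip L L := by
    unfold G5aux.Ph ip
    rw [← mul_assoc, show (2 : ℝ) * (1 / 2) = 1 by norm_num, one_mul]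
    refine Finset.sum_congr rfl fun a _ => Finset.sum_congr rfl fun b _ => ?_
    rw [Finset.sum_eq_single a]
    · rw [Finset.sum_eq_single b]
      · simp
      · intro d _ hd
        simp [Ne.symm hd]
      · intro hb; exact absurd (Finset.mem_univ b) hb
    · intro c _ hc
      simp [Ne.symm hc]
    · intro ha; exact absurd (Finset.mem_univ a) ha
  have e5 : G5aux.Ph L (fun a b c d => (if a = c then G5aux.N ψ b d else 0)) =
      ∑ b, ∑ d, (L.transpose * L) b d * G5aux.N ψ b d := by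
    unfold G5aux.Ph
    have h1 : ∀ a b : Fin n, ∑ c, ∑ d, (if a = c then G5aux.N ψ b d else 0) * L a b * L c d =
        ∑ d, L a b * L a d * G5aux.N ψ b d := by
      intro a b
      rw [Finset.sum_eq_single a]
      · refine Finset.sum_congr rfl fun d _ => ?_
        rw [if_pos rfl]; ring
      · intro c _ hc
        refine Finset.sum_eq_zero fun d _ => ?_
        rw [if_neg (Ne.symm hc)]; ring
      · intro h; exact absurd (Finset.mem_univ a) h
    simp only [h1]
    rw [Finset.sum_comm]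
    refine Finset.sum_congr rfl fun b _ => ?_
    rw [Finset.sum_comm]
    refine Finset.sum_congr rfl fun d _ => ?_
    rw [Matrix.mul_apply, Finset.sum_mul]
    refine Finset.sum_congr rfl fun a _ => ?_
    rw [Matrix.transpose_apply]
  rw [e3, s1, s4, s2, s3, e4, e5, e2]
  ring

private theorem Up1_Xs_skew (hs : ∀ i, Skew (N i)) (e f : Fin n) : Skew (Xs N (eab e f)) := by
  intro i j
  rw [Up1_Xs_apply, Up1_Xs_apply]
  have h1 : Up1X N j e f i = Up1X N i f e j :=
    (Up1X_flip hs j e f i).symm.trans (Up1X_pair N i f e j)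
  have h2 : Up1X N j f e i = Up1X N i e f j :=
    (Up1X_flip hs j f e i).symm.trans (Up1X_pair N i e f j)
  rw [h1, h2]; ring

private theorem Up1_mul4 (A B C D : Mat n) (b d : Fin n) :
    (A * B * C * D) b d = ∑ e, ∑ f, ∑ a, A b f * B f a * C a e * D e d := by
  simp only [Matrix.mul_apply, Finset.sum_mul]
  refine Finset.sum_congr rfl fun e _ => ?_
  rw [Finset.sum_comm]

private theorem Up1_swap3 {α : Type*} [Fintype α] (F : α → Fin n → Fin n → Fin n → ℝ) :
    ∑ i, ∑ a, ∑ b, ∑ c, F i a b c = ∑ a, ∑ b, ∑ c, ∑ i, F i a b c := by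
  rw [Finset.sum_comm]
  refine Finset.sum_congr rfl fun a _ => ?_
  rw [Finset.sum_comm]
  refine Finset.sum_congr rfl fun b _ => ?_
  rw [Finset.sum_comm]

private theorem Up1_P (hs : ∀ i, Skew (N i)) (b d : Fin n) :
    ∑ e, ∑ f, ∑ a, Up1X N a e f b * Up1X N a e f d =
      -∑ k, ∑ l, 2 * ip (N k) (N l) * (N k * N l) b d := by
  have h1 : ∑ e, ∑ f, ∑ a, Up1X N a e f b * Up1X N a e f d =
      ∑ k, ∑ l, ∑ e, ∑ f, ∑ a, (N k a e * N k f b) * (N l a e * N l f d) := by
    rw [Finset.sum_congr rfl fun k _ => Up1_swap3 _, Up1_swap3]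
    refine Finset.sum_congr rfl fun e _ => Finset.sum_congr rfl fun f _ =>
      Finset.sum_congr rfl fun a _ => ?_
    unfold Up1X
    rw [Finset.sum_mul_sum]
  rw [h1, ← Finset.sum_neg_distrib]
  refine Finset.sum_congr rfl fun k _ => ?_
  rw [← Finset.sum_neg_distrib]
  refine Finset.sum_congr rfl fun l _ => ?_
  have h2 : (N k * N l) b d = -∑ f, N k f b * N l f d := by
    rw [Matrix.mul_apply, ← Finset.sum_neg_distrib]
    refine Finset.sum_congr rfl fun f _ => ?_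
    rw [hs k b f]; ring
  have h3 : 2 * ip (N k) (N l) = ∑ e, ∑ a, N k a e * N l a e := by
    unfold ip
    rw [Finset.sum_comm]; ring
  rw [h2, h3, mul_neg, neg_neg, Finset.sum_mul]
  refine Finset.sum_congr rfl fun e _ => ?_
  rw [Finset.mul_sum]
  refine Finset.sum_congr rfl fun f _ => ?_
  rw [Finset.sum_mul]
  refine Finset.sum_congr rfl fun a _ => ?_
  ring

private theorem Up1_Q (hs : ∀ i, Skew (N i)) (b d : Fin n) :
    ∑ e, ∑ f, ∑ a, Up1X N a e f b * Up1X N a f e d =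
      ∑ k, ∑ l, (N k * N l * N k * N l) b d := by
  have h1 : ∑ e, ∑ f, ∑ a, Up1X N a e f b * Up1X N a f e d =
      ∑ k, ∑ l, ∑ e, ∑ f, ∑ a, (N k a e * N k f b) * (N l a f * N l e d) := by
    rw [Finset.sum_congr rfl fun k _ => Up1_swap3 _, Up1_swap3]
    refine Finset.sum_congr rfl fun e _ => Finset.sum_congr rfl fun f _ =>
      Finset.sum_congr rfl fun a _ => ?_
    unfold Up1X
    rw [Finset.sum_mul_sum]
  rw [h1]
  refine Finset.sum_congr rfl fun k _ => Finset.sum_congr rfl fun l _ => ?_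
  rw [Up1_mul4]
  refine Finset.sum_congr rfl fun e _ => Finset.sum_congr rfl fun f _ =>
    Finset.sum_congr rfl fun a _ => ?_
  rw [hs k f b, hs l a f]; ring

private theorem Up1_LL (hs : ∀ i, Skew (N i)) (b d : Fin n) :
    ∑ e, ∑ f, ((Xs N (eab e f)).transpose * Xs N (eab e f)) b d =
      -2 * ∑ k, ∑ l, (2 * ip (N k) (N l) * (N k * N l) b d + (N k * N l * N k * N l) b d) := by
  have h1 : ∀ e f : Fin n, ((Xs N (eab e f)).transpose * Xs N (eab e f)) b d =
      (∑ a, Up1X N a e f b * Up1X N a e f d) - (∑ a, Up1X N a e f b * Up1X N a f e d) -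
      (∑ a, Up1X N a f e b * Up1X N a e f d) + ∑ a, Up1X N a f e b * Up1X N a f e d := by
    intro e f
    rw [Matrix.mul_apply, ← Finset.sum_sub_distrib, ← Finset.sum_sub_distrib,
      ← Finset.sum_add_distrib]
    refine Finset.sum_congr rfl fun a _ => ?_
    rw [Matrix.transpose_apply, Up1_Xs_apply, Up1_Xs_apply]
    ring
  simp only [h1, Finset.sum_sub_distrib, Finset.sum_add_distrib]
  have hP := Up1_P hs b d
  have hQ := Up1_Q hs b d
  have hP' : ∑ e, ∑ f, ∑ a, Up1X N a f e b * Up1X N a f e d =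
      ∑ e, ∑ f, ∑ a, Up1X N a e f b * Up1X N a e f d := Finset.sum_comm
  have hQ' : ∑ e, ∑ f, ∑ a, Up1X N a f e b * Up1X N a e f d =
      ∑ e, ∑ f, ∑ a, Up1X N a e f b * Up1X N a f e d := Finset.sum_comm
  rw [hP', hQ', hP, hQ]
  ring

private theorem Up1_trace2 {L M : Mat n} (hM : Skew M) : (L * M).trace = -(2 * ip L M) := by
  unfold Matrix.trace ip
  rw [← mul_assoc, show (2 : ℝ) * (1 / 2) = 1 by norm_num, one_mul, ← Finset.sum_neg_distrib]
  refine Finset.sum_congr rfl fun i _ => ?_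
  rw [Matrix.diag_apply, Matrix.mul_apply, ← Finset.sum_neg_distrib]
  refine Finset.sum_congr rfl fun j _ => ?_
  rw [hM i j]; ring

private theorem Up1_ip_comm (L M : Mat n) : ip L M = ip M L := by
  unfold ip
  congr 1
  refine Finset.sum_congr rfl fun i _ => Finset.sum_congr rfl fun j _ => ?_
  ring

private theorem Up1_Ss {L M : Mat n} (hL : Skew L) (hM : Skew M) (ψ : Fk n) :
    Ss (ac L M) ψ = rho (L * M) ψ + rho (M * L) ψ + (2 * ip L M) • ψ := by
  have ht : (ac L M).trace = -(4 * ip L M) := by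
    unfold ac
    rw [Matrix.trace_add, Up1_trace2 hM, Up1_trace2 hL, Up1_ip_comm M L]; ring
  unfold Ss
  rw [LinearMap.sub_apply, LinearMap.smul_apply, LinearMap.id_apply, ht]
  unfold ac
  rw [map_add, LinearMap.add_apply]
  module

private theorem Up1_norm {L M : Mat n} (hL : Skew L) (hM : Skew M) (hψ : ‖ψ‖ = 1) :
    ‖Ss (ac L M) ψ‖ ^ 2 = ‖rho (br L M) ψ‖ ^ 2 +
      4 * inner ℝ (rho (L * M) ψ) (rho (M * L) ψ) +
      4 * (ip L M * (inner ℝ (rho (L * M) ψ) ψ + inner ℝ (rho (M * L) ψ) ψ)) +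
      4 * ip L M ^ 2 := by
  have h0 : inner ℝ ψ ψ = (1 : ℝ) := by
    rw [real_inner_self_eq_norm_sq, hψ]; norm_num
  have hb : rho (br L M) ψ = rho (L * M) ψ - rho (M * L) ψ := by
    unfold br
    rw [map_sub, LinearMap.sub_apply]
  rw [Up1_Ss hL hM, hb, ← real_inner_self_eq_norm_sq, ← real_inner_self_eq_norm_sq]
  simp only [inner_add_left, inner_add_right, inner_sub_left, inner_sub_right,
    real_inner_smul_left, real_inner_smul_right, h0]
  rw [real_inner_comm ψ (rho (L * M) ψ), real_inner_comm ψ (rho (M * L) ψ),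
    real_inner_comm (rho (L * M) ψ) (rho (M * L) ψ)]
  ring

private theorem Up1_tr_mul (hM : ∀ i, Skew (N i)) (i j : Fin m) :
    (N i * N j).transpose * (N j * N i) = N j * N i * N j * N i := by
  have h : ∀ i, (N i).transpose = -N i := by
    intro i
    ext a b
    rw [Matrix.transpose_apply, Matrix.neg_apply, hM i a b]
  rw [Matrix.transpose_mul, h, h, neg_mul_neg, ← mul_assoc]

private theorem Up1_ip_self (L : Mat n) : ip L L = (1 / 2) * ∑ b, (L.transpose * L) b b := by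
  unfold ip
  congr 1
  rw [Finset.sum_comm]
  refine Finset.sum_congr rfl fun b _ => ?_
  rw [Matrix.mul_apply]
  refine Finset.sum_congr rfl fun a _ => ?_
  rw [Matrix.transpose_apply]

/-- `∑_{bd} M_bd N_bd` -/
private noncomputable def Up1o (ψ : Fk n) (M : Mat n) : ℝ :=
  ∑ b, ∑ d, M b d * G5aux.N ψ b d

private theorem Up1_ip_sum (hs : ∀ i, Skew (N i)) :
    ∑ e, ∑ f, ip (Xs N (eab e f)) (Xs N (eab e f)) =
      ∑ k, ∑ l, (4 * ip (N k) (N l) ^ 2 - (N k * N l * N k * N l).trace) := by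
  have h1 : ∑ e, ∑ f, ip (Xs N (eab e f)) (Xs N (eab e f)) =
      (1 / 2) * ∑ b, ∑ e, ∑ f, ((Xs N (eab e f)).transpose * Xs N (eab e f)) b b := by
    simp only [Up1_ip_self, Finset.mul_sum]
    rw [Finset.sum_congr rfl fun e _ => Finset.sum_comm, Finset.sum_comm]
  rw [h1]
  simp only [Up1_LL hs]
  rw [← Finset.mul_sum, ← mul_assoc, show (1 / 2 : ℝ) * -2 = -1 by norm_num]
  rw [Finset.sum_comm, Finset.mul_sum]
  refine Finset.sum_congr rfl fun k _ => ?_
  rw [Finset.sum_comm, Finset.mul_sum]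
  refine Finset.sum_congr rfl fun l _ => ?_
  rw [Finset.sum_add_distrib, ← Finset.mul_sum]
  have h2 : ∑ b, (N k * N l) b b = (N k * N l).trace := rfl
  have h3 : ∑ b, (N k * N l * N k * N l) b b = (N k * N l * N k * N l).trace := rfl
  rw [h2, h3, Up1_trace2 (hs l)]
  ring

private theorem Up1_o_sum (hs : ∀ i, Skew (N i)) (ψ : Fk n) :
    ∑ e, ∑ f, Up1o ψ ((Xs N (eab e f)).transpose * Xs N (eab e f)) =
      -2 * ∑ k, ∑ l, (2 * (ip (N k) (N l) * Up1o ψ (N k * N l)) +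
        Up1o ψ (N k * N l * N k * N l)) := by
  have h1 : ∑ e, ∑ f, Up1o ψ ((Xs N (eab e f)).transpose * Xs N (eab e f)) =
      ∑ b, ∑ d, (∑ e, ∑ f, ((Xs N (eab e f)).transpose * Xs N (eab e f)) b d) *
        G5aux.N ψ b d := by
    unfold Up1o
    simp only [Finset.sum_mul]
    rw [Finset.sum_congr rfl fun e _ => Finset.sum_comm, Finset.sum_comm]
    refine Finset.sum_congr rfl fun b _ => ?_
    rw [Finset.sum_congr rfl fun e _ => Finset.sum_comm, Finset.sum_comm]
  rw [h1]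
  simp only [Up1_LL hs]
  have h2 : ∀ k l, 2 * (ip (N k) (N l) * Up1o ψ (N k * N l)) + Up1o ψ (N k * N l * N k * N l) =
      ∑ b, ∑ d, (2 * ip (N k) (N l) * (N k * N l) b d + (N k * N l * N k * N l) b d) *
        G5aux.N ψ b d := by
    intro k l
    unfold Up1o
    simp only [add_mul, Finset.sum_add_distrib, Finset.mul_sum, mul_assoc]
  simp only [h2]
  have h3 : ∑ k, ∑ l, ∑ b, ∑ d,
      (2 * ip (N k) (N l) * (N k * N l) b d + (N k * N l * N k * N l) b d) * G5aux.N ψ b d =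
      ∑ b, ∑ d, (∑ k, ∑ l,
      (2 * ip (N k) (N l) * (N k * N l) b d + (N k * N l * N k * N l) b d)) *
        G5aux.N ψ b d := by
    simp only [Finset.sum_mul]
    rw [Finset.sum_congr rfl fun e _ => Finset.sum_comm, Finset.sum_comm]
    refine Finset.sum_congr rfl fun b _ => ?_
    rw [Finset.sum_congr rfl fun e _ => Finset.sum_comm, Finset.sum_comm]
  rw [h3, Finset.mul_sum]
  refine Finset.sum_congr rfl fun b _ => ?_
  rw [Finset.mul_sum]
  refine Finset.sum_congr rfl fun d _ => ?_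
  ring

theorem Uprime (hs : ∀ i, Skew (N i)) (hd : Deg p ψ) (hψ : ‖ψ‖ = 1) :
    SS ψ N N = QQ ψ N N +
      4 * ((1 / 2) * ∑ e, ∑ f, kf ψ (Xs N (eab e f)) (Xs N (eab e f))) - 4 * tau N := by
  -- the left side
  have hL : SS ψ N N = QQ ψ N N + 4 * (∑ e, ∑ f, inner ℝ (Up1w N ψ e f) (Up1w N ψ e f)) +
      4 * (∑ k, ∑ l, Up1o ψ (N k * N l * N k * N l)) +
      8 * (∑ k, ∑ l, ip (N k) (N l) * Up1o ψ (N k * N l)) +
      4 * ∑ k, ∑ l, ip (N k) (N l) ^ 2 := by
    have h1 : SS ψ N N = QQ ψ N N +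
        4 * (∑ i, ∑ j, inner ℝ (rho (N i * N j) ψ) (rho (N j * N i) ψ)) +
        4 * (∑ i, ∑ j, ip (N i) (N j) *
          (inner ℝ (rho (N i * N j) ψ) ψ + inner ℝ (rho (N j * N i) ψ) ψ)) +
        4 * ∑ i, ∑ j, ip (N i) (N j) ^ 2 := by
      unfold SS QQ
      simp only [Up1_norm (hs _) (hs _) hψ, Finset.sum_add_distrib, Finset.mul_sum]
    have h2 : ∑ i, ∑ j, inner ℝ (rho (N i * N j) ψ) (rho (N j * N i) ψ) =
        (∑ k, ∑ l, Up1o ψ (N k * N l * N k * N l)) +
        ∑ e, ∑ f, inner ℝ (Up1w N ψ e f) (Up1w N ψ e f) := by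
      rw [← Up1_two hs ψ]
      simp only [Up1_inner_rho, Up1_tr_mul hs, Finset.sum_add_distrib]
      congr 1
      rw [Finset.sum_comm]
      rfl
    have h3 : ∑ i, ∑ j, ip (N i) (N j) *
          (inner ℝ (rho (N i * N j) ψ) ψ + inner ℝ (rho (N j * N i) ψ) ψ) =
        2 * (∑ k, ∑ l, ip (N k) (N l) * Up1o ψ (N k * N l)) := by
      simp only [mul_add, Finset.sum_add_distrib, Up1_inner_rho_one]
      rw [two_mul]
      congr 1
      rw [Finset.sum_comm]
      refine Finset.sum_congr rfl fun k _ => Finset.sum_congr rfl fun l _ => ?_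
      rw [Up1_ip_comm]
      rfl
    rw [h1, h2, h3]
    ring
  have hR : ∑ e, ∑ f, kf ψ (Xs N (eab e f)) (Xs N (eab e f)) =
      (∑ k, ∑ l, (4 * ip (N k) (N l) ^ 2 - (N k * N l * N k * N l).trace)) +
      2 * (∑ k, ∑ l, (2 * (ip (N k) (N l) * Up1o ψ (N k * N l)) +
        Up1o ψ (N k * N l * N k * N l))) +
      2 * ∑ e, ∑ f, inner ℝ (Up1w N ψ e f) (Up1w N ψ e f) := by
    have h1 : ∀ e f : Fin n, kf ψ (Xs N (eab e f)) (Xs N (eab e f)) =
        ip (Xs N (eab e f)) (Xs N (eab e f)) -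
        Up1o ψ ((Xs N (eab e f)).transpose * Xs N (eab e f)) +
        2 * inner ℝ (Up1w N ψ e f) (Up1w N ψ e f) := by
      intro e f
      rw [Up1_kf hd hψ (Up1_Xs_skew hs e f), Up1_ctr_Xs hs]
      rfl
    simp only [h1, Finset.sum_add_distrib, Finset.sum_sub_distrib, ← Finset.mul_sum]
    have h2 := Up1_ip_sum hs
    have h3 := Up1_o_sum hs ψ
    simp only [Finset.sum_add_distrib, Finset.sum_sub_distrib, ← Finset.mul_sum] at h2 h3 ⊢
    rw [h2, h3]
    ring
  rw [hL, hR]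
  unfold tau
  simp only [Finset.sum_add_distrib, Finset.sum_sub_distrib, ← Finset.mul_sum]
  ring

end HopfQ4
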