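import Pool.Agent.Lib.MP_4a593f_gt.Q4.CoreC

/-! Task Wt: the final theorem (array form).

As in `Big/K4.lean` (`lower`, `pos_of_kpos`, `main`), with `mainC` (CoreC.lean) instead of `core` and with a
constant `κ` and a fractional number `m + t` of eigenvalues.
`lowerC` is `Big/K4.lower` with `mainC` as the input (any unit `ψ`).
Spectral decomposition `curv_spectral`: `r` increasing, `E` orthonormal; `M = n(n-1)/2 ≥ m+1` because
`m ≤ p(n-p)/3 ≤ n²/12` (for `n ≤ 4`: `p(n-p)/3 < 2`, check by hand).  Let `μ = r_m` (the `(m+1)`-st smallest).  The hypothesis for `ω_i = E_i`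
gives `∑_{i<m} r_i + t μ ≥ (m+t) κ`, and `r_i ≤ μ` gives `μ ≥ κ`.  `lowerC`, `trace_D`:
`∑ r_i ‖ρ_{E_i}χ‖² ≥ μ p(n-p) - C (m μ - ∑_{i<m} r_i) ≥ μ p(n-p) - C (m+t)(μ - κ)
= p(n-p) κ + (μ-κ)(p(n-p) - C(m+t)) ≥ p(n-p) κ`.
Then `weitz_fock`, `weitz_spectral`, `bochner_comp`, `exists_comp`, `sum_comp` (K2, K3), scaling from
unit vectors.  (`p ≥ 1` and `p < n` follow from the hypotheses.)  Constant: for the curvature tensor of
the unit sphere `bochner R φ = (n-p) ∑ φ_I²`, so check the factor with `trace_D`, e.g.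
`∑_I comp p f I ^ 2 = p! ‖f‖²`, `bochner = (p-1)! (...)`. -/

open scoped BigOperators

namespace HopfQ4

open HopfBig

private theorem four_smul {n : ℕ} {f : Mat n → ℝ} (hf : Four f) (c : ℝ) {L : Mat n}
    (hL : Skew L) : f (c • L) = c ^ 2 * f L := by
  obtain ⟨t, -, ht⟩ := hf
  have hcL : Skew (c • L) := by
    intro i j
    simp only [Matrix.smul_apply, smul_eq_mul]
    rw [hL i j]; ring
  rw [ht _ hcL, ht _ hL]
  simp only [Matrix.smul_apply, smul_eq_mul, Finset.mul_sum]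
  refine Finset.sum_congr rfl fun a _ => Finset.sum_congr rfl fun b _ =>
    Finset.sum_congr rfl fun c' _ => Finset.sum_congr rfl fun d _ => ?_
  ring

private theorem skew_smul {n : ℕ} (c : ℝ) {L : Mat n} (hL : Skew L) : Skew (c • L) := by
  intro i j
  simp only [Matrix.smul_apply, smul_eq_mul]
  rw [hL i j]; ring

private theorem ip_smul_smul {n : ℕ} (c : ℝ) (L : Mat n) : ip (c • L) (c • L) = c ^ 2 * ip L L := by
  unfold ip
  simp only [Matrix.smul_apply, smul_eq_mul, Finset.mul_sum]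
  refine Finset.sum_congr rfl fun a _ => Finset.sum_congr rfl fun b _ => ?_
  ring

private theorem max_sub_max (x μ : ℝ) : max (x - μ) 0 - max (μ - x) 0 = x - μ := by
  rcases le_total x μ with h | h
  · rw [max_eq_right (by linarith), max_eq_left (by linarith)]; ring
  · rw [max_eq_left (by linarith), max_eq_right (by linarith)]; ring

theorem lowerC {n m : ℕ} {C : ℝ} (hC3 : 3 ≤ C) (hCn : (n : ℝ) * (4 - C) ≤ 2 * C * (C - 3))
    (E : Fin m → Mat n) (r : Fin m → ℝ) (hs : ∀ i, Skew (E i))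
    (ho : ∀ i j, ip (E i) (E j) = if i = j then 1 else 0)
    (hc : ∀ L, Skew L → L = ∑ i, ip (E i) L • E i)
    (h4 : ∀ f : Mat n → ℝ, Four f → ∑ i, r i * f (E i) = 0) (μ : ℝ) {ψ : Fk n} (hψ : ‖ψ‖ = 1) :
    -(C * ∑ i, max (μ - r i) 0) ≤ ∑ i, (r i - μ) * ‖rho (E i) ψ‖ ^ 2 := by
  have hsq1 : ∀ i, √(max (r i - μ) 0) ^ 2 = max (r i - μ) 0 := fun i =>
    Real.sq_sqrt (le_max_right _ _)
  have hsq2 : ∀ i, √(max (μ - r i) 0) ^ 2 = max (μ - r i) 0 := fun i =>
    Real.sq_sqrt (le_max_right _ _)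
  have hBal : Bal (fun i => √(max (μ - r i) 0) • E i) (fun i => √(max (r i - μ) 0) • E i) := by
    refine ⟨fun i => skew_smul _ (hs i), fun i => skew_smul _ (hs i), ?_⟩
    intro f hf
    have h0 : ∑ i, f (E i) = 0 := four_trace E hs ho hc f hf
    have h1 := h4 f hf
    have h2 : ∑ i, f (√(max (r i - μ) 0) • E i) - ∑ j, f (√(max (μ - r j) 0) • E j) =
        ∑ i, r i * f (E i) - μ * ∑ i, f (E i) := by
      rw [Finset.mul_sum, ← Finset.sum_sub_distrib, ← Finset.sum_sub_distrib]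
      refine Finset.sum_congr rfl fun i _ => ?_
      rw [four_smul hf _ (hs i), four_smul hf _ (hs i), hsq1, hsq2, ← sub_mul, max_sub_max]
      ring
    rw [h0, h1] at h2
    linarith
  have key := mainC hC3 hCn hBal hψ
  have hN : ∑ j, ip (√(max (μ - r j) 0) • E j) (√(max (μ - r j) 0) • E j) =
      ∑ i, max (μ - r i) 0 := by
    refine Finset.sum_congr rfl fun i _ => ?_
    rw [ip_smul_smul, hsq2, ho i i, if_pos rfl, mul_one]
  have hD : ∀ (c : ℝ) (L : Mat n), ‖rho (c • L) ψ‖ ^ 2 = c ^ 2 * ‖rho L ψ‖ ^ 2 := by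
    intro c L
    rw [map_smul, LinearMap.smul_apply, norm_smul, mul_pow, Real.norm_eq_abs, sq_abs]
  have hR : ∑ i, ‖rho (√(max (r i - μ) 0) • E i) ψ‖ ^ 2 -
      ∑ j, ‖rho (√(max (μ - r j) 0) • E j) ψ‖ ^ 2 =
      ∑ i, (r i - μ) * ‖rho (E i) ψ‖ ^ 2 := by
    rw [← Finset.sum_sub_distrib]
    refine Finset.sum_congr rfl fun i _ => ?_
    rw [hD, hD, hsq1, hsq2, ← sub_mul, max_sub_max]
  rw [hN] at key
  linarith

private theorem weitz_lower {n p m : ℕ} {C t κ : ℝ} (hC3 : 3 ≤ C)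
    (hCn : (n : ℝ) * (4 - C) ≤ 2 * C * (C - 3)) (hmt : 0 < (m : ℝ) + t)
    (hk : C * ((m : ℝ) + t) ≤ p * ((n : ℝ) - p)) (hm : m + 1 ≤ n * (n - 1) / 2)
    {R : Fin n → Fin n → Fin n → Fin n → ℝ} (hR : IsCurvature R)
    (h : ∀ ω : Fin (m + 1) → Fin n → Fin n → ℝ, (∀ i, IsTwoForm (ω i)) →
      (∀ i j, inner2 (ω i) (ω j) = if i = j then 1 else 0) →
      ((m : ℝ) + t) * κ ≤ ∑ i : Fin m, curvOp R (ω i.castSucc) + t * curvOp R (ω (Fin.last m)))
    {ψ : Fk n} (hd : Deg p ψ) :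
    (p : ℝ) * (n - p) * κ * ‖ψ‖ ^ 2 ≤
      (∑ i, ∑ j, ricci R i j * inner ℝ (an i ψ) (an j ψ)) -
        (1 / 2) * ∑ i, ∑ j, ∑ k, ∑ l, R i j k l *
          inner ℝ (an j (an i ψ)) (an l (an k ψ)) := by
  obtain ⟨M, E, r, hM, hs, ho, hc, hmono, hRr, hop, h4⟩ := curv_spectral hR
  rw [← weitz_fock hR ψ, weitz_spectral E r hs hRr ψ]
  rcases eq_or_ne ψ 0 with hψ | hψ
  · subst hψ
    simp
  obtain ⟨l, rfl⟩ : ∃ l, M = (m + 1) + l := Nat.exists_eq_add_of_le (hM ▸ hm)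
  have hpos : ((m : ℝ) + t) * κ ≤ ∑ i : Fin m, r (Fin.castAdd l i.castSucc) +
      t * r (Fin.castAdd l (Fin.last m)) := by
    have h := h (fun i => E (Fin.castAdd l i)) (fun i => hs _) (fun i j => by
      have h1 := ho (Fin.castAdd l i) (Fin.castAdd l j)
      have h2 : (Fin.castAdd l i = Fin.castAdd l j) ↔ i = j := by
        constructor
        · intro h; exact Fin.castAdd_injective (m + 1) l h
        · rintro rfl; rfl
      simp only [h2] at h1
      exact h1)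
    have h3 : ∀ i : Fin (m + 1), curvOp R (E (Fin.castAdd l i)) = r (Fin.castAdd l i) :=
      fun i => hop _
    rw [h3, Finset.sum_congr rfl fun i _ => h3 (Fin.castSucc i)] at h
    exact h
  set μ : ℝ := r (Fin.castAdd l (Fin.last m)) with hμ
  have hle : ∀ i : Fin (m + 1), r (Fin.castAdd l i) ≤ μ := by
    intro i
    apply hmono
    rw [Fin.le_def]
    simp only [Fin.val_castAdd, Fin.val_last]
    omega
  have hge : ∀ i : Fin l, μ ≤ r (Fin.natAdd (m + 1) i) := by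
    intro i
    apply hmono
    rw [Fin.le_def]
    simp only [Fin.val_castAdd, Fin.val_last, Fin.val_natAdd]
    omega
  have hsum : ∑ i : Fin (m + 1 + l), max (μ - r i) 0 =
      (m : ℝ) * μ - ∑ i : Fin m, r (Fin.castAdd l i.castSucc) := by
    rw [Fin.sum_univ_add, Fin.sum_univ_castSucc]
    have h1 : ∑ i : Fin m, max (μ - r (Fin.castAdd l i.castSucc)) 0 =
        ∑ i : Fin m, (μ - r (Fin.castAdd l i.castSucc)) :=
      Finset.sum_congr rfl fun i _ => max_eq_left (by linarith [hle i.castSucc])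
    have h2 : ∑ i : Fin l, max (μ - r (Fin.natAdd (m + 1) i)) 0 = 0 :=
      Finset.sum_eq_zero fun i _ => max_eq_right (by linarith [hge i])
    rw [h1, h2, Finset.sum_sub_distrib, Finset.sum_const, Finset.card_univ, Fintype.card_fin,
      nsmul_eq_mul, add_zero, ← hμ, sub_self, max_self, add_zero]
  have hμκ : κ ≤ μ := by
    have h1 : ∑ i : Fin m, r (Fin.castAdd l i.castSucc) ≤ ∑ _i : Fin m, μ :=
      Finset.sum_le_sum fun i _ => hle i.castSucc
    rw [Finset.sum_const, Finset.card_univ, Fintype.card_fin, nsmul_eq_mul] at h1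
    have h2 : ((m : ℝ) + t) * κ ≤ ((m : ℝ) + t) * μ := by
      calc ((m : ℝ) + t) * κ ≤ _ := hpos
        _ ≤ (m : ℝ) * μ + t * μ := by linarith
        _ = _ := by ring
    exact le_of_mul_le_mul_left h2 hmt
  -- normalise
  have hn0 : 0 < ‖ψ‖ := norm_pos_iff.mpr hψ
  set χ : Fk n := ‖ψ‖⁻¹ • ψ with hχ
  have hχd : Deg p χ := by
    intro s hsc
    rw [hχ, PiLp.smul_apply, hd s hsc, smul_zero]
  have hχn : ‖χ‖ = 1 := by
    rw [hχ, norm_smul, norm_inv, norm_norm, inv_mul_cancel₀ hn0.ne']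
  have hlow := lowerC hC3 hCn E r hs ho hc h4 μ hχn
  have htr := trace_D E hs ho hc hχd
  rw [hχn] at htr
  have h5 : ∑ i, (r i - μ) * ‖rho (E i) χ‖ ^ 2 =
      ∑ i, r i * ‖rho (E i) χ‖ ^ 2 - μ * ∑ i, ‖rho (E i) χ‖ ^ 2 := by
    rw [Finset.mul_sum, ← Finset.sum_sub_distrib]
    exact Finset.sum_congr rfl fun i _ => by ring
  rw [h5, htr, hsum] at hlow
  have h6 : (p : ℝ) * (n - p) * κ ≤ ∑ i, r i * ‖rho (E i) χ‖ ^ 2 := by
    have h7 : 0 ≤ (μ - κ) * (p * ((n : ℝ) - p) - C * ((m : ℝ) + t)) :=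
      mul_nonneg (by linarith) (by linarith)
    have h8 : C * ((m : ℝ) * μ - ∑ i : Fin m, r (Fin.castAdd l i.castSucc)) ≤
        C * (((m : ℝ) + t) * (μ - κ)) := by
      refine mul_le_mul_of_nonneg_left ?_ (by linarith)
      linarith [hpos]
    nlinarith [hlow, h7, h8]
  have h9 : ∑ i, r i * inner ℝ (rho (E i) ψ) (rho (E i) ψ) =
      ‖ψ‖ ^ 2 * ∑ i, r i * ‖rho (E i) χ‖ ^ 2 := by
    rw [Finset.mul_sum]
    refine Finset.sum_congr rfl fun i _ => ?_
    have h10 : rho (E i) χ = ‖ψ‖⁻¹ • rho (E i) ψ := by rw [hχ, map_smul]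
    rw [h10, norm_smul, norm_inv, norm_norm, real_inner_self_eq_norm_sq]
    field_simp
  rw [h9, mul_comm]
  exact mul_le_mul_of_nonneg_left h6 (by positivity)

/-- If `λ_1 + ... + λ_m + t λ_{m+1} ≥ (m+t) κ` for the eigenvalues of the curvature operator and
`C(m+t) ≤ p(n-p)`, `C ≥ 3`, `n(4-C) ≤ 2C(C-3)` (e.g. `C = 4`), then the Weitzenböck term on `p`-forms is at least the one of constant curvature
`κ`. -/
theorem main_weighted {n p m : ℕ} {C t κ : ℝ} (hC3 : 3 ≤ C)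
    (hCn : (n : ℝ) * (4 - C) ≤ 2 * C * (C - 3)) (ht0 : 0 ≤ t) (ht1 : t ≤ 1) (hmt : 0 < (m : ℝ) + t)
    (hk : C * ((m : ℝ) + t) ≤ p * ((n : ℝ) - p))
    {R : Fin n → Fin n → Fin n → Fin n → ℝ} (hR : IsCurvature R)
    (h : ∀ ω : Fin (m + 1) → Fin n → Fin n → ℝ, (∀ i, IsTwoForm (ω i)) →
      (∀ i j, inner2 (ω i) (ω j) = if i = j then 1 else 0) →
      ((m : ℝ) + t) * κ ≤ ∑ i : Fin m, curvOp R (ω i.castSucc) + t * curvOp R (ω (Fin.last m)))
    {φ : (Fin p → Fin n) → ℝ} (hφ : IsForm φ) :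
    ((n : ℝ) - p) * κ * ∑ I, φ I ^ 2 ≤ bochner R φ := by
  rcases Nat.eq_zero_or_pos p with hp0 | hp0
  · subst hp0
    have h1 : 0 < C * ((m : ℝ) + t) := mul_pos (by linarith) hmt
    simp at hk
    linarith
  have hpr : (1 : ℝ) ≤ p := by exact_mod_cast hp0
  have hnp : (p : ℝ) < n := by
    by_contra hcon
    push Not at hcon
    have : (p : ℝ) * ((n : ℝ) - p) ≤ 0 := mul_nonpos_of_nonneg_of_nonpos (by linarith) (by linarith)
    have h1 : 0 < C * ((m : ℝ) + t) := mul_pos (by linarith) hmt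
    linarith
  have hnp' : p < n := by exact_mod_cast hnp
  have hn2 : 2 ≤ n := by omega
  have h12 : 12 * m ≤ n * n := by
    have h1 : (12 : ℝ) * m ≤ n * n := by
      have h2 : 3 * (m : ℝ) ≤ C * ((m : ℝ) + t) :=
        mul_le_mul hC3 (by linarith) (Nat.cast_nonneg m) (by linarith)
      nlinarith [sq_nonneg ((n : ℝ) - 2 * p)]
    exact_mod_cast h1
  have hm : m + 1 ≤ n * (n - 1) / 2 := by
    rw [Nat.le_div_iff_mul_le (by norm_num)]
    obtain ⟨k, rfl⟩ : ∃ k, n = k + 2 := ⟨n - 2, by omega⟩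
    have : k + 2 - 1 = k + 1 := by omega
    rw [this]
    by_contra hcon
    push Not at hcon
    have h1 : (k + 2) * (k + 1) < (m + 1) * 2 := hcon
    have h2 : 12 * m ≤ (k + 2) * (k + 2) := h12
    nlinarith
  obtain ⟨q, rfl⟩ : ∃ q, p = q + 1 := ⟨p - 1, by omega⟩
  obtain ⟨f, hfd, rfl⟩ := exists_comp φ hφ
  rw [bochner_comp R hfd]
  have h1 := weitz_lower hC3 hCn hmt hk hm hR h hfd
  have h2 : ∑ I : Fin (q + 1) → Fin n, comp (q + 1) f I ^ 2 =
      ((q + 1).factorial : ℝ) * ‖f‖ ^ 2 := by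
    have := sum_comp hfd hfd
    rw [real_inner_self_eq_norm_sq] at this
    rw [← this]
    exact Finset.sum_congr rfl fun I _ => by ring
  rw [h2, Nat.factorial_succ]
  have h3 : ((n : ℝ) - ((q + 1 : ℕ) : ℝ)) * κ * (((q + 1) * q.factorial : ℕ) * ‖f‖ ^ 2) =
      (q.factorial : ℝ) * (((q + 1 : ℕ) : ℝ) * (n - ((q + 1 : ℕ) : ℝ)) * κ * ‖f‖ ^ 2) := by
    push_cast
    ring
  rw [h3]
  exact mul_le_mul_of_nonneg_left h1 (by positivity)

end HopfQ4
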